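import Pool.Agent.TH525.PF.Fin
import Pool.Agent.H165R3.Birk

/-! # Local attraction to graphs with negative exponent -/

set_option autoImplicit false

open Set Filter Topology MeasureTheory

namespace Pool.Agent.TH525.PF

namespace Sys

variable {X : Type*} [MeasurableSpace X] (S : Sys X) {m : Measure X}

/-- the orbit of `(x, y)` is asymptotic to the graph -/
def Cv (φ : X → ℝ) (x : X) (y : ℝ) : Prop :=
  Tendsto (fun n : ℕ => S.it n x y - φ (S.T^[n] x)) atTop (𝓝 0)

theorem contr {c ρ : ℝ} (hρ : ∀ x y y', |y - y'| < ρ → |Real.log (S.G x y) - Real.log (S.G x y')| ≤ c)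
    {x : X} {y z : ℝ} (h : |y - z| < ρ) :
    |S.F x y - S.F x z| ≤ Real.exp (Real.log (S.G x z) + c) * |y - z| := by
  rcases eq_or_ne y z with rfl | hne
  · simp
  have key : ∀ ξ, |ξ - z| < ρ → S.G x ξ ≤ Real.exp (Real.log (S.G x z) + c) := by
    intro ξ hξ
    have h1 := (abs_le.1 (hρ x ξ z hξ)).2
    rw [← Real.exp_log (S.Gpos x ξ)]
    exact Real.exp_le_exp.2 (by linarith)
  rcases lt_or_gt_of_ne hne with h1 | h1
  · obtain ⟨ξ, a, b⟩ := S.slope x h1
    rw [abs_of_neg (sub_neg.2 h1)] at h ⊢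
    rw [abs_of_neg (sub_neg.2 (S.strict x h1)), neg_sub, neg_sub, b]
    refine mul_le_mul_of_nonneg_right (key ξ ?_) (sub_pos.2 h1).le
    rw [abs_of_neg (sub_neg.2 a.2)]
    linarith [a.1]
  · obtain ⟨ξ, a, b⟩ := S.slope x h1
    rw [abs_of_pos (sub_pos.2 h1)] at h ⊢
    rw [abs_of_pos (sub_pos.2 (S.strict x h1)), b]
    refine mul_le_mul_of_nonneg_right (key ξ ?_) (sub_pos.2 h1).le
    rw [abs_of_pos (sub_pos.2 a.1)]
    linarith [a.2]

theorem local_att [IsProbabilityMeasure m] (erg : Ergodic S.T m) {φ : X → ℝ} (hφ : S.Gr m φ)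
    (hneg : S.ex m φ < 0) : ∀ᵐ x ∂m, ∃ δ : ℝ, 0 < δ ∧ ∀ y, |y - φ x| < δ → S.Cv φ x y := by
  set lam := S.ex m φ with hlam
  have hc : 0 < -lam / 4 := by linarith
  obtain ⟨ρ, hρ0, hρ⟩ := S.mod _ hc
  set g : X → ℝ := fun x => Real.log (S.G x (φ x)) with hg
  have hb := Pool.Agent.H165R3.birkhoff (m := m) erg g (S.measG hφ.1).log
    ⟨Real.log S.L, fun x => S.abs_log _ _⟩
  filter_upwards [hb, hφ.iter S erg] with x hx hit
  set a : ℕ → ℝ := fun n => ∑ k ∈ Finset.range n, (g (S.T^[k] x) + -lam / 4) with ha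
  have ha0 : a 0 = 0 := by simp [ha]
  have has : ∀ n, a (n + 1) = a n + (g (S.T^[n] x) + -lam / 4) := by
    intro n
    simp only [ha]
    rw [Finset.sum_range_succ]
  have hlim : Tendsto a atTop atBot := by
    have h1 : ∀ᶠ n : ℕ in atTop, (n : ℝ)⁻¹ * ∑ k ∈ Finset.range n, g (S.T^[k] x) < lam / 2 :=
      hx.eventually (gt_mem_nhds (show lam < lam / 2 by linarith))
    have h2 : ∀ᶠ n : ℕ in atTop, a n ≤ lam / 4 * n := by
      filter_upwards [h1, eventually_gt_atTop 0] with n hn hn0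
      have hn1 : (0 : ℝ) < n := by exact_mod_cast hn0
      have h3 : ∑ k ∈ Finset.range n, g (S.T^[k] x) < lam / 2 * n := by
        rw [inv_mul_lt_iff₀ hn1] at hn
        linarith
      have h4 : a n = ∑ k ∈ Finset.range n, g (S.T^[k] x) + n * (-lam / 4) := by
        simp [ha, Finset.sum_add_distrib]
      rw [h4]
      linarith
    refine tendsto_atBot_mono' atTop h2 ?_
    exact Tendsto.const_mul_atTop_of_neg (by linarith) tendsto_natCast_atTop_atTop
  obtain ⟨C, hC⟩ := bddAbove_range_of_tendsto_atTop_atBot hlim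
  have hC' : ∀ n, a n ≤ max C 0 := fun n => (hC ⟨n, rfl⟩).trans (le_max_left _ _)
  refine ⟨ρ * Real.exp (-(max C 0)), by positivity, fun y hy => ?_⟩
  have key : ∀ n, |S.it n x y - φ (S.T^[n] x)| ≤ Real.exp (a n) * |y - φ x| := by
    intro n
    induction n with
    | zero => simp [ha0]
    | succ n ih =>
      have h1 : |S.it n x y - φ (S.T^[n] x)| < ρ := by
        refine ih.trans_lt ?_
        calc Real.exp (a n) * |y - φ x| ≤ Real.exp (max C 0) * |y - φ x| :=
              mul_le_mul_of_nonneg_right (Real.exp_le_exp.2 (hC' n)) (abs_nonneg _)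
          _ < Real.exp (max C 0) * (ρ * Real.exp (-(max C 0))) :=
              mul_lt_mul_of_pos_left hy (Real.exp_pos _)
          _ = ρ := by rw [mul_left_comm, ← Real.exp_add]; simp
      have h2 := S.contr hρ (x := S.T^[n] x) h1
      have h3 : S.F (S.T^[n] x) (φ (S.T^[n] x)) = φ (S.T^[n + 1] x) := by
        have := hit (n + 1)
        rw [it_succ, hit n] at this
        exact this
      rw [h3] at h2
      rw [it_succ, has, Real.exp_add]
      refine h2.trans ?_
      have e1 : Real.log (S.G (S.T^[n] x) (φ (S.T^[n] x))) = g (S.T^[n] x) := rfl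
      rw [e1]
      calc Real.exp (g (S.T^[n] x) + -lam / 4) * |S.it n x y - φ (S.T^[n] x)|
          ≤ Real.exp (g (S.T^[n] x) + -lam / 4) * (Real.exp (a n) * |y - φ x|) :=
            mul_le_mul_of_nonneg_left ih (Real.exp_pos _).le
        _ = _ := by ring
  refine squeeze_zero_norm (fun n => ?_) (a := fun n => Real.exp (a n) * |y - φ x|) ?_
  · rw [Real.norm_eq_abs]
    exact key n
  · have := (Real.tendsto_exp_atBot.comp hlim).mul_const |y - φ x|
    simpa using this

end Sys

end Pool.Agent.TH525.PF
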