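import Pool.Agent.TH525.PF.Att

/-! # The basin of a graph with negative exponent -/

set_option autoImplicit false

open Set Filter Topology MeasureTheory

namespace Pool.Agent.TH525.PF

namespace Sys

variable {X : Type*} [MeasurableSpace X] (S : Sys X) {m : Measure X}

theorem cv_succ {φ : X → ℝ} {x : X} {y : ℝ} : S.Cv φ (S.T x) (S.F x y) ↔ S.Cv φ x y := by
  unfold Cv
  rw [← tendsto_add_atTop_iff_nat (f := fun n : ℕ => S.it n x y - φ (S.T^[n] x)) 1]
  simp only [it_succ', Function.iterate_succ_apply]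

theorem cv_self {φ : X → ℝ} {x : X} (h : ∀ n : ℕ, S.it n x (φ x) = φ (S.T^[n] x)) :
    S.Cv φ x (φ x) := by
  unfold Cv
  simp only [h, sub_self]
  exact tendsto_const_nhds

theorem cv_between {φ : X → ℝ} {x : X} (h : ∀ n : ℕ, S.it n x (φ x) = φ (S.T^[n] x)) {y z : ℝ}
    (hy : S.Cv φ x y) (h1 : φ x ≤ z) (h2 : z ≤ y) : S.Cv φ x z := by
  refine squeeze_zero (fun n => ?_) (fun n => ?_) hy
  · rw [← h n]
    exact sub_nonneg.2 (S.it_mono n x h1)
  · exact sub_le_sub_right (S.it_mono n x h2) _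

theorem cv_meas {φ : X → ℝ} (mφ : Measurable φ) {y : X → ℝ} (my : Measurable y) :
    MeasurableSet {x | S.Cv φ x (y x)} :=
  measurableSet_tendsto _ fun n => (S.it_meas n my).sub (mφ.comp (S.T.measurable.iterate n))

/-- A graph with negative exponent attracts everything up to the next graph. -/
theorem capture [IsProbabilityMeasure m] (erg : Ergodic S.T m) {φ ψ : X → ℝ} (hφ : S.Gr m φ)
    (hψ : S.Gr m ψ) (hlt : ∀ᵐ x ∂m, φ x < ψ x) (hneg : S.ex m φ < 0)
    (hgap : ∀ χ, S.Gr m χ → (∀ᵐ x ∂m, φ x < χ x) → (∀ᵐ x ∂m, χ x < ψ x) → False) :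
    ∀ᵐ x ∂m, ∀ y, φ x < y → y < ψ x → S.Cv φ x y := by
  classical
  set yq : ℚ → X → ℝ := fun q x => φ x + q * (ψ x - φ x) with hyq
  have myq : ∀ q, Measurable (yq q) := fun q =>
    hφ.1.add ((hψ.1.sub hφ.1).const_mul _)
  set w : ℚ → X → ℝ := fun q x =>
    if 0 ≤ q ∧ q < 1 ∧ S.Cv φ x (yq q x) then yq q x else φ x with hw
  have mw : ∀ q, Measurable (w q) := by
    intro q
    by_cases hq : 0 ≤ q ∧ q < 1
    · have : w q = fun x => if S.Cv φ x (yq q x) then yq q x else φ x := by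
        ext x
        simp only [hw, hq.1, hq.2, true_and]
      rw [this]
      exact Measurable.ite (S.cv_meas hφ.1 (myq q)) (myq q) hφ.1
    · have : w q = φ := by
        ext x
        simp only [hw]
        rw [if_neg]
        rintro ⟨a, b, -⟩
        exact hq ⟨a, b⟩
      rw [this]
      exact hφ.1
  set u : X → ℝ := fun x => ⨆ q, w q x with hu
  have mu : Measurable u := Measurable.iSup mw
  have hT := erg.toMeasurePreserving
  -- properties of the points of one fibre
  have good : ∀ᵐ x ∂m, (∀ n : ℕ, S.it n x (φ x) = φ (S.T^[n] x)) ∧ φ x < ψ x := by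
    filter_upwards [hφ.iter S erg, hlt] with x a b using ⟨a, b⟩
  have P0 : ∀ x, ((∀ n : ℕ, S.it n x (φ x) = φ (S.T^[n] x)) ∧ φ x < ψ x) →
      BddAbove (range fun q => w q x) ∧ φ x ≤ u x ∧ u x ≤ ψ x := by
    rintro x ⟨hx1, hx2⟩
    have hle : ∀ q, w q x ≤ ψ x := by
      intro q
      simp only [hw]
      split_ifs with h
      · simp only [hyq]
        have h1 : (q : ℝ) ≤ 1 := by exact_mod_cast h.2.1.le
        nlinarith
      · exact hx2.le
    have hb : BddAbove (range fun q => w q x) := ⟨ψ x, by rintro _ ⟨q, rfl⟩; exact hle q⟩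
    refine ⟨hb, ?_, ciSup_le hle⟩
    have h1 : w 2 x ≤ u x := le_ciSup hb 2
    have h2 : w 2 x = φ x := by
      simp only [hw]
      rw [if_neg]
      rintro ⟨-, h, -⟩
      norm_num at h
    rwa [h2] at h1
  have P2 : ∀ x, ((∀ n : ℕ, S.it n x (φ x) = φ (S.T^[n] x)) ∧ φ x < ψ x) →
      ∀ y, φ x ≤ y → y < u x → S.Cv φ x y := by
    rintro x hx y hy1 hy2
    obtain ⟨q, hq⟩ := exists_lt_of_lt_ciSup hy2
    simp only [hw] at hq
    split_ifs at hq with h
    · exact S.cv_between hx.1 h.2.2 hy1 hq.le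
    · linarith
  have P3 : ∀ x, ((∀ n : ℕ, S.it n x (φ x) = φ (S.T^[n] x)) ∧ φ x < ψ x) →
      ∀ y, φ x < y → y < ψ x → S.Cv φ x y → y ≤ u x := by
    rintro x hx y hy1 hy2 hy3
    by_contra hcon
    rw [not_le] at hcon
    have hp : 0 < ψ x - φ x := sub_pos.2 hx.2
    obtain ⟨hb, hu1, hu2⟩ := P0 x hx
    obtain ⟨q, hq1, hq2⟩ := exists_rat_btwn
      (show (u x - φ x) / (ψ x - φ x) < (y - φ x) / (ψ x - φ x) from
        div_lt_div_of_pos_right (by linarith) hp)
    rw [div_lt_iff₀ hp] at hq1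
    rw [lt_div_iff₀ hp] at hq2
    have a1 : u x < yq q x := by simp only [hyq]; linarith
    have a2 : yq q x < y := by simp only [hyq]; linarith
    have q0 : (0 : ℝ) ≤ q := by
      by_contra hneg
      have : (q : ℝ) * (ψ x - φ x) ≤ 0 := mul_nonpos_of_nonpos_of_nonneg (not_le.1 hneg).le hp.le
      linarith
    have q1 : (q : ℝ) < 1 := by
      by_contra hge
      have : ψ x - φ x ≤ (q : ℝ) * (ψ x - φ x) := by nlinarith [not_lt.1 hge]
      linarith
    have hcv : S.Cv φ x (yq q x) := S.cv_between hx.1 hy3 (by linarith) a2.le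
    have h1 : w q x ≤ u x := le_ciSup hb q
    have h2 : w q x = yq q x := by
      simp only [hw]
      rw [if_pos ⟨by exact_mod_cast q0, by exact_mod_cast q1, hcv⟩]
    rw [h2] at h1
    linarith
  have goodT : ∀ᵐ x ∂m, (∀ n : ℕ, S.it n (S.T x) (φ (S.T x)) = φ (S.T^[n] (S.T x))) ∧
      φ (S.T x) < ψ (S.T x) := hT.quasiMeasurePreserving.ae good
  have hgu : S.Gr m u := by
    refine ⟨mu, ?_⟩
    filter_upwards [good, goodT, hφ.2, hψ.2] with x hx hxT e1 e2
    obtain ⟨-, u1, u2⟩ := P0 x hx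
    obtain ⟨-, v1, v2⟩ := P0 (S.T x) hxT
    by_contra hne
    rcases lt_or_gt_of_ne hne with h | h
    · obtain ⟨z, hz1, hz2⟩ := exists_between h
      have hz3 : φ (S.T x) ≤ z := by
        rw [← e1]
        exact ((S.strict x).monotone u1).trans hz1.le
      have c1 := P2 _ hxT z hz3 hz2
      obtain ⟨y, rfl⟩ := S.surj x z
      rw [S.cv_succ] at c1
      have hy1 : u x < y := (S.strict x).lt_iff_lt.1 hz1
      have hy2 : y < ψ x := by
        refine (S.strict x).lt_iff_lt.1 ?_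
        rw [e2]
        exact hz2.trans_le v2
      have := P3 x hx y (u1.trans_lt hy1) hy2 c1
      linarith
    · obtain ⟨z, hz1, hz2⟩ := exists_between h
      obtain ⟨y, rfl⟩ := S.surj x z
      have hy1 : y < u x := (S.strict x).lt_iff_lt.1 hz2
      have hy0 : φ x < y := by
        refine (S.strict x).lt_iff_lt.1 ?_
        rw [e1]
        exact v1.trans_lt hz1
      have c1 := P2 x hx y hy0.le hy1
      have c2 : S.Cv φ (S.T x) (S.F x y) := S.cv_succ.2 c1
      have h3 := P3 _ hxT (S.F x y) (v1.trans_lt hz1)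
        (by rw [← e2]; exact S.strict x (hy1.trans_le u2)) c2
      linarith
  have hgt : ∀ᵐ x ∂m, φ x < u x := by
    filter_upwards [good, S.local_att erg hφ hneg] with x hx hloc
    obtain ⟨δ, hδ, h⟩ := hloc
    set y := min (φ x + δ / 2) ((φ x + ψ x) / 2) with hy
    have hy1 : φ x < y := lt_min (by linarith) (by linarith [hx.2])
    have hy2 : y < ψ x := (min_le_right _ _).trans_lt (by linarith [hx.2])
    have hy3 : y ≤ φ x + δ / 2 := min_le_left _ _
    have := P3 x hx y hy1 hy2 (h y (by rw [abs_of_pos (sub_pos.2 hy1)]; linarith))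
    linarith
  rcases S.tri erg hgu hψ with h | h | h
  · exact (hgap u hgu hgt h).elim
  · filter_upwards [good, h] with x hx e y hy1 hy2
    exact P2 x hx y hy1.le (by rw [e]; exact hy2)
  · exfalso
    obtain ⟨x, hx1, hx2⟩ := (good.and h).exists
    have := (P0 x hx1).2.2
    linarith

/-- The same from below. -/
theorem capture' [IsProbabilityMeasure m] (erg : Ergodic S.T m) {φ ψ : X → ℝ} (hφ : S.Gr m φ)
    (hψ : S.Gr m ψ) (hlt : ∀ᵐ x ∂m, φ x < ψ x) (hneg : S.ex m ψ < 0)
    (hgap : ∀ χ, S.Gr m χ → (∀ᵐ x ∂m, φ x < χ x) → (∀ᵐ x ∂m, χ x < ψ x) → False) :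
    ∀ᵐ x ∂m, ∀ y, φ x < y → y < ψ x → S.Cv ψ x y := by
  have h := S.neg.capture (m := m) erg (φ := fun x => - ψ x) (ψ := fun x => - φ x)
    (hψ.neg S) (hφ.neg S) (by filter_upwards [hlt] with x hx; linarith)
    (by rw [S.ex_neg]; exact hneg) (by
      intro χ hχ h1 h2
      have h3 : S.Gr m (fun x => - χ x) := by
        refine ⟨hχ.1.neg, ?_⟩
        filter_upwards [hχ.2] with x hx
        rw [neg_F, neg_T] at hx
        rw [← hx, neg_neg]
      exact hgap _ h3 (by filter_upwards [h2] with x hx; linarith)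
        (by filter_upwards [h1] with x hx; linarith))
  filter_upwards [h] with x hx y hy1 hy2
  have h1 := hx (-y) (by linarith) (by linarith)
  unfold Cv at h1 ⊢
  have h2 := h1.neg
  rw [neg_zero] at h2
  refine h2.congr fun n => ?_
  rw [neg_it, neg_neg, neg_T]
  ring

/-- Two consecutive graphs cannot both have a negative exponent. -/
theorem not_both [IsProbabilityMeasure m] (erg : Ergodic S.T m) {φ ψ : X → ℝ} (hφ : S.Gr m φ)
    (hψ : S.Gr m ψ) (hlt : ∀ᵐ x ∂m, φ x < ψ x) (h1 : S.ex m φ < 0) (h2 : S.ex m ψ < 0)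
    (hgap : ∀ χ, S.Gr m χ → (∀ᵐ x ∂m, φ x < χ x) → (∀ᵐ x ∂m, χ x < ψ x) → False) : False := by
  have a := S.capture erg hφ hψ hlt h1 hgap
  have b := S.capture' erg hφ hψ hlt h2 hgap
  have hcons : Conservative S.T m := erg.toMeasurePreserving.conservative
  have key : ∀ᵐ x ∂m, Tendsto (fun n => ψ (S.T^[n] x) - φ (S.T^[n] x)) atTop (𝓝 0) := by
    filter_upwards [a, b, hlt] with x ha hb hx
    have e1 := ha ((φ x + ψ x) / 2) (by linarith) (by linarith)
    have e2 := hb ((φ x + ψ x) / 2) (by linarith) (by linarith)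
    have e3 := e1.sub e2
    rw [sub_zero] at e3
    refine e3.congr fun n => ?_
    ring
  have h3 : ∀ k : ℕ, ∀ᵐ x ∂m, ¬ (1 / ((k : ℝ) + 1) ≤ ψ x - φ x) := by
    intro k
    have hS : MeasurableSet {x : X | 1 / ((k : ℝ) + 1) ≤ ψ x - φ x} :=
      measurableSet_le measurable_const (hψ.1.sub hφ.1)
    filter_upwards [hcons.ae_mem_imp_frequently_image_mem hS.nullMeasurableSet, key]
      with x hx hz hmem
    have h5 : ∀ᶠ n in atTop, ψ (S.T^[n] x) - φ (S.T^[n] x) < 1 / ((k : ℝ) + 1) :=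
      hz.eventually (gt_mem_nhds (by positivity))
    obtain ⟨n, hn1, hn2⟩ := ((hx hmem).and_eventually h5).exists
    exact absurd hn1 (not_le.2 hn2)
  obtain ⟨x, hx1, hx2⟩ := ((ae_all_iff.2 h3).and hlt).exists
  obtain ⟨k, hk⟩ := exists_nat_one_div_lt (sub_pos.2 hx2)
  exact hx1 k hk.le

end Sys

end Pool.Agent.TH525.PF
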