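import Pool.Agent.TH525.PF.Sys

/-! # Comparison of invariant graphs -/

set_option autoImplicit false

open Set Filter Topology MeasureTheory

namespace Pool.Agent.TH525.PF

namespace Sys

variable {X : Type*} [MeasurableSpace X] (S : Sys X) {m : Measure X} [IsProbabilityMeasure m]

omit [IsProbabilityMeasure m] in
theorem Gr.iter {φ : X → ℝ} (h : S.Gr m φ) (erg : Ergodic S.T m) :
    ∀ᵐ x ∂m, ∀ n : ℕ, S.it n x (φ x) = φ (S.T^[n] x) := by
  have h1 : ∀ᵐ x ∂m, ∀ n : ℕ, S.F (S.T^[n] x) (φ (S.T^[n] x)) = φ (S.T (S.T^[n] x)) := by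
    rw [ae_all_iff]
    intro n
    exact (erg.toMeasurePreserving.quasiMeasurePreserving.iterate n).ae h.2
  filter_upwards [h1] with x hx n
  induction n with
  | zero => rfl
  | succ n ih => rw [it_succ, ih, hx n, Function.iterate_succ_apply']

omit [IsProbabilityMeasure m] in
/-- trichotomy for graphs of the same system -/
theorem tri (erg : Ergodic S.T m) {φ ψ : X → ℝ} (hφ : S.Gr m φ) (hψ : S.Gr m ψ) :
    (∀ᵐ x ∂m, φ x < ψ x) ∨ (∀ᵐ x ∂m, φ x = ψ x) ∨ (∀ᵐ x ∂m, ψ x < φ x) := by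
  have key : ∀ {φ ψ : X → ℝ}, S.Gr m φ → S.Gr m ψ →
      (∀ᵐ x ∂m, φ x < ψ x) ∨ (∀ᵐ x ∂m, ¬ φ x < ψ x) := by
    intro φ ψ hφ hψ
    have mA : MeasurableSet {x | φ x < ψ x} := measurableSet_lt hφ.1 hψ.1
    have h1 : S.T ⁻¹' {x | φ x < ψ x} =ᵐ[m] {x | φ x < ψ x} := by
      filter_upwards [hφ.2, hψ.2] with x h1 h2
      apply propext
      show φ (S.T x) < ψ (S.T x) ↔ φ x < ψ x
      rw [← h1, ← h2]
      exact (S.strict x).lt_iff_lt
    rcases erg.quasiErgodic.ae_empty_or_univ₀ mA.nullMeasurableSet h1 with h | h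
    · right
      exact measure_eq_zero_iff_ae_notMem.1 (ae_eq_empty.1 h)
    · left
      have := ae_eq_univ.1 h
      rwa [ae_iff]
  rcases key hφ hψ with h | h
  · exact Or.inl h
  · rcases key hψ hφ with h' | h'
    · exact Or.inr (Or.inr h')
    · right; left
      filter_upwards [h, h'] with x h1 h2
      exact le_antisymm (not_lt.1 h2) (not_lt.1 h1)

/-- dichotomy for graphs at different parameters -/
theorem tri2 (erg : Ergodic S.T m) {s s' : ℝ} (hs : s < s') {φ ψ : X → ℝ}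
    (hφ : (S.add s).Gr m φ) (hψ : (S.add s').Gr m ψ) :
    (∀ᵐ x ∂m, φ x < ψ x) ∨ (∀ᵐ x ∂m, ψ x < φ x) := by
  have mA : MeasurableSet {x | φ x ≤ ψ x} := measurableSet_le hφ.1 hψ.1
  have h1 : ∀ᵐ x ∂m, φ x ≤ ψ x → φ (S.T x) < ψ (S.T x) := by
    filter_upwards [hφ.2, hψ.2] with x h1 h2 h3
    simp only [add_F, add_T] at h1 h2
    have := (S.strict x).monotone h3
    linarith
  have h2 : {x | φ x ≤ ψ x} ≤ᵐ[m] S.T ⁻¹' {x | φ x ≤ ψ x} := by
    filter_upwards [h1] with x h h'
    exact (h h').le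
  rcases erg.ae_empty_or_univ_of_ae_le_preimage mA.nullMeasurableSet h2 with h | h
  · right
    have := measure_eq_zero_iff_ae_notMem.1 (ae_eq_empty.1 h)
    filter_upwards [this] with x hx
    exact not_le.1 hx
  · left
    have h3 : ∀ᵐ x ∂m, φ x ≤ ψ x := by
      have := ae_eq_univ.1 h
      rwa [ae_iff]
    have h4 : ∀ᵐ x ∂m, φ (S.T x) < ψ (S.T x) := by
      filter_upwards [h1, h3] with x a b using a b
    have h5 : ∀ᵐ x ∂(m.map S.T), φ x < ψ x := by
      rw [ae_map_iff S.T.measurable.aemeasurable (measurableSet_lt hφ.1 hψ.1)]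
      exact h4
    rwa [erg.toMeasurePreserving.map_eq] at h5

/-- a strictly monotone bounded functional -/
noncomputable def ef (m : Measure X) (φ : X → ℝ) : ℝ := ∫ x, Real.arctan (φ x) ∂m

theorem int_arctan {φ : X → ℝ} (h : Measurable φ) : Integrable (fun x => Real.arctan (φ x)) m := by
  refine Integrable.of_bound (Real.measurable_arctan.comp h).aestronglyMeasurable (Real.pi / 2)
    (Eventually.of_forall fun x => ?_)
  rw [Real.norm_eq_abs, abs_le]
  exact ⟨(Real.neg_pi_div_two_lt_arctan _).le, (Real.arctan_lt_pi_div_two _).le⟩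

theorem ef_lt {φ ψ : X → ℝ} (mφ : Measurable φ) (mψ : Measurable ψ)
    (h : ∀ᵐ x ∂m, φ x < ψ x) : ef m φ < ef m ψ := by
  unfold ef
  rw [← sub_pos, ← integral_sub (int_arctan mψ) (int_arctan mφ)]
  rw [integral_pos_iff_support_of_nonneg_ae]
  · have h1 : ∀ᵐ x ∂m, x ∈ Function.support fun x => Real.arctan (ψ x) - Real.arctan (φ x) := by
      filter_upwards [h] with x hx
      have := Real.arctan_strictMono hx
      simp only [Function.mem_support]
      exact (sub_pos.2 this).ne'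
    rw [pos_iff_ne_zero]
    intro h0
    have h2 : ∀ᵐ x ∂m, x ∉ Function.support fun x => Real.arctan (ψ x) - Real.arctan (φ x) :=
      measure_eq_zero_iff_ae_notMem.1 h0
    obtain ⟨x, hx1, hx2⟩ := (h1.and h2).exists
    exact hx2 hx1
  · filter_upwards [h] with x hx
    have := Real.arctan_strictMono hx
    simp only [Pi.zero_apply]
    linarith
  · exact (int_arctan mψ).sub (int_arctan mφ)

end Sys

end Pool.Agent.TH525.PF
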