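import Mathlib

/-! # Coboundaries over a measure preserving map -/

set_option autoImplicit false

open Set Filter Topology MeasureTheory

namespace Pool.Agent.TH525.PF

variable {X : Type*} [MeasurableSpace X] {m : Measure X} [IsProbabilityMeasure m]

/-- truncation at height `n` -/
noncomputable def clp (n : ℕ) (v : ℝ) : ℝ := max (-(n : ℝ)) (min v n)

theorem clp_mono (n : ℕ) : Monotone (clp n) := fun _ _ h => max_le_max le_rfl (min_le_min h le_rfl)

theorem clp_lip (n : ℕ) (u v : ℝ) : |clp n u - clp n v| ≤ |u - v| := by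
  unfold clp
  refine (abs_max_sub_max_le_max _ _ _ _).trans ?_
  rw [sub_self, abs_zero, max_eq_right (abs_nonneg _)]
  refine (abs_min_sub_min_le_max _ _ _ _).trans ?_
  rw [sub_self, abs_zero, max_eq_left (abs_nonneg _)]

theorem clp_abs (n : ℕ) (v : ℝ) : |clp n v| ≤ n := by
  have h : (0 : ℝ) ≤ n := Nat.cast_nonneg n
  unfold clp
  rw [abs_le]
  exact ⟨le_max_left _ _, max_le (by linarith) (min_le_right _ _)⟩

theorem clp_meas (n : ℕ) : Measurable (clp n) :=
  measurable_const.max (measurable_id.min measurable_const)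

theorem clp_eq {n : ℕ} {v : ℝ} (h : |v| ≤ n) : clp n v = v := by
  rw [abs_le] at h
  unfold clp
  rw [min_eq_left h.2, max_eq_right h.1]

/-- If `h ≤ g ∘ T - g` then `∫ h ≤ 0`. -/
theorem int_le_zero {T : X → X} (hT : MeasurePreserving T m m) {g h : X → ℝ} (mg : Measurable g)
    (ih : Integrable h m) (H : ∀ᵐ x ∂m, h x ≤ g (T x) - g x) : ∫ x, h x ∂m ≤ 0 := by
  have key : ∀ n : ℕ, ∫ x, (clp n (g x + h x) - clp n (g x)) ∂m ≤ 0 := by
    intro n
    have i1 : Integrable (fun x => clp n (g x)) m :=
      Integrable.of_bound ((clp_meas n).comp mg).aestronglyMeasurable n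
        (Eventually.of_forall fun x => by rw [Real.norm_eq_abs]; exact clp_abs n _)
    have i2 : Integrable (fun x => clp n (g (T x))) m := hT.integrable_comp_of_integrable i1
    have i3 : Integrable (fun x => clp n (g x + h x)) m :=
      Integrable.of_bound ((clp_meas n).comp_aemeasurable
        (mg.aemeasurable.add ih.1.aemeasurable)).aestronglyMeasurable n
        (Eventually.of_forall fun x => by rw [Real.norm_eq_abs]; exact clp_abs n _)
    have h1 : ∫ x, clp n (g (T x)) ∂m = ∫ x, clp n (g x) ∂m := by
      have := hT.map_eq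
      calc ∫ x, clp n (g (T x)) ∂m = ∫ x, clp n (g x) ∂(m.map T) :=
            (integral_map hT.measurable.aemeasurable
              ((clp_meas n).comp mg).aestronglyMeasurable).symm
        _ = _ := by rw [this]
    have h2 : ∫ x, (clp n (g x + h x) - clp n (g x)) ∂m ≤ ∫ x, (clp n (g (T x)) - clp n (g x)) ∂m := by
      refine integral_mono_ae (i3.sub i1) (i2.sub i1) ?_
      filter_upwards [H] with x hx
      have := clp_mono n (show g x + h x ≤ g (T x) by linarith)
      linarith
    rw [integral_sub i2 i1, h1, sub_self] at h2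
    exact h2
  have lim : Tendsto (fun n : ℕ => ∫ x, (clp n (g x + h x) - clp n (g x)) ∂m) atTop
      (𝓝 (∫ x, h x ∂m)) := by
    refine tendsto_integral_of_dominated_convergence (fun x => |h x|) ?_ ih.abs ?_ ?_
    · intro n
      exact (((clp_meas n).comp_aemeasurable (mg.aemeasurable.add ih.1.aemeasurable)).sub
        ((clp_meas n).comp mg).aemeasurable).aestronglyMeasurable
    · intro n
      refine Eventually.of_forall fun x => ?_
      rw [Real.norm_eq_abs]
      refine (clp_lip n _ _).trans ?_
      simp
    · refine Eventually.of_forall fun x => ?_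
      obtain ⟨N, hN⟩ := exists_nat_ge (|g x| + |h x|)
      refine tendsto_const_nhds.congr' ?_
      filter_upwards [eventually_ge_atTop N] with n hn
      have hn' : (N : ℝ) ≤ n := by exact_mod_cast hn
      have a1 : |g x + h x| ≤ n := (abs_add_le _ _).trans (hN.trans hn')
      have a2 : |g x| ≤ n := by linarith [abs_nonneg (h x)]
      rw [clp_eq a1, clp_eq a2]
      ring
  exact le_of_tendsto' lim key

/-- If `g ∘ T - g ≤ h` then `0 ≤ ∫ h`. -/
theorem zero_le_int {T : X → X} (hT : MeasurePreserving T m m) {g h : X → ℝ} (mg : Measurable g)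
    (ih : Integrable h m) (H : ∀ᵐ x ∂m, g (T x) - g x ≤ h x) : 0 ≤ ∫ x, h x ∂m := by
  have := int_le_zero hT (g := fun x => - g x) (h := fun x => - h x) mg.neg ih.neg
    (by filter_upwards [H] with x hx; linarith)
  rw [integral_neg] at this
  linarith

/-- If `g ∘ T - g = h` then `∫ h = 0`. -/
theorem int_eq_zero {T : X → X} (hT : MeasurePreserving T m m) {g h : X → ℝ} (mg : Measurable g)
    (ih : Integrable h m) (H : ∀ᵐ x ∂m, g (T x) - g x = h x) : ∫ x, h x ∂m = 0 :=
  le_antisymm (int_le_zero hT mg ih (by filter_upwards [H] with x hx; exact hx.ge))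
    (zero_le_int hT mg ih (by filter_upwards [H] with x hx; exact hx.le))

end Pool.Agent.TH525.PF
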