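import Pool.Agent.TH525.PF.Cap

/-! # The dynamics of a system without neutral graphs -/

set_option autoImplicit false

open Set Filter Topology MeasureTheory

namespace Pool.Agent.TH525.PF

namespace Sys

variable {X : Type*} [MeasurableSpace X] (S : Sys X) {m : Measure X}

theorem Gr.inv (erg : Ergodic S.T m) {φ : X → ℝ} (h : S.Gr m φ) : S.inv.Gr m φ := by
  refine ⟨h.1, ?_⟩
  have h1 : ∀ᵐ x ∂m, S.F (S.T.symm x) (φ (S.T.symm x)) = φ (S.T (S.T.symm x)) :=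
    erg.toMeasurePreserving.symm.quasiMeasurePreserving.ae h.2
  filter_upwards [h1] with x hx
  rw [inv_F, inv_T]
  rw [S.T.apply_symm_apply] at hx
  rw [← hx, S.symm_F]

theorem Gr.of_inv (erg : Ergodic S.T m) {φ : X → ℝ} (h : S.inv.Gr m φ) : S.Gr m φ := by
  refine ⟨h.1, ?_⟩
  have h1 : ∀ᵐ x ∂m, S.inv.F (S.T x) (φ (S.T x)) = φ (S.inv.T (S.T x)) :=
    erg.toMeasurePreserving.quasiMeasurePreserving.ae h.2
  filter_upwards [h1] with x hx
  rw [inv_F, inv_T, S.T.symm_apply_apply] at hx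
  rw [← hx, S.F_symm]

theorem ex_inv (erg : Ergodic S.T m) {φ : X → ℝ} (h : S.Gr m φ) : S.inv.ex m φ = - S.ex m φ := by
  unfold ex
  have h1 : ∀ᵐ x ∂m, S.inv.F x (φ x) = φ (S.inv.T x) := (h.inv S erg).2
  have e1 : ∫ x, Real.log (S.inv.G x (φ x)) ∂m =
      ∫ x, - Real.log (S.G (S.T.symm x) (φ (S.T.symm x))) ∂m := by
    refine integral_congr_ae ?_
    filter_upwards [h1] with x hx
    rw [inv_F, inv_T] at hx
    rw [inv_G, Real.log_inv, hx]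
  rw [e1, integral_neg]
  congr 1
  exact (erg.symm.toMeasurePreserving).integral_comp S.T.symm.measurableEmbedding
    (fun x => Real.log (S.G x (φ x)))

/-- between two consecutive graphs everything is attracted to one of them -/
theorem strip [IsProbabilityMeasure m] (erg : Ergodic S.T m) {φ ψ : X → ℝ} (hφ : S.Gr m φ)
    (hψ : S.Gr m ψ) (hlt : ∀ᵐ x ∂m, φ x < ψ x) (h1 : S.ex m φ ≠ 0) (h2 : S.ex m ψ ≠ 0)
    (hgap : ∀ χ, S.Gr m χ → (∀ᵐ x ∂m, φ x < χ x) → (∀ᵐ x ∂m, χ x < ψ x) → False) :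
    (S.ex m φ < 0 ∧ ∀ᵐ x ∂m, ∀ y, φ x < y → y < ψ x → S.Cv φ x y) ∨
    (S.ex m ψ < 0 ∧ ∀ᵐ x ∂m, ∀ y, φ x < y → y < ψ x → S.Cv ψ x y) := by
  rcases lt_or_gt_of_ne h1 with h | h
  · exact Or.inl ⟨h, S.capture erg hφ hψ hlt h hgap⟩
  · rcases lt_or_gt_of_ne h2 with h' | h'
    · exact Or.inr ⟨h', S.capture' erg hφ hψ hlt h' hgap⟩
    · exfalso
      refine S.inv.not_both (m := m) erg.symm (hφ.inv S erg) (hψ.inv S erg) hlt ?_ ?_ ?_
      · rw [S.ex_inv erg hφ]; linarith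
      · rw [S.ex_inv erg hψ]; linarith
      · intro χ hχ a b
        exact hgap χ (hχ.of_inv S erg) a b

/-- The dynamics of a system without neutral graphs: finitely many graphs of negative exponent
attract everything except the points of finitely many graphs. -/
theorem dyn [IsProbabilityMeasure m] (erg : Ergodic S.T m) (per : ∀ x y, S.F x (y + 1) = S.F x y + 1)
    (hno : ∀ φ, S.Gr m φ → S.ex m φ ≠ 0) {α : X → ℝ} (hα : S.Gr m α) :
    ∃ A : Finset (X → ℝ), (∀ φ ∈ A, S.Gr m φ) ∧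
      ∀ᵐ x ∂m, ∀ y, α x ≤ y → y < α x + 1 →
        (∃ ψ ∈ A, S.ex m ψ < 0 ∧ S.Cv ψ x y) ∨ ∃ ψ ∈ A, y = ψ x := by
  classical
  obtain ⟨A, hA1, hA2⟩ := S.exists_reps erg hno α (fun x => α x + 1)
  refine ⟨A, fun φ hφ => (hA1 φ hφ).1, ?_⟩
  have hα' : S.Gr m (fun x => α x + 1) := by
    refine ⟨hα.1.add_const 1, ?_⟩
    filter_upwards [hα.2] with x hx
    rw [per, hx]
  obtain ⟨β, hβ, eβ⟩ := hA2 α hα (Eventually.of_forall fun x => ⟨le_rfl, by linarith⟩)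
  obtain ⟨γ, hγ, eγ⟩ := hA2 _ hα' (Eventually.of_forall fun x => ⟨by linarith, le_rfl⟩)
  -- the order at almost every point is the order almost everywhere
  have Q : ∀ᵐ x ∂m, ∀ φ ∈ A, ∀ ψ ∈ A, φ x < ψ x → ∀ᵐ z ∂m, φ z < ψ z := by
    refine (Filter.eventually_all_finset A).2 fun φ hφ => ?_
    refine (Filter.eventually_all_finset A).2 fun ψ hψ => ?_
    rcases S.tri erg (hA1 φ hφ).1 (hA1 ψ hψ).1 with h | h | h
    · exact Eventually.of_forall fun x _ => h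
    · filter_upwards [h] with x hx hlt
      exact absurd hx hlt.ne
    · filter_upwards [h] with x hx hlt
      exact absurd hx (not_lt.2 hlt.le)
  have Q' : ∀ᵐ x ∂m, ∀ φ ∈ A, ∀ ψ ∈ A, (∀ᵐ z ∂m, φ z < ψ z) → φ x < ψ x := by
    refine (Filter.eventually_all_finset A).2 fun φ hφ => ?_
    refine (Filter.eventually_all_finset A).2 fun ψ hψ => ?_
    by_cases h : ∀ᵐ z ∂m, φ z < ψ z
    · filter_upwards [h] with x hx _ using hx
    · exact Eventually.of_forall fun x hx => absurd hx h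
  have R : ∀ᵐ x ∂m, ∀ φ ∈ A, ∀ ψ ∈ A, (∀ᵐ z ∂m, φ z < ψ z) →
      (∀ χ, S.Gr m χ → (∀ᵐ x ∂m, φ x < χ x) → (∀ᵐ x ∂m, χ x < ψ x) → False) →
      ∀ y, φ x < y → y < ψ x → ∃ ψ ∈ A, S.ex m ψ < 0 ∧ S.Cv ψ x y := by
    refine (Filter.eventually_all_finset A).2 fun φ hφ => ?_
    refine (Filter.eventually_all_finset A).2 fun ψ hψ => ?_
    by_cases h : ∀ᵐ z ∂m, φ z < ψ z
    · by_cases h' : ∀ χ, S.Gr m χ → (∀ᵐ x ∂m, φ x < χ x) → (∀ᵐ x ∂m, χ x < ψ x) → False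
      · rcases S.strip erg (hA1 φ hφ).1 (hA1 ψ hψ).1 h (hno _ (hA1 φ hφ).1) (hno _ (hA1 ψ hψ).1) h'
          with ⟨a, b⟩ | ⟨a, b⟩
        · filter_upwards [b] with x hx _ _ y h1 h2
          exact ⟨φ, hφ, a, hx y h1 h2⟩
        · filter_upwards [b] with x hx _ _ y h1 h2
          exact ⟨ψ, hψ, a, hx y h1 h2⟩
      · exact Eventually.of_forall fun x _ hx => absurd hx h'
    · exact Eventually.of_forall fun x hx => absurd hx h
  filter_upwards [Q, Q', R, eβ, eγ] with x hQ hQ' hR hβx hγx y hy1 hy2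
  have n1 : (A.filter fun φ => φ x ≤ y).Nonempty :=
    ⟨β, Finset.mem_filter.2 ⟨hβ, by rw [← hβx]; exact hy1⟩⟩
  have n2 : (A.filter fun φ => y < φ x).Nonempty :=
    ⟨γ, Finset.mem_filter.2 ⟨hγ, by rw [← hγx]; exact hy2⟩⟩
  obtain ⟨φ, hφ, hφmax⟩ := Finset.exists_max_image _ (fun φ : X → ℝ => φ x) n1
  obtain ⟨ψ, hψ, hψmin⟩ := Finset.exists_min_image _ (fun φ : X → ℝ => φ x) n2
  rw [Finset.mem_filter] at hφ hψ
  rcases hφ.2.eq_or_lt with h | h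
  · exact Or.inr ⟨φ, hφ.1, h.symm⟩
  · left
    have hlt := hQ φ hφ.1 ψ hψ.1 (h.trans hψ.2)
    refine hR φ hφ.1 ψ hψ.1 hlt ?_ y h hψ.2
    intro χ hχ c1 c2
    obtain ⟨χ', hχ', e⟩ := hA2 χ hχ (by
      filter_upwards [c1, c2, (hA1 φ hφ.1).2, (hA1 ψ hψ.1).2] with z a b c d
      exact ⟨c.1.trans a.le, b.le.trans d.2⟩)
    have d1 := hQ' φ hφ.1 χ' hχ' (by filter_upwards [c1, e] with z a b; rwa [← b])
    have d2 := hQ' χ' hχ' ψ hψ.1 (by filter_upwards [c2, e] with z a b; rwa [← b])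
    rcases le_or_gt (χ' x) y with h3 | h3
    · exact absurd (hφmax χ' (Finset.mem_filter.2 ⟨hχ', h3⟩)) (not_le.2 d1)
    · exact absurd (hψmin χ' (Finset.mem_filter.2 ⟨hχ', h3⟩)) (not_le.2 d2)

end Sys

end Pool.Agent.TH525.PF
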