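import Pool.Agent.TH525.PF.Top

/-! # Attractors of circle skew products carried by graphs over an extended base -/

set_option autoImplicit false

open Set Filter Topology MeasureTheory

namespace Pool.Agent.TH525.PF

open Pool.Agent.H728R2.OS Pool.Agent.H728R2.FA

theorem omega_closed {X : Type*} [TopologicalSpace X] (f : X → X) (p : X) :
    IsClosed (omegaLim f p) := by
  rw [← closure_subset_iff_isClosed]
  intro q hq V hV N
  obtain ⟨W, hWV, hWo, hqW⟩ := mem_nhds_iff.1 hV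
  obtain ⟨q', h1, h2⟩ := mem_closure_iff.1 hq W hWo hqW
  obtain ⟨n, hn, hnW⟩ := h2 W (hWo.mem_nhds h1) N
  exact ⟨n, hn, hWV hnW⟩

theorem omega_sub_of {X : Type*} [PseudoMetricSpace X] (f : X → X) (p : X) {Λ : Set X}
    (hcl : IsClosed Λ) (hne : Λ.Nonempty)
    (h : Tendsto (fun n => Metric.infDist (f^[n] p) Λ) atTop (𝓝 0)) : omegaLim f p ⊆ Λ := by
  intro q hq
  rw [hcl.mem_iff_infDist_zero hne]
  by_contra hne0
  have hpos : 0 < Metric.infDist q Λ := lt_of_le_of_ne Metric.infDist_nonneg (Ne.symm hne0)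
  obtain ⟨N, hN⟩ := (Metric.tendsto_atTop.1 h) (Metric.infDist q Λ / 2) (half_pos hpos)
  obtain ⟨n, hn, hnb⟩ := hq (Metric.ball q (Metric.infDist q Λ / 2))
    (Metric.ball_mem_nhds q (half_pos hpos)) N
  have h1 := hN n hn
  rw [Real.dist_eq, sub_zero, abs_of_nonneg Metric.infDist_nonneg] at h1
  have h2 : dist (f^[n] p) q < Metric.infDist q Λ / 2 := hnb
  have h3 := Metric.infDist_le_infDist_add_dist (s := Λ) (x := q) (y := f^[n] p)
  rw [dist_comm] at h3
  linarith

section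

variable {Y : Type*} [MeasurableSpace Y] {ν : Measure Y} [IsProbabilityMeasure ν]

/-- The closed set to which almost all points of a factor converge. -/
theorem factor_attractor {Z : Type*} [MetricSpace Z] [CompactSpace Z] [MeasurableSpace Z]
    [BorelSpace Z] {τ : Y → Y} (erg : Ergodic τ ν) (f : Z ≃ₜ Z)
    (g : Y → Z) (mg : Measurable g)
    (hstep : ∀ᵐ x ∂ν, ∀ n : ℕ, f^[n] (g x) = g (τ^[n] x)) :
    ∃ Λ : Set Z, IsClosed Λ ∧ f '' Λ = Λ ∧
      (∃ x ∈ Λ, Λ ⊆ closure (range fun n : ℕ => f^[n] x)) ∧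
      (∀ᵐ x ∂ν, omegaLim f (g x) = Λ) ∧ ∀ᵐ x ∂ν, g x ∈ Λ := by
  classical
  have hcons : Conservative τ ν := erg.toMeasurePreserving.conservative
  set 𝓑 := TopologicalSpace.countableBasis Z with h𝓑
  have hBc : 𝓑.Countable := TopologicalSpace.countable_countableBasis _
  have hBb : TopologicalSpace.IsTopologicalBasis 𝓑 := TopologicalSpace.isBasis_countableBasis _
  let A : Set Z → Set Y := fun W => {x | ∃ᶠ n in atTop, g (τ^[n] x) ∈ W}
  have hA : ∀ W ∈ 𝓑, (A W =ᵐ[ν] (∅ : Set Y) ∨ A W =ᵐ[ν] (univ : Set Y)) := by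
    intro W hW
    have hWo : IsOpen W := hBb.isOpen hW
    apply erg.toPreErgodic.ae_empty_or_univ
    · have : A W = limsup (fun n => {x | g (τ^[n] x) ∈ W}) atTop := by
        ext x
        simp only [A, mem_ofPred_eq, mem_limsup_iff_frequently_mem]
      rw [this]
      refine MeasurableSet.measurableSet_limsup fun n => ?_
      exact (mg.comp (erg.measurable.iterate n)) hWo.measurableSet
    · ext x
      simp only [A, mem_preimage, mem_ofPred_eq]
      have h1 : ∀ n : ℕ, τ^[n] (τ x) = τ^[n + 1] x := fun n => (Function.iterate_succ_apply τ n x).symm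
      simp only [h1]
      constructor
      · intro h
        rw [frequently_atTop] at h ⊢
        intro a
        obtain ⟨b, hb, hb2⟩ := h a
        exact ⟨b + 1, by omega, hb2⟩
      · intro h
        rw [frequently_atTop] at h ⊢
        intro a
        obtain ⟨b, hb, hb2⟩ := h (a + 1)
        obtain ⟨k, rfl⟩ : ∃ k, b = k + 1 := ⟨b - 1, by omega⟩
        exact ⟨k, by omega, hb2⟩
  let Λ : Set Z := {q | ∀ W ∈ 𝓑, q ∈ W → A W =ᵐ[ν] (univ : Set Y)}
  have hgen : ∀ᵐ x ∂ν, ∀ W ∈ 𝓑, (x ∈ A W ↔ A W =ᵐ[ν] (univ : Set Y)) := by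
    rw [ae_ball_iff hBc]
    intro W hW
    by_cases hu : A W =ᵐ[ν] (univ : Set Y)
    · have h1 : ∀ᵐ x ∂ν, x ∈ A W := by
        have := ae_eq_univ.1 hu
        rwa [ae_iff]
      filter_upwards [h1] with x hx
      exact iff_of_true hx hu
    · rcases hA W hW with h | h
      · have h1 : ∀ᵐ x ∂ν, x ∉ A W := measure_eq_zero_iff_ae_notMem.1 (ae_eq_empty.1 h)
        filter_upwards [h1] with x hx
        exact iff_of_false hx hu
      · exact absurd h hu
  have hO : ∀ᵐ x ∂ν, omegaLim f (g x) = Λ := by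
    filter_upwards [hgen, hstep] with x h1 h2
    ext q
    constructor
    · intro hq W hW hqW
      rw [← h1 W hW]
      show ∃ᶠ n in atTop, g (τ^[n] x) ∈ W
      rw [frequently_atTop]
      intro N
      obtain ⟨n, hn, hnW⟩ := hq W ((hBb.isOpen hW).mem_nhds hqW) N
      rw [h2 n] at hnW
      exact ⟨n, hn, hnW⟩
    · intro hq V hV N
      obtain ⟨W, hW, hqW, hWV⟩ := hBb.mem_nhds_iff.1 hV
      have h3 : x ∈ A W := (h1 W hW).2 (hq W hW hqW)
      have h4 : ∃ᶠ n in atTop, g (τ^[n] x) ∈ W := h3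
      rw [frequently_atTop] at h4
      obtain ⟨n, hn, hnW⟩ := h4 N
      refine ⟨n, hn, hWV ?_⟩
      rw [h2 n]
      exact hnW
  have hrec : ∀ᵐ x ∂ν, g x ∈ omegaLim f (g x) := by
    have h1 : ∀ᵐ x ∂ν, ∀ W ∈ 𝓑, g x ∈ W → ∃ᶠ n in atTop, g (τ^[n] x) ∈ W := by
      rw [ae_ball_iff hBc]
      intro W hW
      have hS : MeasurableSet {x : Y | g x ∈ W} := mg (hBb.isOpen hW).measurableSet
      exact hcons.ae_mem_imp_frequently_image_mem hS.nullMeasurableSet
    filter_upwards [h1, hstep] with x h1 h2 V hV N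
    obtain ⟨W, hW, hqW, hWV⟩ := hBb.mem_nhds_iff.1 hV
    obtain ⟨n, hn, hnW⟩ := (frequently_atTop.1 (h1 W hW hqW)) N
    refine ⟨n, hn, hWV ?_⟩
    rw [h2 n]
    exact hnW
  have hmem : ∀ᵐ x ∂ν, g x ∈ Λ := by
    filter_upwards [hO, hrec] with x h1 h2
    rwa [h1] at h2
  obtain ⟨x0, hx1, hx2⟩ := (hO.and hrec).exists
  refine ⟨Λ, ?_, ?_, ⟨g x0, ?_, ?_⟩, hO, hmem⟩
  · rw [← hx1]; exact omega_closed f _
  · rw [← hx1]; exact omega_image f _
  · rwa [hx1] at hx2
  · rw [← hx1]
    intro q hq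
    rw [mem_closure_iff_nhds]
    intro V hV
    obtain ⟨n, _, hn⟩ := hq V hV 0
    exact ⟨f^[n] (g x0), hn, n, rfl⟩

variable {B : Type*} [MetricSpace B] [CompactSpace B] [MeasurableSpace B] [BorelSpace B]
  {m : Measure B} [IsProbabilityMeasure m]

omit [IsProbabilityMeasure m] in
/-- **Finitely many attractors**, with an extended base. -/
theorem finiteAttractors_factor (S : Sys Y) (erg : Ergodic S.T ν) (π : Y → B) (mπ : Measurable π)
    (hπ : ν.map π = m) (T : B → B) (hT : ∀ z, π (S.T z) = T (π z))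
    (f : (B × Circ) ≃ₜ (B × Circ))
    (hf : ∀ (z : Y) (y : ℝ),
      f (π z, (y : UnitAddCircle)) = (T (π z), (S.F z y : UnitAddCircle)))
    (per : ∀ x y, S.F x (y + 1) = S.F x y + 1)
    (hno : ∀ φ, S.Gr ν φ → S.ex ν φ ≠ 0) {α : Y → ℝ} (hα : S.Gr ν α)
    (μ : Measure (B × Circ)) (hμ : μ ≪ m.prod volume) (hμ' : m.prod volume ≪ μ) :
    FiniteAttractors μ f := by
  classical
  obtain ⟨A, hA, hdyn⟩ := S.dyn erg per hno hα
  have mcoe : Measurable (fun t : ℝ => (t : UnitAddCircle)) := (AddCircle.continuous_mk' 1).measurable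
  -- asymptotic orbits
  have hfst : ∀ (n : ℕ) (z : Y) (y : ℝ),
      f^[n] (π z, (y : UnitAddCircle)) = (π (S.T^[n] z), (S.it n z y : UnitAddCircle)) := by
    intro n z y
    induction n with
    | zero => rfl
    | succ n ih =>
      rw [Function.iterate_succ_apply', ih, hf, Function.iterate_succ_apply', Sys.it_succ, hT]
  have hstep : ∀ φ, S.Gr ν φ → ∀ᵐ z ∂ν, ∀ n : ℕ,
      f^[n] (π z, (φ z : UnitAddCircle)) = (π (S.T^[n] z), (φ (S.T^[n] z) : UnitAddCircle)) := by
    intro φ hφ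
    filter_upwards [hφ.iter S erg] with x hx n
    rw [hfst, hx n]
  have hdist : ∀ φ, S.Gr ν φ → ∀ᵐ z ∂ν, ∀ y : ℝ, S.Cv φ z y →
      Tendsto (fun n => dist (f^[n] (π z, (y : UnitAddCircle)))
        (f^[n] (π z, (φ z : UnitAddCircle)))) atTop (𝓝 0) := by
    intro φ hφ
    filter_upwards [hstep φ hφ] with x hx y hy
    refine squeeze_zero (fun _ => dist_nonneg) (fun n => ?_)
      (tendsto_norm_zero.comp hy : Tendsto (fun n => ‖S.it n x y - φ (S.T^[n] x)‖) atTop (𝓝 0))
    rw [hx n, hfst, Prod.dist_eq, dist_self, max_eq_right dist_nonneg]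
    exact dist_coe_le _ _
  -- the attractors
  have hatt : ∀ φ : Y → ℝ, ∃ Λ : Set (B × Circ), S.Gr ν φ → (IsClosed Λ ∧ f '' Λ = Λ ∧
      (∃ x ∈ Λ, Λ ⊆ closure (range fun n : ℕ => f^[n] x)) ∧
      (∀ᵐ z ∂ν, omegaLim f (π z, (φ z : UnitAddCircle)) = Λ) ∧
      ∀ᵐ z ∂ν, ((π z, (φ z : UnitAddCircle)) : B × Circ) ∈ Λ) := by
    intro φ
    by_cases h : S.Gr ν φ
    · obtain ⟨Λ, h1⟩ := factor_attractor erg f (fun z => ((π z, (φ z : UnitAddCircle)) : B × Circ))
        (mπ.prodMk (mcoe.comp h.1)) (hstep φ h)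
      exact ⟨Λ, fun _ => h1⟩
    · exact ⟨∅, fun h' => absurd h' h⟩
  choose Λ hΛ using hatt
  set A' := A.filter fun φ => S.ex ν φ < 0 with hA'
  set e := A'.equivFin with he
  have hQMP : Measure.QuasiMeasurePreserving π ν m := ⟨mπ, hπ ▸ Measure.AbsolutelyContinuous.rfl⟩
  refine ⟨A'.card, fun i => Λ (e.symm i), ?_, ?_⟩
  · intro i
    set φ : Y → ℝ := (e.symm i : Y → ℝ) with hφdef
    have hφA : φ ∈ A' := (e.symm i).2
    rw [hA', Finset.mem_filter] at hφA
    have hφ := hA φ hφA.1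
    obtain ⟨h0, h1, h2, h3, -⟩ := hΛ φ hφ
    refine ⟨h1, h2, ?_⟩
    rw [pos_iff_ne_zero]
    intro h0
    have h4 : ∀ᵐ p ∂(m.prod (volume : Measure Circ)), p ∉ {p | omegaLim f p ⊆ Λ φ} :=
      measure_eq_zero_iff_ae_notMem.1 (hμ' h0)
    have h5 := hQMP.ae (Measure.ae_ae_of_ae_prod h4)
    obtain ⟨x, hx1, hx2, hx3, hx4⟩ :=
      (h5.and ((S.local_att erg hφ hφA.2).and ((hdist φ hφ).and h3))).exists
    obtain ⟨δ, hδ, hloc⟩ := hx2
    have h6 : Metric.ball ((φ x : ℝ) : UnitAddCircle) (min δ (1 / 2)) ⊆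
        {y : Circ | (π x, y) ∈ {p | omegaLim f p ⊆ Λ φ}} := by
      intro y hy
      obtain ⟨t, rfl⟩ : ∃ t : ℝ, (t : UnitAddCircle) = y := QuotientAddGroup.mk_surjective y
      rw [Metric.mem_ball, dist_eq_norm, ← AddCircle.coe_sub] at hy
      rw [AddCircle.norm_eq] at hy
      simp only [inv_one, one_mul, mul_one] at hy
      have h7 : S.Cv φ x (t - round (t - φ x)) := by
        apply hloc
        have : t - ↑(round (t - φ x)) - φ x = t - φ x - round (t - φ x) := by ring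
        rw [this]
        exact hy.trans_le (min_le_left _ _)
      have h8 := omega_eq (hx3 _ h7)
      have h9 : ((t - ↑(round (t - φ x)) : ℝ) : UnitAddCircle) = (t : UnitAddCircle) := by
        rw [AddCircle.coe_sub]
        have : (((round (t - φ x) : ℤ) : ℝ) : UnitAddCircle) = 0 := by
          rw [AddCircle.coe_eq_zero_iff]
          exact ⟨round (t - φ x), by simp⟩
        rw [this, sub_zero]
      rw [h9] at h8
      show omegaLim f (π x, (t : UnitAddCircle)) ⊆ Λ φ
      rw [h8, hx4]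
    have h10 : (volume : Measure Circ) (Metric.ball ((φ x : ℝ) : UnitAddCircle) (min δ (1 / 2))) = 0 := by
      refine measure_mono_null h6 ?_
      have := hx1
      rw [ae_iff] at this
      simpa using this
    exact (Metric.isOpen_ball.measure_pos volume
      ⟨_, Metric.mem_ball_self (lt_min hδ (by norm_num))⟩).ne' h10
  · refine hμ ?_
    -- the good set
    set P : Set (B × Circ) := {p | ∃ i : Fin A'.card,
      Tendsto (fun n => Metric.infDist (f^[n] p) (Λ (e.symm i))) atTop (𝓝 0)} with hP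
    have mP : MeasurableSet P := by
      have : P = ⋃ i : Fin A'.card,
          {p | Tendsto (fun n => Metric.infDist (f^[n] p) (Λ (e.symm i))) atTop (𝓝 0)} := by
        ext p; simp [hP]
      rw [this]
      refine MeasurableSet.iUnion fun i => ?_
      refine measurableSet_tendsto (𝓝 0) fun n => ?_
      exact ((Metric.continuous_infDist_pt _).comp (f.continuous.iterate n)).measurable
    have hPsub : ∀ p ∈ P, ∃ i : Fin A'.card, omegaLim f p ⊆ Λ (e.symm i) := by
      rintro p ⟨i, hi⟩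
      have hφA : ((e.symm i : Y → ℝ)) ∈ A := (Finset.mem_filter.1 (e.symm i).2).1
      obtain ⟨h0, h1, ⟨q, hq, -⟩, h3, -⟩ := hΛ _ (hA _ hφA)
      exact ⟨i, omega_sub_of f p h0 ⟨q, hq⟩ hi⟩
    have hz : ∀ᵐ z ∂ν, ∀ᵐ y ∂(volume : Measure Circ), (π z, y) ∈ P := by
      have a1 : ∀ᵐ z ∂ν, ∀ φ ∈ A, (∀ y : ℝ, S.Cv φ z y →
          Tendsto (fun n => dist (f^[n] (π z, (y : UnitAddCircle)))
            (f^[n] (π z, (φ z : UnitAddCircle)))) atTop (𝓝 0)) ∧
          (∀ n : ℕ, f^[n] (π z, (φ z : UnitAddCircle)) ∈ Λ φ) := by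
        refine (Filter.eventually_all_finset A).2 fun φ hφ => ?_
        obtain ⟨h0, h1, h2, h3, h4⟩ := hΛ φ (hA φ hφ)
        refine (hdist φ (hA φ hφ)).and ?_
        filter_upwards [h4] with z hz n
        induction n with
        | zero => exact hz
        | succ n ih =>
          rw [Function.iterate_succ_apply', ← h1]
          exact mem_image_of_mem _ ih
      filter_upwards [hdyn, a1] with z b1 b2
      have hfin : ∀ᵐ y ∂(volume : Measure Circ), ∀ φ ∈ A, y ≠ ((φ z : ℝ) : UnitAddCircle) := by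
        refine (Filter.eventually_all_finset A).2 fun φ hφ => ?_
        rw [ae_iff]
        have : {a : Circ | ¬ a ≠ ((φ z : ℝ) : UnitAddCircle)} = {((φ z : ℝ) : UnitAddCircle)} := by
          ext a; simp
        rw [this]
        have h5 := AddCircle.volume_closedBall (T := 1) (x := ((φ z : ℝ) : UnitAddCircle)) 0
        rw [Metric.closedBall_zero] at h5
        rw [h5]; simp
      filter_upwards [hfin] with y hy
      obtain ⟨t, ht⟩ : ∃ t : ℝ, (t : UnitAddCircle) = y := QuotientAddGroup.mk_surjective y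
      have c1 : ((t - ⌊t - α z⌋ : ℝ) : UnitAddCircle) = y := by
        rw [AddCircle.coe_sub]
        have : (((⌊t - α z⌋ : ℤ) : ℝ) : UnitAddCircle) = 0 := by
          rw [AddCircle.coe_eq_zero_iff]
          exact ⟨⌊t - α z⌋, by simp⟩
        rw [this, sub_zero, ht]
      have c2 := Int.floor_le (t - α z)
      have c3 := Int.lt_floor_add_one (t - α z)
      rcases b1 (t - ⌊t - α z⌋) (by linarith) (by linarith) with ⟨ψ, hψ, hneg, hcv⟩ | ⟨ψ, hψ, hyψ⟩
      · have hψ' : ψ ∈ A' := Finset.mem_filter.2 ⟨hψ, hneg⟩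
        refine ⟨e ⟨ψ, hψ'⟩, ?_⟩
        rw [e.symm_apply_apply]
        have h7 := (b2 ψ hψ).1 _ hcv
        rw [c1] at h7
        refine squeeze_zero (fun _ => Metric.infDist_nonneg) (fun n => ?_) h7
        exact Metric.infDist_le_dist_of_mem ((b2 ψ hψ).2 n)
      · exact absurd (by rw [← c1, hyψ]) (hy ψ hψ)
    have hx : ∀ᵐ x ∂m, ∀ᵐ y ∂(volume : Measure Circ), (x, y) ∈ P := by
      have hmeas : MeasurableSet {x : B | ∀ᵐ y ∂(volume : Measure Circ), (x, y) ∈ P} := by
        have h1 : Measurable fun x : B => (volume : Measure Circ) (Prod.mk x ⁻¹' Pᶜ) :=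
          measurable_measure_prodMk_left mP.compl
        have h2 : {x : B | ∀ᵐ y ∂(volume : Measure Circ), (x, y) ∈ P} =
            {x | (volume : Measure Circ) (Prod.mk x ⁻¹' Pᶜ) = 0} := by
          ext x
          simp only [mem_ofPred_eq]
          rw [ae_iff]
          rfl
        rw [h2]
        exact h1 (measurableSet_singleton 0)
      rw [← hπ]
      exact (ae_map_iff mπ.aemeasurable hmeas).2 hz
    have h4 : ∀ᵐ p ∂(m.prod (volume : Measure Circ)), p ∈ P :=
      (Measure.ae_prod_mem_iff_ae_ae_mem mP).2 hx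
    rw [ae_iff] at h4
    refine measure_mono_null ?_ h4
    intro p hp hpP
    obtain ⟨i, hi⟩ := hPsub p hpP
    exact hp i hi

end

end Pool.Agent.TH525.PF
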