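import Mathlib

/-! # Ergodic lifts of ergodic measures to compact extensions -/

set_option autoImplicit false

open Set Filter Topology MeasureTheory BoundedContinuousFunction

namespace Pool.Agent.TH525.PF

section avg

variable {Z : Type*} [MeasurableSpace Z]

/-- averages of the push-forwards of a measure -/
noncomputable def avg (f : Z → Z) (μ : Measure Z) (n : ℕ) : Measure Z :=
  ((n : ENNReal) + 1)⁻¹ • ∑ i ∈ Finset.range (n + 1), μ.map f^[i]

theorem avg_prob {f : Z → Z} (hf : Measurable f) (μ : Measure Z) [IsProbabilityMeasure μ] (n : ℕ) :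
    IsProbabilityMeasure (avg f μ n) := by
  constructor
  unfold avg
  have h : ∀ i, (μ.map f^[i]) univ = 1 := fun i => by
    rw [Measure.map_apply (hf.iterate i) MeasurableSet.univ, preimage_univ, measure_univ]
  simp only [Measure.smul_apply, Measure.coe_finsetSum, Finset.sum_apply, h,
    Finset.sum_const, Finset.card_range, nsmul_eq_mul, mul_one, smul_eq_mul]
  push_cast
  exact ENNReal.inv_mul_cancel (by simp) (by simp)

theorem avg_int [TopologicalSpace Z] [BorelSpace Z] {f : Z → Z} (hf : Continuous f)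
    (μ : Measure Z) [IsProbabilityMeasure μ] (n : ℕ) (g : Z →ᵇ ℝ) :
    ∫ y, g y ∂(avg f μ n) = ((n : ℝ) + 1)⁻¹ * ∑ i ∈ Finset.range (n + 1), ∫ y, g (f^[i] y) ∂μ := by
  unfold avg
  have hp : ∀ i, IsProbabilityMeasure (μ.map f^[i]) := fun i =>
    Measure.isProbabilityMeasure_map (hf.iterate i).measurable.aemeasurable
  rw [integral_smul_measure, integral_finsetSum_measure]
  · congr 1
    · rw [ENNReal.toReal_inv, ENNReal.toReal_add (by simp) (by simp)]
      simp
    · refine Finset.sum_congr rfl fun i _ => ?_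
      exact integral_map (hf.iterate i).measurable.aemeasurable g.continuous.aestronglyMeasurable
  · intro i _
    exact g.integrable _

end avg

variable {Z B : Type*} [MetricSpace Z] [CompactSpace Z] [MeasurableSpace Z] [BorelSpace Z]
  [MetricSpace B] [CompactSpace B] [MeasurableSpace B] [BorelSpace B]

omit [CompactSpace B] in
/-- invariant lifts exist -/
theorem exists_inv_lift {f : Z → Z} (hf : Continuous f) {T : B → B} {π : Z → B}
    (hπ : Continuous π) (hc : ∀ z, π (f z) = T (π z)) {m : Measure B} [IsProbabilityMeasure m]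
    (hT : MeasurePreserving T m m) {μ : Measure Z} [IsProbabilityMeasure μ] (hμ : μ.map π = m) :
    ∃ ν : ProbabilityMeasure Z, (ν : Measure Z).map f = ν ∧ (ν : Measure Z).map π = m := by
  have hprob : ∀ L, IsProbabilityMeasure (avg f μ L) := fun L => avg_prob hf.measurable μ L
  set Q : ℕ → ProbabilityMeasure Z := fun L => ⟨avg f μ L, hprob L⟩ with hQ
  set U : Ultrafilter ℕ := hyperfilter ℕ with hU
  have hUle : (U : Filter ℕ) ≤ atTop := by
    rw [hU, ← Nat.cofinite_eq_atTop]; exact hyperfilter_le_cofinite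
  obtain ⟨P, -, hP⟩ := isCompact_univ.ultrafilter_le_nhds (U.map Q) (by simp)
  have hlim : Tendsto Q U (𝓝 P) := hP
  refine ⟨P, ?_, ?_⟩
  · have hmapP : IsProbabilityMeasure (Measure.map f (P : Measure Z)) :=
      Measure.isProbabilityMeasure_map hf.measurable.aemeasurable
    refine ext_of_forall_integral_eq_of_IsFiniteMeasure fun g => ?_
    rw [integral_map hf.measurable.aemeasurable g.continuous.aestronglyMeasurable]
    have h1 := (ProbabilityMeasure.tendsto_iff_forall_integral_tendsto.1 hlim) g
    have h2 := (ProbabilityMeasure.tendsto_iff_forall_integral_tendsto.1 hlim)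
      (g.compContinuous ⟨f, hf⟩)
    have h3 := h2.sub h1
    have h4 : Tendsto (fun L => (∫ y, (g.compContinuous ⟨f, hf⟩) y ∂(Q L : Measure Z)) -
        ∫ y, g y ∂(Q L : Measure Z)) U (𝓝 0) := by
      have h5 : ∀ L, |(∫ y, (g.compContinuous ⟨f, hf⟩) y ∂(Q L : Measure Z)) -
          ∫ y, g y ∂(Q L : Measure Z)| ≤ 2 * ‖g‖ / ((L : ℝ) + 1) := by
        intro L
        have e1 : ∫ y, (g.compContinuous ⟨f, hf⟩) y ∂(Q L : Measure Z) =
            ((L : ℝ) + 1)⁻¹ * ∑ i ∈ Finset.range (L + 1), ∫ y, g (f^[i + 1] y) ∂μ := by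
          refine (avg_int hf μ L (g.compContinuous ⟨f, hf⟩)).trans ?_
          congr 1
          refine Finset.sum_congr rfl fun i _ => ?_
          simp only [BoundedContinuousFunction.compContinuous_apply, ContinuousMap.coe_mk]
          simp_rw [← Function.iterate_succ_apply' f]
        have e2 : ∫ y, g y ∂(Q L : Measure Z) =
            ((L : ℝ) + 1)⁻¹ * ∑ i ∈ Finset.range (L + 1), ∫ y, g (f^[i] y) ∂μ :=
          avg_int hf μ L g
        rw [e1, e2, ← mul_sub, ← Finset.sum_sub_distrib,
          Finset.sum_range_sub (fun i => ∫ y, g (f^[i] y) ∂μ) (L + 1), abs_mul, abs_inv,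
          abs_of_nonneg (by positivity : (0 : ℝ) ≤ (L : ℝ) + 1), div_eq_inv_mul]
        have e0 : ∀ i, |∫ y, g (f^[i] y) ∂μ| ≤ ‖g‖ := by
          intro i
          have := norm_integral_le_of_norm_le_const (μ := μ) (f := fun y => g (f^[i] y)) (C := ‖g‖)
            (Eventually.of_forall fun y => g.norm_coe_le_norm _)
          simpa using this
        have e3 : |(∫ y, g (f^[L + 1] y) ∂μ) - ∫ y, g (f^[0] y) ∂μ| ≤ 2 * ‖g‖ := by
          refine (abs_sub _ _).trans ?_
          have := e0 (L + 1)
          have := e0 0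
          linarith
        gcongr
      have h6 : Tendsto (fun L : ℕ => 2 * ‖g‖ / ((L : ℝ) + 1)) U (𝓝 0) := by
        have : Tendsto (fun L : ℕ => 2 * ‖g‖ / ((L : ℝ) + 1)) atTop (𝓝 0) :=
          tendsto_const_nhds.div_atTop (tendsto_natCast_atTop_atTop.atTop_add tendsto_const_nhds)
        exact this.mono_left hUle
      exact squeeze_zero_norm h5 h6
    have h7 := tendsto_nhds_unique h3 h4
    have h8 : ∫ y, (g.compContinuous ⟨f, hf⟩) y ∂(P : Measure Z) = ∫ y, g (f y) ∂(P : Measure Z) := rfl
    rw [h8] at h7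
    linarith
  · have hmapP : IsProbabilityMeasure (Measure.map π (P : Measure Z)) :=
      Measure.isProbabilityMeasure_map hπ.measurable.aemeasurable
    refine ext_of_forall_integral_eq_of_IsFiniteMeasure fun g => ?_
    rw [integral_map hπ.measurable.aemeasurable g.continuous.aestronglyMeasurable]
    have h2 := (ProbabilityMeasure.tendsto_iff_forall_integral_tendsto.1 hlim)
      (g.compContinuous ⟨π, hπ⟩)
    have hci : ∀ (i : ℕ) (z : Z), π (f^[i] z) = T^[i] (π z) := by
      intro i
      induction i with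
      | zero => intro z; rfl
      | succ i ih => intro z; rw [Function.iterate_succ_apply, ih, hc, Function.iterate_succ_apply]
    have h5 : ∀ L, ∫ y, (g.compContinuous ⟨π, hπ⟩) y ∂(Q L : Measure Z) = ∫ x, g x ∂m := by
      intro L
      refine (avg_int hf μ L (g.compContinuous ⟨π, hπ⟩)).trans ?_
      have h6 : ∀ i ∈ Finset.range (L + 1),
          ∫ y, (g.compContinuous ⟨π, hπ⟩) (f^[i] y) ∂μ = ∫ x, g x ∂m := by
        intro i _
        simp only [BoundedContinuousFunction.compContinuous_apply, ContinuousMap.coe_mk, hci]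
        have h7 : ∫ y, g (T^[i] (π y)) ∂μ = ∫ x, g (T^[i] x) ∂m := by
          have a1 : AEStronglyMeasurable (fun x => g (T^[i] x)) (μ.map π) :=
            (g.continuous.measurable.comp (hT.measurable.iterate i)).aestronglyMeasurable
          have a2 : ∫ x, g (T^[i] x) ∂(μ.map π) = ∫ y, g (T^[i] (π y)) ∂μ :=
            integral_map hπ.measurable.aemeasurable a1
          rw [← a2, hμ]
        rw [h7]
        have h8 := (hT.iterate i)
        have h9 : ∫ x, g x ∂(m.map T^[i]) = ∫ x, g (T^[i] x) ∂m :=
          integral_map h8.measurable.aemeasurable g.continuous.aestronglyMeasurable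
        rw [← h9, h8.map_eq]
      rw [Finset.sum_congr rfl h6, Finset.sum_const, Finset.card_range, nsmul_eq_mul]
      push_cast
      field_simp
    have h9 : Tendsto (fun L => ∫ y, (g.compContinuous ⟨π, hπ⟩) y ∂(Q L : Measure Z)) U
        (𝓝 (∫ x, g x ∂m)) := by
      simp_rw [h5]
      exact tendsto_const_nhds
    exact tendsto_nhds_unique h2 h9

/-- **Ergodic lifts exist.** -/
theorem exists_erg_lift {f : Z → Z} (hf : Continuous f) {T : B → B} {π : Z → B}
    (hπ : Continuous π) (hc : ∀ z, π (f z) = T (π z)) {m : Measure B} [IsProbabilityMeasure m]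
    (erg : Ergodic T m) {μ : Measure Z} [IsProbabilityMeasure μ] (hμ : μ.map π = m) :
    ∃ ν : Measure Z, IsProbabilityMeasure ν ∧ Ergodic f ν ∧ ν.map π = m := by
  set K : Set (ProbabilityMeasure Z) :=
    {ν | (ν : Measure Z).map f = ν ∧ (ν : Measure Z).map π = m} with hK
  obtain ⟨ν0, hν0⟩ := exists_inv_lift hf hπ hc erg.toMeasurePreserving hμ
  have hKne : K.Nonempty := ⟨ν0, hν0⟩
  have hKcl : IsClosed K := by
    have h1 : IsClosed {ν : ProbabilityMeasure Z | ν.map hf.measurable.aemeasurable = ν} :=
      isClosed_eq (ProbabilityMeasure.continuous_map hf) continuous_id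
    have h2 : IsClosed {ν : ProbabilityMeasure Z |
        ν.map hπ.measurable.aemeasurable = (⟨m, inferInstance⟩ : ProbabilityMeasure B)} :=
      isClosed_eq (ProbabilityMeasure.continuous_map hπ) continuous_const
    have : K = {ν : ProbabilityMeasure Z | ν.map hf.measurable.aemeasurable = ν} ∩
        {ν : ProbabilityMeasure Z |
          ν.map hπ.measurable.aemeasurable = (⟨m, inferInstance⟩ : ProbabilityMeasure B)} := by
      ext ν
      simp only [hK, mem_ofPred_eq, mem_inter_iff]
      refine and_congr ?_ ?_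
      · exact ⟨fun h => Subtype.ext h, fun h => congrArg Subtype.val h⟩
      · exact ⟨fun h => Subtype.ext h, fun h => congrArg Subtype.val h⟩
    rw [this]
    exact h1.inter h2
  let S : Set (Set (ProbabilityMeasure Z)) := {t | t.Nonempty ∧ IsClosed t ∧ t ⊆ K ∧
    ∀ ν ∈ t, ∀ ν' : ProbabilityMeasure Z, ∀ A : Set Z, MeasurableSet A → f ⁻¹' A = A →
      (ν : Measure Z) A ≠ 0 → (ν' : Measure Z) = ProbabilityTheory.cond (ν : Measure Z) A → ν' ∈ t}
  have hKS : K ∈ S := by
    refine ⟨hKne, hKcl, subset_rfl, ?_⟩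
    intro ν hν ν' A hA hfA hνA hν'
    have hinv : MeasurePreserving f (ν : Measure Z) ν := ⟨hf.measurable, hν.1⟩
    have h1 : MeasurePreserving f (ν' : Measure Z) ν' := by
      rw [hν']
      refine .smul_measure ?_ _
      have := hinv.restrict_preimage hA
      rwa [hfA] at this
    refine ⟨h1.map_eq, ?_⟩
    have hmapP : IsProbabilityMeasure (Measure.map π (ν' : Measure Z)) :=
      Measure.isProbabilityMeasure_map hπ.measurable.aemeasurable
    refine erg.eq_of_absolutelyContinuous ⟨erg.measurable, ?_⟩ ?_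
    · rw [Measure.map_map erg.measurable hπ.measurable]
      have : T ∘ π = π ∘ f := funext fun z => (hc z).symm
      rw [this, ← Measure.map_map hπ.measurable hf.measurable, h1.map_eq]
    · rw [← hν.2, hν']
      refine Measure.AbsolutelyContinuous.map ?_ hπ.measurable
      exact ProbabilityTheory.cond_absolutelyContinuous
  obtain ⟨t, ht⟩ : ∃ t, Minimal (· ∈ S) t := by
    refine zorn_superset _ fun F hFS hF => ?_
    obtain rfl | hFnemp := F.eq_empty_or_nonempty
    · exact ⟨K, hKS, fun _ => False.elim⟩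
    refine ⟨⋂₀ F, ⟨?_, isClosed_sInter fun t ht => (hFS ht).2.1,
      fun x hx => ?_, ?_⟩, fun t ht => sInter_subset_of_mem ht⟩
    · have : Nonempty (↥F) := hFnemp.to_subtype
      rw [sInter_eq_iInter]
      refine IsCompact.nonempty_iInter_of_directed_nonempty_isCompact_isClosed _ (fun t u => ?_)
        (fun t => (hFS t.2).1)
        (fun t => (hFS t.2).2.1.isCompact) fun t => (hFS t.2).2.1
      obtain htu | hut := hF.total t.2 u.2
      exacts [⟨t, Subset.rfl, htu⟩, ⟨u, hut, Subset.rfl⟩]
    · obtain ⟨t, ht⟩ := hFnemp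
      exact (hFS ht).2.2.1 (hx t ht)
    · intro ν hν ν' A hA hfA hνA hν' t ht
      exact (hFS ht).2.2.2 ν (hν t ht) ν' A hA hfA hνA hν'
  obtain ⟨⟨ν, hν⟩, htcl, htK, htf⟩ := ht.prop
  -- all elements of `t` agree
  have hone : ∀ ν' ∈ t, ν' = ν := by
    have hg : ∀ g : Z →ᵇ ℝ, ∀ ν₁ ∈ t, ∀ ν₂ ∈ t,
        ∫ y, g y ∂(ν₁ : Measure Z) ≤ ∫ y, g y ∂(ν₂ : Measure Z) := by
      intro g ν₁ h1 ν₂ h2
      have hgc : Continuous fun μ : ProbabilityMeasure Z => ∫ y, g y ∂(μ : Measure Z) := by
        rw [continuous_iff_continuousAt]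
        intro μ
        exact (ProbabilityMeasure.tendsto_iff_forall_integral_tendsto.1 tendsto_id) g
      obtain ⟨z, hzt, hz⟩ := htcl.isCompact.exists_isMaxOn ⟨ν, hν⟩ hgc.continuousOn
      set t' : Set (ProbabilityMeasure Z) := {μ | μ ∈ t ∧
        ∫ y, g y ∂(z : Measure Z) ≤ ∫ y, g y ∂(μ : Measure Z)} with ht'
      have ht'S : t' ∈ S := by
        refine ⟨⟨z, hzt, le_rfl⟩, htcl.inter (isClosed_le continuous_const hgc),
          fun μ hμ => htK hμ.1, ?_⟩
        intro μ hμ ν' A hA hfA hνA hν'
        have hmem := htf μ hμ.1 ν' A hA hfA hνA hν'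
        refine ⟨hmem, ?_⟩
        by_cases hc0 : (μ : Measure Z) Aᶜ = 0
        · have : (ν' : Measure Z) = μ := by
            rw [hν']
            have hA1 : (μ : Measure Z) A = 1 := by
              have := measure_add_measure_compl (μ := (μ : Measure Z)) hA
              rw [hc0, add_zero, measure_univ] at this
              exact this
            rw [ProbabilityTheory.cond, hA1, inv_one, one_smul]
            exact Measure.restrict_eq_self_of_ae_mem (measure_eq_zero_iff_ae_notMem.1 hc0 |>.mono
              fun x hx => by simpa using hx)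
          rw [this]; exact hμ.2
        · set ν'' : ProbabilityMeasure Z := ⟨ProbabilityTheory.cond (μ : Measure Z) Aᶜ,
            ProbabilityTheory.cond_isProbabilityMeasure hc0⟩ with hν''
          have hmem2 := htf μ hμ.1 ν'' Aᶜ hA.compl (by rw [preimage_compl, hfA]) hc0 rfl
          have hle2 : ∫ y, g y ∂(ν'' : Measure Z) ≤ ∫ y, g y ∂(z : Measure Z) := hz hmem2
          have hsum : ∫ y, g y ∂(μ : Measure Z) =
              ((μ : Measure Z) A).toReal * ∫ y, g y ∂(ν' : Measure Z) +
              ((μ : Measure Z) Aᶜ).toReal * ∫ y, g y ∂(ν'' : Measure Z) := by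
            have e1 : ∫ y, g y ∂(ν' : Measure Z) =
                ((μ : Measure Z) A).toReal⁻¹ * ∫ y in A, g y ∂(μ : Measure Z) := by
              rw [hν', ProbabilityTheory.cond, integral_smul_measure, ENNReal.toReal_inv, smul_eq_mul]
            have e2 : ∫ y, g y ∂(ν'' : Measure Z) =
                ((μ : Measure Z) Aᶜ).toReal⁻¹ * ∫ y in Aᶜ, g y ∂(μ : Measure Z) := by
              show ∫ y, g y ∂(ProbabilityTheory.cond (μ : Measure Z) Aᶜ) = _
              rw [ProbabilityTheory.cond, integral_smul_measure, ENNReal.toReal_inv, smul_eq_mul]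
            have p1 : ((μ : Measure Z) A).toReal ≠ 0 :=
              (ENNReal.toReal_pos hνA (measure_ne_top _ _)).ne'
            have p2 : ((μ : Measure Z) Aᶜ).toReal ≠ 0 :=
              (ENNReal.toReal_pos hc0 (measure_ne_top _ _)).ne'
            rw [e1, e2, ← mul_assoc, mul_inv_cancel₀ p1, one_mul, ← mul_assoc, mul_inv_cancel₀ p2,
              one_mul]
            exact (integral_add_compl hA (g.integrable _)).symm
          have hone : ((μ : Measure Z) A).toReal + ((μ : Measure Z) Aᶜ).toReal = 1 := by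
            rw [← ENNReal.toReal_add (measure_ne_top _ _) (measure_ne_top _ _),
              measure_add_measure_compl hA, measure_univ, ENNReal.toReal_one]
          have p1 : 0 < ((μ : Measure Z) A).toReal := ENNReal.toReal_pos hνA (measure_ne_top _ _)
          have p2 : 0 ≤ ((μ : Measure Z) Aᶜ).toReal := ENNReal.toReal_nonneg
          have h3 := hμ.2
          have h4 := mul_le_mul_of_nonneg_left hle2 p2
          have h5 : ((μ : Measure Z) A).toReal * ∫ y, g y ∂(z : Measure Z) ≤
              ((μ : Measure Z) A).toReal * ∫ y, g y ∂(ν' : Measure Z) := by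
            have : ∫ y, g y ∂(z : Measure Z) = ((μ : Measure Z) A).toReal * ∫ y, g y ∂(z : Measure Z) +
              ((μ : Measure Z) Aᶜ).toReal * ∫ y, g y ∂(z : Measure Z) := by
              rw [← add_mul, hone, one_mul]
            linarith
          exact le_of_mul_le_mul_left h5 p1
      have h6 : t = t' := ht.eq_of_ge ht'S fun μ hμ => hμ.1
      have h7 : ν₂ ∈ t' := h6 ▸ h2
      exact (hz h1).trans h7.2
    intro ν' hν'
    refine Subtype.ext ?_
    refine ext_of_forall_integral_eq_of_IsFiniteMeasure (μ := (ν' : Measure Z))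
      (ν := (ν : Measure Z)) fun g => ?_
    exact (hg g ν' hν' ν hν).antisymm (hg g ν hν ν' hν')
  have hνK := htK hν
  refine ⟨ν, inferInstance, ⟨⟨hf.measurable, hνK.1⟩, ⟨?_⟩⟩, hνK.2⟩
  intro A hA hfA
  rw [eventuallyConst_set]
  by_cases h0 : (ν : Measure Z) A = 0
  · right
    rw [ae_iff]
    simpa using h0
  · left
    set ν' : ProbabilityMeasure Z := ⟨ProbabilityTheory.cond (ν : Measure Z) A,
      ProbabilityTheory.cond_isProbabilityMeasure h0⟩ with hν'
    have h1 : ν' = ν := hone _ (htf ν hν ν' A hA hfA h0 rfl)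
    have h2 : ProbabilityTheory.cond (ν : Measure Z) A = (ν : Measure Z) := by
      have := congrArg (fun μ : ProbabilityMeasure Z => (μ : Measure Z)) h1
      exact this
    have h3 : (ν : Measure Z) Aᶜ = 0 := by
      rw [← h2, ProbabilityTheory.cond_apply hA, inter_compl_self, measure_empty, mul_zero]
    rw [ae_iff]
    exact h3

end Pool.Agent.TH525.PF
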