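import Pool.Agent.TH525.PF.Sard

/-! # Neutral graphs exist only for a null set of parameters, conclusion -/

set_option autoImplicit false

open Set Filter Topology MeasureTheory

namespace Pool.Agent.TH525.PF

variable {X : Type*} [MeasurableSpace X] {m : Measure X} [IsProbabilityMeasure m]

theorem arctan_gap {a b R : ℝ} (hab : a < b) (ha : -R ≤ a) (hb : b ≤ R) :
    (b - a) / (1 + R ^ 2) ≤ Real.arctan b - Real.arctan a := by
  obtain ⟨ξ, h1, h2⟩ := exists_hasDerivAt_eq_slope Real.arctan (fun x => 1 / (1 + x ^ 2)) hab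
    (Real.continuous_arctan.continuousOn) (fun t _ => Real.hasDerivAt_arctan t)
  have h3 : Real.arctan b - Real.arctan a = 1 / (1 + ξ ^ 2) * (b - a) := by
    rw [h2, div_mul_cancel₀]
    exact (sub_pos.2 hab).ne'
  rw [h3, div_eq_mul_one_div, mul_comm]
  apply mul_le_mul_of_nonneg_right _ (sub_pos.2 hab).le
  apply one_div_le_one_div_of_le (by positivity)
  have : ξ ^ 2 ≤ R ^ 2 := by
    apply sq_le_sq'
    · linarith [h1.1]
    · linarith [h1.2]
  linarith

theorem arctan_slope {y z R u : ℝ} (hy : |y| ≤ R) (hu : 0 < u) (hu1 : u ≤ 1) (h : u ≤ |z - y|) :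
    u / (1 + (R + 1) ^ 2) ≤ |Real.arctan z - Real.arctan y| := by
  have hy' := abs_le.1 hy
  rcases le_or_gt 0 (z - y) with h0 | h0
  · rw [abs_of_nonneg h0] at h
    have h1 := arctan_gap (show y < y + u by linarith) (show -(R + 1) ≤ y by linarith)
      (show y + u ≤ R + 1 by linarith)
    have h2 : Real.arctan (y + u) ≤ Real.arctan z := Real.arctan_strictMono.monotone (by linarith)
    rw [add_sub_cancel_left] at h1
    exact h1.trans ((by linarith : Real.arctan (y + u) - Real.arctan y ≤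
      Real.arctan z - Real.arctan y).trans (le_abs_self _))
  · rw [abs_of_neg h0] at h
    have h1 := arctan_gap (show y - u < y by linarith) (show -(R + 1) ≤ y - u by linarith)
      (show y ≤ R + 1 by linarith)
    have h2 : Real.arctan z ≤ Real.arctan (y - u) := Real.arctan_strictMono.monotone (by linarith)
    rw [sub_sub_cancel] at h1
    rw [abs_sub_comm]
    exact h1.trans ((by linarith : Real.arctan y - Real.arctan (y - u) ≤
      Real.arctan y - Real.arctan z).trans (le_abs_self _))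

open Sys in
theorem ef_ge {φ φ' : X → ℝ} (mφ : Measurable φ) (mφ' : Measurable φ')
    (hs : (∀ᵐ x ∂m, φ x < φ' x) ∨ (∀ᵐ x ∂m, φ' x < φ x)) {R u : ℝ}
    (hu : 0 < u) (hu1 : u ≤ 1) :
    u / (1 + (R + 1) ^ 2) * m.real {x | u ≤ |φ' x - φ x| ∧ |φ x| ≤ R} ≤
      |ef m φ' - ef m φ| := by
  set A := {x | u ≤ |φ' x - φ x| ∧ |φ x| ≤ R} with hA
  have mA : MeasurableSet A :=
    (measurableSet_le measurable_const ((mφ'.sub mφ).abs)).inter
      (measurableSet_le mφ.abs measurable_const)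
  have i1 := int_arctan (m := m) mφ
  have i2 := int_arctan (m := m) mφ'
  have e1 : |ef m φ' - ef m φ| = ∫ x, |Real.arctan (φ' x) - Real.arctan (φ x)| ∂m := by
    unfold ef
    rw [← integral_sub i2 i1]
    rcases hs with h | h
    · have h1 : ∫ x, |Real.arctan (φ' x) - Real.arctan (φ x)| ∂m =
          ∫ x, (Real.arctan (φ' x) - Real.arctan (φ x)) ∂m := by
        refine integral_congr_ae ?_
        filter_upwards [h] with x hx
        exact abs_of_pos (sub_pos.2 (Real.arctan_strictMono hx))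
      rw [h1, abs_of_nonneg]
      refine integral_nonneg_of_ae ?_
      filter_upwards [h] with x hx
      exact (sub_pos.2 (Real.arctan_strictMono hx)).le
    · have h1 : ∫ x, |Real.arctan (φ' x) - Real.arctan (φ x)| ∂m =
          ∫ x, -(Real.arctan (φ' x) - Real.arctan (φ x)) ∂m := by
        refine integral_congr_ae ?_
        filter_upwards [h] with x hx
        exact abs_of_neg (sub_neg.2 (Real.arctan_strictMono hx))
      rw [h1, integral_neg, abs_of_nonpos]
      refine integral_nonpos_of_ae ?_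
      filter_upwards [h] with x hx
      exact (sub_neg.2 (Real.arctan_strictMono hx)).le
  rw [e1]
  have e2 : ∫ x, A.indicator (fun _ => u / (1 + (R + 1) ^ 2)) x ∂m =
      u / (1 + (R + 1) ^ 2) * m.real A := by
    rw [integral_indicator_const _ mA, smul_eq_mul, mul_comm]
  rw [← e2]
  refine integral_mono ((integrable_const _).indicator mA) (i2.sub i1).abs fun x => ?_
  by_cases hx : x ∈ A
  · rw [indicator_of_mem hx]
    exact arctan_slope hx.2 hu hu1 hx.1
  · rw [indicator_of_notMem hx]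
    exact abs_nonneg _

/-- most of the mass lies in a bounded set -/
theorem tail {φ : X → ℝ} (mφ : Measurable φ) {η : ℝ} (hη : 0 < η) :
    ∃ R : ℝ, 0 ≤ R ∧ m.real {x | R < |φ x|} ≤ η := by
  have h1 : Tendsto (fun n : ℕ => m {x | (n : ℝ) < |φ x|}) atTop (𝓝 (m (⋂ n : ℕ, {x | (n : ℝ) < |φ x|}))) := by
    refine tendsto_measure_iInter_atTop ?_ ?_ ?_
    · intro n
      exact (measurableSet_lt measurable_const mφ.abs).nullMeasurableSet
    · intro a b hab x hx
      have : (a : ℝ) ≤ b := by exact_mod_cast hab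
      exact this.trans_lt hx
    · exact ⟨0, measure_ne_top _ _⟩
  have h2 : (⋂ n : ℕ, {x | (n : ℝ) < |φ x|}) = ∅ := by
    ext x
    simp only [mem_iInter, mem_ofPred_eq, mem_empty_iff_false, iff_false, not_forall, not_lt]
    exact exists_nat_ge _
  rw [h2, measure_empty] at h1
  have h3 := (ENNReal.tendsto_toReal ENNReal.zero_ne_top).comp h1
  obtain ⟨n, hn⟩ := (h3.eventually (gt_mem_nhds (show (0 : ENNReal).toReal < η by simpa using hη))).exists
  exact ⟨n, Nat.cast_nonneg n, hn.le⟩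

namespace Sys

variable (S : Sys X)

theorem sgn (erg : Ergodic S.T m) {φ φ' : X → ℝ} (hφ : S.Gr m φ) {σ : ℝ} (hσ : σ ≠ 0)
    (hφ' : (S.add σ).Gr m φ') : (∀ᵐ x ∂m, φ x < φ' x) ∨ (∀ᵐ x ∂m, φ' x < φ x) := by
  have hφ0 : (S.add 0).Gr m φ := by
    refine ⟨hφ.1, ?_⟩
    filter_upwards [hφ.2] with x hx
    simpa using hx
  rcases lt_or_gt_of_ne hσ with h | h
  · exact (S.tri2 erg h hφ' hφ0).symm
  · exact S.tri2 erg h hφ0 hφ'

theorem sard_local (erg : Ergodic S.T m) {φ : X → ℝ} (hφ : S.Gr m φ) (h0 : S.ex m φ = 0)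
    {C : ℝ} (hC : 0 < C) : ∃ δ : ℝ, 0 < δ ∧ ∀ σ : ℝ, σ ≠ 0 → ∀ φ' : X → ℝ,
      (S.add σ).Gr m φ' → |ef m φ' - ef m φ| < δ → |σ| ≤ C * |ef m φ' - ef m φ| := by
  obtain ⟨R0, hR0, hR0'⟩ := tail (m := m) hφ.1 (show (0 : ℝ) < 1 / 4 by norm_num)
  set a0 := 1 / (1 + (R0 + 1) ^ 2) with ha0
  have ha0p : 0 < a0 := by rw [ha0]; positivity
  set M := max 1 (2 / (a0 * C)) with hM
  have hM1 : 1 ≤ M := le_max_left _ _
  have hM2 : 2 / (a0 * C) ≤ M := le_max_right _ _
  have hMp : 0 < M := by linarith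
  have hL1 : 0 < S.L + 1 := by linarith [S.L1]
  have hlog := S.logL
  set K := M * (S.L + 1) with hK
  have hKp : 0 < K := mul_pos hMp hL1
  set c := 1 / (16 * K) with hc
  have hcp : 0 < c := by rw [hc]; positivity
  obtain ⟨ρ', hρ'p, hρ'⟩ := S.mod c hcp
  set ρ := min ρ' 1 with hρdef
  have hρp : 0 < ρ := lt_min hρ'p one_pos
  have hρ1 : ρ ≤ 1 := min_le_right _ _
  have hρ : ∀ x y y', |y - y'| < ρ → |Real.log (S.G x y) - Real.log (S.G x y')| ≤ c :=
    fun x y y' h => hρ' x y y' (h.trans_le (min_le_left _ _))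
  set η := 1 / (16 * K * (2 * Real.log S.L + 1)) with hη
  have hηp : 0 < η := by rw [hη]; positivity
  obtain ⟨R1, hR1, hR1'⟩ := tail (m := m) hφ.1 hηp
  set a1 := ρ / (1 + (R1 + 1) ^ 2) with ha1
  have ha1p : 0 < a1 := by rw [ha1]; positivity
  refine ⟨min (a1 * η) (a0 / 2), lt_min (by positivity) (by positivity), ?_⟩
  intro σ hσ φ' hφ' hδ
  have hs := S.sgn erg hφ hσ hφ'
  have hδ1 := hδ.trans_le (min_le_left _ _)
  have hδ2 := hδ.trans_le (min_le_right _ _)
  have mD : Measurable fun x => |φ' x - φ x| := (hφ'.1.sub hφ.1).abs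
  -- the differences are small on most fibres
  have s1 : m.real {x | ρ ≤ |φ' x - φ x|} ≤ 2 * η := by
    have e1 := ef_ge (m := m) hφ.1 hφ'.1 hs (R := R1) hρp hρ1
    have e2 : m.real {x | ρ ≤ |φ' x - φ x| ∧ |φ x| ≤ R1} ≤ η := by
      have : a1 * m.real {x | ρ ≤ |φ' x - φ x| ∧ |φ x| ≤ R1} ≤ a1 * η := e1.trans hδ1.le
      exact le_of_mul_le_mul_left this ha1p
    have e3 : m.real {x | ρ ≤ |φ' x - φ x|} ≤
        m.real ({x | ρ ≤ |φ' x - φ x| ∧ |φ x| ≤ R1} ∪ {x | R1 < |φ x|}) := by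
      refine measureReal_mono ?_
      intro x hx
      by_cases h : |φ x| ≤ R1
      · exact Or.inl ⟨hx, h⟩
      · exact Or.inr (not_le.1 h)
    have e4 := measureReal_union_le (μ := m) {x | ρ ≤ |φ' x - φ x| ∧ |φ x| ≤ R1} {x | R1 < |φ x|}
    linarith
  have hσp : 0 < |σ| := abs_pos.2 hσ
  have hD : ∀ᵐ x ∂m, 0 < |φ' x - φ x| := by
    rcases hs with h | h
    · filter_upwards [h] with x hx using abs_pos.2 (sub_ne_zero.2 hx.ne')
    · filter_upwards [h] with x hx using abs_pos.2 (sub_ne_zero.2 hx.ne)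
  have s2 := S.pair erg hφ hσ hφ' h0 hcp.le hρ
  have s3 : M * ∫ x, min (|σ| / |φ' x - φ x|) 1 ∂m ≤ 1 / 4 := by
    have h1 : m.real {x | ρ ≤ |φ' x - φ x|} * (2 * Real.log S.L) ≤ 2 * η * (2 * Real.log S.L) :=
      mul_le_mul_of_nonneg_right s1 (by positivity)
    have h2 : M * ∫ x, min (|σ| / |φ' x - φ x|) 1 ∂m ≤
        K * (c + 2 * η * (2 * Real.log S.L)) := by
      rw [hK, mul_assoc]
      refine mul_le_mul_of_nonneg_left (s2.trans ?_) hMp.le
      exact mul_le_mul_of_nonneg_left (by linarith) hL1.le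
    have h3 : K * c = 1 / 16 := by rw [hc]; field_simp
    have h4 : K * (2 * η * (2 * Real.log S.L)) ≤ 1 / 8 := by
      have h5 : K * η * (2 * Real.log S.L + 1) = 1 / 16 := by rw [hη]; field_simp
      have h6 : 0 ≤ K * η := by positivity
      have h7 : K * (2 * η * (2 * Real.log S.L)) = 2 * (K * η * (2 * Real.log S.L + 1)) -
        2 * (K * η) := by ring
      rw [h7, h5]
      linarith
    have h8 : K * (c + 2 * η * (2 * Real.log S.L)) = K * c + K * (2 * η * (2 * Real.log S.L)) := by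
      ring
    rw [h8] at h2
    linarith
  -- Markov
  have mB : MeasurableSet {x | |φ' x - φ x| < M * |σ|} := measurableSet_lt mD measurable_const
  have s4 : m.real {x | |φ' x - φ x| < M * |σ|} ≤ 1 / 4 := by
    have i1 := int_u (m := m) mD hD hσp
    have h1 : ∫ x, {x | |φ' x - φ x| < M * |σ|}.indicator (fun _ => 1 / M) x ∂m ≤
        ∫ x, min (|σ| / |φ' x - φ x|) 1 ∂m := by
      refine integral_mono_ae ((integrable_const _).indicator mB) i1 ?_
      filter_upwards [hD] with x hx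
      by_cases hxB : |φ' x - φ x| < M * |σ|
      · rw [indicator_of_mem (show x ∈ {x | |φ' x - φ x| < M * |σ|} from hxB)]
        refine le_min ?_ ?_
        · rw [div_le_div_iff₀ hMp hx]
          linarith
        · rw [div_le_one hMp]; exact hM1
      · rw [indicator_of_notMem (show x ∉ {x | |φ' x - φ x| < M * |σ|} from hxB)]
        exact le_min (by positivity) zero_le_one
    rw [integral_indicator_const _ mB, smul_eq_mul] at h1
    have h2 : m.real {x | |φ' x - φ x| < M * |σ|} * (1 / M) * M ≤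
        M * ∫ x, min (|σ| / |φ' x - φ x|) 1 ∂m := by
      have := mul_le_mul_of_nonneg_left h1 hMp.le
      linarith
    have h3 : m.real {x | |φ' x - φ x| < M * |σ|} * (1 / M) * M =
        m.real {x | |φ' x - φ x| < M * |σ|} := by field_simp
    rw [h3] at h2
    exact h2.trans s3
  set u := min (M * |σ|) 1 with hu
  have hup : 0 < u := lt_min (by positivity) one_pos
  have s5 : 1 / 2 ≤ m.real {x | u ≤ |φ' x - φ x| ∧ |φ x| ≤ R0} := by
    have h1 : (univ : Set X) ⊆ {x | u ≤ |φ' x - φ x| ∧ |φ x| ≤ R0} ∪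
        ({x | |φ' x - φ x| < M * |σ|} ∪ {x | R0 < |φ x|}) := by
      intro x _
      by_cases h : |φ x| ≤ R0
      · by_cases h' : |φ' x - φ x| < M * |σ|
        · exact Or.inr (Or.inl h')
        · exact Or.inl ⟨(min_le_left _ _).trans (not_lt.1 h'), h⟩
      · exact Or.inr (Or.inr (not_le.1 h))
    have h2 := measureReal_mono (μ := m) h1
    have h3 := measureReal_union_le (μ := m) {x | u ≤ |φ' x - φ x| ∧ |φ x| ≤ R0}
        ({x | |φ' x - φ x| < M * |σ|} ∪ {x | R0 < |φ x|})
    have h4 := measureReal_union_le (μ := m) {x | |φ' x - φ x| < M * |σ|} {x | R0 < |φ x|}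
    have h5 : m.real (univ : Set X) = 1 := by simp
    linarith
  have s6 := ef_ge (m := m) hφ.1 hφ'.1 hs (R := R0) hup (min_le_right _ _)
  have s7 : u * a0 / 2 ≤ |ef m φ' - ef m φ| := by
    refine le_trans ?_ s6
    rw [show u / (1 + (R0 + 1) ^ 2) = u * a0 by rw [ha0]; ring]
    have h1 : 0 ≤ u * a0 := by positivity
    have h2 := mul_le_mul_of_nonneg_left s5 h1
    linarith
  have s8 : u < 1 := by
    by_contra hcon
    have h1 : 1 * a0 ≤ u * a0 := mul_le_mul_of_nonneg_right (not_lt.1 hcon) ha0p.le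
    linarith
  have s9 : u = M * |σ| := by
    rcases min_choice (M * |σ|) 1 with h | h
    · exact h
    · rw [hu, h] at s8
      exact absurd s8 (lt_irrefl _)
  rw [s9] at s7
  have s10 : |σ| ≤ C * (M * |σ| * a0 / 2) := by
    have h1 : 2 / (a0 * C) * (a0 * C) = 2 := by field_simp
    have h2 : 2 ≤ M * (a0 * C) := by
      calc (2 : ℝ) = 2 / (a0 * C) * (a0 * C) := h1.symm
        _ ≤ M * (a0 * C) := mul_le_mul_of_nonneg_right hM2 (by positivity)
    have h3 : 2 * |σ| ≤ M * (a0 * C) * |σ| := mul_le_mul_of_nonneg_right h2 hσp.le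
    have h4 : C * (M * |σ| * a0 / 2) = M * (a0 * C) * |σ| / 2 := by ring
    rw [h4]
    linarith
  exact s10.trans (mul_le_mul_of_nonneg_left s7 hC.le)

/-- **Neutral graphs exist only for a null set of parameters.** -/
theorem sard (erg : Ergodic S.T m) :
    volume {s : ℝ | ∃ φ : X → ℝ, (S.add s).Gr m φ ∧ S.ex m φ = 0} = 0 := by
  classical
  set N := {s : ℝ | ∃ φ : X → ℝ, (S.add s).Gr m φ ∧ S.ex m φ = 0} with hN
  choose! Φ hΦ1 hΦ2 using fun (s : ℝ) (hs : s ∈ N) => hs
  set e : ℝ → ℝ := fun s => ef m (Φ s) with he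
  have hadd : ∀ s s' : ℝ, (S.add s).add (s' - s) = S.add s' := by
    intro s s'
    simp [Sys.add]
  have hinj : InjOn e N := by
    intro s hs s' hs' hee
    by_contra hne
    rcases lt_or_gt_of_ne hne with h | h
    · rcases S.tri2 erg h (hΦ1 s hs) (hΦ1 s' hs') with h1 | h1
      · exact (ef_lt (hΦ1 s hs).1 (hΦ1 s' hs').1 h1).ne hee
      · exact (ef_lt (hΦ1 s' hs').1 (hΦ1 s hs).1 h1).ne' hee
    · rcases S.tri2 erg h (hΦ1 s' hs') (hΦ1 s hs) with h1 | h1
      · exact (ef_lt (hΦ1 s' hs').1 (hΦ1 s hs).1 h1).ne' hee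
      · exact (ef_lt (hΦ1 s hs).1 (hΦ1 s' hs').1 h1).ne hee
  set g : ℝ → ℝ := Function.invFunOn e N with hg
  have hge : ∀ s ∈ N, g (e s) = s := fun s hs => hinj.leftInvOn_invFunOn hs
  have himg : N = g '' (e '' N) := by
    ext s
    constructor
    · intro hs
      exact ⟨e s, ⟨s, hs, rfl⟩, hge s hs⟩
    · rintro ⟨_, ⟨t, ht, rfl⟩, rfl⟩
      rw [hge t ht]
      exact ht
  rw [himg]
  refine addHaar_image_eq_zero_of_det_fderivWithin_eq_zero volume (f' := fun _ => (0 : ℝ →L[ℝ] ℝ))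
    ?_ ?_
  · rintro _ ⟨s, hs, rfl⟩
    rw [hasFDerivWithinAt_iff_isLittleO, Asymptotics.isLittleO_iff]
    intro C hC
    have hgr : ((S.add s)).Gr m (Φ s) := hΦ1 s hs
    obtain ⟨δ, hδ, h⟩ := (S.add s).sard_local (m := m) erg hgr (hΦ2 s hs) hC
    rw [Filter.eventually_iff_exists_mem]
    refine ⟨Metric.ball (e s) δ ∩ e '' N, ?_, ?_⟩
    · exact inter_mem_nhdsWithin _ (Metric.ball_mem_nhds _ hδ) |> fun h => by
        rw [inter_comm] at h; exact h
    · rintro _ ⟨hb, ⟨t, ht, rfl⟩⟩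
      simp only [_root_.zero_apply, sub_zero, Real.norm_eq_abs]
      rw [hge t ht, hge s hs]
      by_cases hts : t - s = 0
      · rw [hts, abs_zero]; positivity
      · rw [Metric.mem_ball, Real.dist_eq] at hb
        refine h (t - s) hts (Φ t) ?_ hb
        rw [hadd]
        exact hΦ1 t ht
  · intro x _
    simp [ContinuousLinearMap.det]

end Sys

end Pool.Agent.TH525.PF
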