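import Pool.Agent.TH525.PF.Wav
import Pool.Agent.TH525.PF.Sard2
import Pool.Agent.TH525.PF.Fac
import Pool.Agent.TH525.PF.KBE

/-! # The system over the extended base, and mode-locked parameters -/

set_option autoImplicit false

open Set Filter Topology MeasureTheory

namespace Pool.Agent.TH525.PF

open Pool.Agent.H728R2.OS Pool.Agent.H728R2.FA

/-- a measurable representative in `[0, 1)` -/
noncomputable def rep (c : Circ) : ℝ := (AddCircle.measurableEquivIco (1 : ℝ) 0 c : ℝ)

theorem rep_meas : Measurable rep :=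
  measurable_subtype_coe.comp (AddCircle.measurableEquivIco (1 : ℝ) 0).measurable

theorem rep_coe (c : Circ) : ((rep c : ℝ) : UnitAddCircle) = c := by
  obtain ⟨t, rfl⟩ : ∃ t : ℝ, (t : UnitAddCircle) = c := QuotientAddGroup.mk_surjective c
  exact (AddCircle.equivIco (1 : ℝ) 0).symm_apply_apply (t : UnitAddCircle)

namespace Sys

variable {X : Type*} [MeasurableSpace X] (S : Sys X)

/-- the integer translation -/
noncomputable def nn (a : ℝ) (τ : (X × Circ) ≃ᵐ (X × Circ)) (p : X × Circ) : ℝ :=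
  S.F p.1 (rep p.2) + a - rep (τ p).2

theorem nn_int {a : ℝ} {τ : (X × Circ) ≃ᵐ (X × Circ)}
    (hτ : ∀ (x : X) (y : ℝ), τ (x, (y : UnitAddCircle)) = (S.T x, ((S.F x y + a : ℝ) : UnitAddCircle)))
    (p : X × Circ) : ∃ k : ℤ, S.nn a τ p = k := by
  have h1 : ((S.nn a τ p : ℝ) : UnitAddCircle) = 0 := by
    rw [nn, AddCircle.coe_sub, rep_coe]
    have h2 : τ p = (S.T p.1, ((S.F p.1 (rep p.2) + a : ℝ) : UnitAddCircle)) := by
      rw [← hτ, rep_coe]
    rw [h2, sub_self]
  rw [AddCircle.coe_eq_zero_iff] at h1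
  obtain ⟨k, hk⟩ := h1
  exact ⟨k, by rw [← hk]; simp⟩

/-- the extended system -/
noncomputable def ext (a : ℝ) (τ : (X × Circ) ≃ᵐ (X × Circ)) : Sys (X × Circ) where
  T := τ
  F := fun p z => S.F p.1 z - S.nn a τ p
  G := fun p z => S.G p.1 z
  L := S.L
  mF := by
    have h1 : Measurable (S.nn a τ) := by
      refine Measurable.sub (Measurable.add_const ?_ _) ?_
      · exact S.mF.comp (measurable_fst.prodMk (rep_meas.comp measurable_snd))
      · exact rep_meas.comp (measurable_snd.comp τ.measurable)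
    exact (S.mF.comp ((measurable_fst.comp measurable_fst).prodMk measurable_snd)).sub
      (h1.comp measurable_fst)
  mG := S.mG.comp ((measurable_fst.comp measurable_fst).prodMk measurable_snd)
  der := fun p z => (S.der p.1 z).sub_const _
  L1 := S.L1
  lo := fun p z => S.lo _ _
  hi := fun p z => S.hi _ _
  mod := fun c hc => by
    obtain ⟨ρ, h1, h2⟩ := S.mod c hc
    exact ⟨ρ, h1, fun p => h2 p.1⟩

@[simp] theorem ext_T (a : ℝ) (τ : (X × Circ) ≃ᵐ (X × Circ)) : (S.ext a τ).T = τ := rfl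
@[simp] theorem ext_F (a : ℝ) (τ : (X × Circ) ≃ᵐ (X × Circ)) (p : X × Circ) (z : ℝ) :
    (S.ext a τ).F p z = S.F p.1 z - S.nn a τ p := rfl

/-- the wave operator is an invariant section of the extended system -/
theorem ext_gr {m : Measure X} [IsProbabilityMeasure m] (erg : Ergodic S.T m)
    (per : ∀ x y, S.F x (y + 1) = S.F x y + 1) {a b s : ℝ} (has : a ≤ s) (hsb : s ≤ b)
    (h : S.Locked m a b) {τ : (X × Circ) ≃ᵐ (X × Circ)}
    (hτ : ∀ (x : X) (y : ℝ), τ (x, (y : UnitAddCircle)) = (S.T x, ((S.F x y + a : ℝ) : UnitAddCircle)))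
    {ν : Measure (X × Circ)} (hν : ν.map Prod.fst = m) :
    ((S.ext a τ).add s).Gr ν (fun p => S.wave a s p.1 (rep p.2)) := by
  refine ⟨(S.wave_meas a s).comp (measurable_fst.prodMk (rep_meas.comp measurable_snd)), ?_⟩
  have hQMP : Measure.QuasiMeasurePreserving (Prod.fst : X × Circ → X) ν m :=
    ⟨measurable_fst, hν ▸ Measure.AbsolutelyContinuous.rfl⟩
  have hsp := S.wave_spec erg per has hsb h
  filter_upwards [hQMP.ae hsp,
    hQMP.ae (erg.toMeasurePreserving.quasiMeasurePreserving.ae hsp)] with p hp hp'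
  obtain ⟨k, hk⟩ := S.nn_int hτ p
  have h1 : (τ p).1 = S.T p.1 := by
    have : τ p = (S.T p.1, ((S.F p.1 (rep p.2) + a : ℝ) : UnitAddCircle)) := by
      rw [← hτ, rep_coe]
    rw [this]
  have h2 : rep (τ p).2 = S.F p.1 (rep p.2) + a - k := by
    rw [← hk, nn]; ring
  show S.F p.1 (S.wave a s p.1 (rep p.2)) - S.nn a τ p + s = S.wave a s (τ p).1 (rep (τ p).2)
  have h3 := (hp (rep p.2)).1
  rw [h1, h2]
  have h4 : S.wave a s (S.T p.1) (S.F p.1 (rep p.2) + a - k) + k =
      S.wave a s (S.T p.1) (S.F p.1 (rep p.2) + a) := by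
    rw [← (hp' (S.F p.1 (rep p.2) + a - k)).2 k, sub_add_cancel]
  rw [hk]
  linarith

end Sys

section

variable {B : Type*} [MetricSpace B] [CompactSpace B] [MeasurableSpace B] [BorelSpace B]
  {m : Measure B} [IsProbabilityMeasure m]

/-- **Mode-locked parameters**: between two parameters with the same rotation number almost every
parameter has finitely many attractors. -/
theorem locked_ae (S : Sys B) (T : B ≃ₜ B) (hT : ∀ x, S.T x = T x) (erg : Ergodic T m)
    (f : (B × Circ) ≃ₜ (B × Circ))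
    (hf : ∀ (x : B) (y : ℝ), f (x, (y : UnitAddCircle)) = (T x, (S.F x y : UnitAddCircle)))
    (per : ∀ x y, S.F x (y + 1) = S.F x y + 1)
    (μ : Measure (B × Circ)) (hμ : μ ≪ m.prod volume) (hμ' : m.prod volume ≪ μ)
    {a b : ℝ} (hl : S.Locked m a b) :
    ∀ᵐ s : ℝ, a ≤ s → s ≤ b → FiniteAttractors μ (rotated f s) := by
  have hTT : (S.T : B → B) = T := funext hT
  have ergS : Ergodic S.T m := by rw [hTT]; exact erg
  have hrot : ∀ (s : ℝ) (x : B) (y : ℝ), rotated f s (x, (y : UnitAddCircle)) =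
      (T x, ((S.F x y + s : ℝ) : UnitAddCircle)) := by
    intro s x y
    show ((f (x, (y : UnitAddCircle))).1, (f (x, (y : UnitAddCircle))).2 + (s : UnitAddCircle)) = _
    rw [hf]
    rfl
  obtain ⟨ν, hν1, hν2, hν3⟩ := exists_erg_lift (f := rotated f a) (π := Prod.fst) (T := T) (m := m)
    (rotated f a).continuous continuous_fst (fun p => by
      obtain ⟨t, ht⟩ : ∃ t : ℝ, (t : UnitAddCircle) = p.2 := QuotientAddGroup.mk_surjective p.2
      have : p = (p.1, (t : UnitAddCircle)) := by rw [ht]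
      rw [this, hrot]) erg (μ := m.prod (Measure.dirac (0 : Circ))) (by
      rw [Measure.map_fst_prod, measure_univ, one_smul])
  set τ : (B × Circ) ≃ᵐ (B × Circ) := (rotated f a).toMeasurableEquiv with hτdef
  have hτ : ∀ (x : B) (y : ℝ),
      τ (x, (y : UnitAddCircle)) = (S.T x, ((S.F x y + a : ℝ) : UnitAddCircle)) := by
    intro x y
    rw [hT]
    exact hrot a x y
  have erg' : Ergodic (S.ext a τ).T ν := hν2
  have hs := (S.ext a τ).sard erg'
  have hae : ∀ᵐ s : ℝ, s ∉ {s : ℝ | ∃ φ, ((S.ext a τ).add s).Gr ν φ ∧ (S.ext a τ).ex ν φ = 0} :=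
    measure_eq_zero_iff_ae_notMem.1 hs
  filter_upwards [hae] with s hs1 has hsb
  have hα := S.ext_gr ergS per has hsb hl hτ hν3
  refine finiteAttractors_factor ((S.ext a τ).add s) erg' Prod.fst measurable_fst hν3 T ?_
    (rotated f s) ?_ ?_ ?_ hα μ hμ hμ'
  · intro p
    obtain ⟨t, ht⟩ : ∃ t : ℝ, (t : UnitAddCircle) = p.2 := QuotientAddGroup.mk_surjective p.2
    have : p = (p.1, (t : UnitAddCircle)) := by rw [ht]
    rw [this]
    show (τ (p.1, (t : UnitAddCircle))).1 = T p.1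
    rw [hτ, hT]
  · intro p y
    rw [hrot]
    obtain ⟨k, hk⟩ := S.nn_int hτ p
    congr 1
    show ((S.F p.1 y + s : ℝ) : UnitAddCircle) = ((S.F p.1 y - S.nn a τ p + s : ℝ) : UnitAddCircle)
    rw [hk, show S.F p.1 y - (k : ℝ) + s = S.F p.1 y + s - k by ring]
    rw [AddCircle.coe_sub _ (S.F p.1 y + s)]
    have : (((k : ℤ) : ℝ) : UnitAddCircle) = 0 := by
      rw [AddCircle.coe_eq_zero_iff]
      exact ⟨k, by simp⟩
    rw [this, sub_zero]
  · intro p y
    show S.F p.1 (y + 1) - S.nn a τ p + s = S.F p.1 y - S.nn a τ p + s + 1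
    rw [per]; ring
  · intro φ hφ h0
    exact hs1 ⟨φ, hφ, h0⟩

end

end Pool.Agent.TH525.PF
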