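import Pool.Agent.TH525.PF.Sard2

/-! # Finitely many graphs if no graph is neutral -/

set_option autoImplicit false

open Set Filter Topology MeasureTheory

namespace Pool.Agent.TH525.PF

namespace Sys

variable {X : Type*} [MeasurableSpace X] (S : Sys X) {m : Measure X} [IsProbabilityMeasure m]

/-- a limit of pairwise different graphs is neutral -/
theorem accum (erg : Ergodic S.T m) (φ : ℕ → X → ℝ) (hφ : ∀ n, S.Gr m (φ n))
    (hne : ∀ n, ∀ᵐ x ∂m, φ n x ≠ φ (n + 1) x) (ψ : X → ℝ) (mψ : Measurable ψ)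
    (hlim : ∀ᵐ x ∂m, Tendsto (fun n => φ n x) atTop (𝓝 (ψ x))) :
    S.Gr m ψ ∧ S.ex m ψ = 0 := by
  have hT := erg.toMeasurePreserving
  refine ⟨⟨mψ, ?_⟩, ?_⟩
  · have h1 : ∀ᵐ x ∂m, ∀ n, S.F x (φ n x) = φ n (S.T x) := ae_all_iff.2 fun n => (hφ n).2
    have h2 : ∀ᵐ x ∂m, Tendsto (fun n => φ n (S.T x)) atTop (𝓝 (ψ (S.T x))) :=
      hT.quasiMeasurePreserving.ae hlim
    filter_upwards [h1, h2, hlim] with x a b c
    have d : Tendsto (fun n => S.F x (φ n x)) atTop (𝓝 (S.F x (ψ x))) :=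
      ((S.cont x).tendsto _).comp c
    simp only [a] at d
    exact tendsto_nhds_unique d b
  · have hne' : ∀ᵐ x ∂m, ∀ n, φ n x ≠ φ (n + 1) x := ae_all_iff.2 hne
    have mq : ∀ n, Measurable (S.quo (φ n) (φ (n + 1))) := fun n =>
      S.quo_meas (hφ n).1 (hφ (n + 1)).1
    have hq : ∀ n, ∀ᵐ x ∂m, S.L⁻¹ ≤ S.quo (φ n) (φ (n + 1)) x ∧
        S.quo (φ n) (φ (n + 1)) x ≤ S.L := by
      intro n
      filter_upwards [hne n] with x hx
      obtain ⟨ξ, -, -, h3⟩ := S.quo_eq hx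
      rw [h3]
      exact ⟨S.lo _ _, S.hi _ _⟩
    have hz : ∀ n, ∫ x, Real.log (S.quo (φ n) (φ (n + 1)) x) ∂m = 0 := by
      intro n
      refine int_eq_zero hT (g := fun x => Real.log |φ (n + 1) x - φ n x|)
        (((hφ (n + 1)).1.sub (hφ n).1).abs.log) (int_logq S.L1 (mq n) (hq n)) ?_
      have hneT : ∀ᵐ x ∂m, φ n (S.T x) ≠ φ (n + 1) (S.T x) :=
        hT.quasiMeasurePreserving.ae (hne n)
      filter_upwards [hne n, hneT, (hφ n).2, (hφ (n + 1)).2, hq n] with x a a' b c d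
      have h1 : 0 < |φ (n + 1) x - φ n x| := abs_pos.2 (sub_ne_zero.2 a.symm)
      have hq0 : 0 < S.quo (φ n) (φ (n + 1)) x := (inv_pos.2 S.Lpos).trans_le d.1
      have h2 : |φ (n + 1) (S.T x) - φ n (S.T x)| =
          S.quo (φ n) (φ (n + 1)) x * |φ (n + 1) x - φ n x| := by
        rw [← b, ← c, ← S.quo_mul a, abs_mul, abs_of_pos hq0]
      rw [h2, Real.log_mul hq0.ne' h1.ne']
      ring
    have lim : Tendsto (fun n => ∫ x, Real.log (S.quo (φ n) (φ (n + 1)) x) ∂m) atTop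
        (𝓝 (∫ x, Real.log (S.G x (ψ x)) ∂m)) := by
      refine tendsto_integral_of_dominated_convergence (fun _ => Real.log S.L)
        (fun n => (mq n).log.aestronglyMeasurable) (integrable_const _) ?_ ?_
      · intro n
        filter_upwards [hne n] with x hx
        obtain ⟨ξ, -, -, h3⟩ := S.quo_eq hx
        rw [h3, Real.norm_eq_abs]
        exact S.abs_log _ _
      · filter_upwards [hne', hlim] with x a b
        rw [Metric.tendsto_atTop']
        intro c hc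
        obtain ⟨ρ, hρ, h⟩ := S.mod (c / 2) (half_pos hc)
        have b' : Tendsto (fun n => φ (n + 1) x) atTop (𝓝 (ψ x)) :=
          (tendsto_add_atTop_iff_nat 1).2 b
        have e1 : Tendsto (fun n => |φ (n + 1) x - φ n x| + |φ n x - ψ x|) atTop (𝓝 0) := by
          have h1 := (b'.sub b).abs
          have h2 := (b.sub_const (ψ x)).abs
          simpa using h1.add h2
        obtain ⟨N, hN⟩ := eventually_atTop.1 (e1.eventually (gt_mem_nhds hρ))
        refine ⟨N, fun n hn => ?_⟩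
        obtain ⟨ξ, h1, -, h3⟩ := S.quo_eq (a n)
        rw [Real.dist_eq, h3]
        refine (h x _ _ ?_).trans_lt (by linarith)
        have h4 := hN n hn.le
        have h5 : |ξ - ψ x| ≤ |ξ - φ n x| + |φ n x - ψ x| := by
          have := abs_add_le (ξ - φ n x) (φ n x - ψ x)
          rwa [sub_add_sub_cancel] at this
        linarith
    simp only [hz] at lim
    exact (tendsto_nhds_unique lim tendsto_const_nhds)

/-- Finitely many graphs in a window if no graph is neutral. -/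
theorem finite (erg : Ergodic S.T m) (hno : ∀ φ, S.Gr m φ → S.ex m φ ≠ 0) {a b : X → ℝ} :
    (ef m '' {φ | S.Gr m φ ∧ ∀ᵐ x ∂m, a x ≤ φ x ∧ φ x ≤ b x}).Finite := by
  by_contra hinf
  have hinf' : (ef m '' {φ | S.Gr m φ ∧ ∀ᵐ x ∂m, a x ≤ φ x ∧ φ x ≤ b x}).Infinite := hinf
  set v := hinf'.natEmbedding with hv
  have hv1 : ∀ n, ∃ φ, (S.Gr m φ ∧ ∀ᵐ x ∂m, a x ≤ φ x ∧ φ x ≤ b x) ∧ ef m φ = (v n : ℝ) :=
    fun n => (v n).2
  choose Φ hΦ1 hΦ2 using hv1
  have hvinj : ∀ n k, n ≠ k → (v n : ℝ) ≠ v k := fun n k hnk h =>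
    hnk (v.injective (Subtype.ext h))
  -- order from the values of `ef`
  have hord : ∀ n k, (v n : ℝ) < v k → ∀ᵐ x ∂m, Φ n x < Φ k x := by
    intro n k h
    rcases S.tri erg (hΦ1 n).1 (hΦ1 k).1 with h1 | h1 | h1
    · exact h1
    · have : ef m (Φ n) = ef m (Φ k) := by
        unfold ef
        refine integral_congr_ae ?_
        filter_upwards [h1] with x hx
        rw [hx]
      rw [hΦ2, hΦ2] at this
      exact absurd this h.ne
    · have := ef_lt (hΦ1 k).1.1 (hΦ1 n).1.1 h1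
      rw [hΦ2, hΦ2] at this
      exact absurd this (not_lt.2 h.le)
  obtain ⟨g, hg⟩ := exists_increasing_or_nonincreasing_subseq (fun x y : ℝ => x < y)
    (fun n => (v n : ℝ))
  have hbd : ∀ᵐ x ∂m, ∀ n, a x ≤ Φ n x ∧ Φ n x ≤ b x := ae_all_iff.2 fun n => (hΦ1 n).2
  rcases hg with hg | hg
  · have h1 : ∀ᵐ x ∂m, ∀ n, Φ (g n) x < Φ (g (n + 1)) x :=
      ae_all_iff.2 fun n => hord _ _ (hg n (n + 1) (Nat.lt_succ_self n))
    have h2 : ∀ᵐ x ∂m, Tendsto (fun n => Φ (g n) x) atTop (𝓝 (⨆ n, Φ (g n) x)) := by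
      filter_upwards [h1, hbd] with x hx hb
      refine tendsto_atTop_ciSup (monotone_nat_of_le_succ fun n => (hx n).le) ?_
      exact ⟨b x, by rintro _ ⟨n, rfl⟩; exact (hb _).2⟩
    obtain ⟨h3, h4⟩ := S.accum erg (fun n => Φ (g n)) (fun n => (hΦ1 _).1)
      (fun n => by filter_upwards [h1] with x hx using (hx n).ne) _
      (Measurable.iSup fun n => (hΦ1 (g n)).1.1) h2
    exact hno _ h3 h4
  · have hg' : ∀ n, (v (g (n + 1)) : ℝ) < v (g n) := by
      intro n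
      refine lt_of_le_of_ne (not_lt.1 (hg n (n + 1) (Nat.lt_succ_self n))) ?_
      refine hvinj _ _ ?_
      intro h
      have := g.injective h
      omega
    have h1 : ∀ᵐ x ∂m, ∀ n, Φ (g (n + 1)) x < Φ (g n) x :=
      ae_all_iff.2 fun n => hord _ _ (hg' n)
    have h2 : ∀ᵐ x ∂m, Tendsto (fun n => Φ (g n) x) atTop (𝓝 (⨅ n, Φ (g n) x)) := by
      filter_upwards [h1, hbd] with x hx hb
      refine tendsto_atTop_ciInf (antitone_nat_of_succ_le fun n => (hx n).le) ?_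
      exact ⟨a x, by rintro _ ⟨n, rfl⟩; exact (hb _).1⟩
    obtain ⟨h3, h4⟩ := S.accum erg (fun n => Φ (g n)) (fun n => (hΦ1 _).1)
      (fun n => by filter_upwards [h1] with x hx using (hx n).ne') _
      (Measurable.iInf fun n => (hΦ1 (g n)).1.1) h2
    exact hno _ h3 h4

/-- A finite list of representatives of the graphs in a window. -/
theorem exists_reps (erg : Ergodic S.T m) (hno : ∀ φ, S.Gr m φ → S.ex m φ ≠ 0) (a b : X → ℝ) :
    ∃ A : Finset (X → ℝ), (∀ φ ∈ A, S.Gr m φ ∧ ∀ᵐ x ∂m, a x ≤ φ x ∧ φ x ≤ b x) ∧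
      ∀ ψ, S.Gr m ψ → (∀ᵐ x ∂m, a x ≤ ψ x ∧ ψ x ≤ b x) → ∃ φ ∈ A, ∀ᵐ x ∂m, ψ x = φ x := by
  classical
  have hfin := S.finite erg hno (a := a) (b := b)
  set V := ef m '' {φ | S.Gr m φ ∧ ∀ᵐ x ∂m, a x ≤ φ x ∧ φ x ≤ b x} with hV
  have hch : ∀ v ∈ V, ∃ φ, (S.Gr m φ ∧ ∀ᵐ x ∂m, a x ≤ φ x ∧ φ x ≤ b x) ∧ ef m φ = v :=
    fun v hv => hv
  choose! Φ hΦ1 hΦ2 using hch
  refine ⟨hfin.toFinset.image Φ, ?_, ?_⟩
  · intro φ hφ
    rw [Finset.mem_image] at hφ
    obtain ⟨v, hv, rfl⟩ := hφ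
    exact hΦ1 v (hfin.mem_toFinset.1 hv)
  · intro ψ hψ hw
    have hv : ef m ψ ∈ V := ⟨ψ, ⟨hψ, hw⟩, rfl⟩
    refine ⟨Φ (ef m ψ), Finset.mem_image_of_mem _ (hfin.mem_toFinset.2 hv), ?_⟩
    rcases S.tri erg hψ (hΦ1 _ hv).1 with h | h | h
    · exact absurd (hΦ2 _ hv) (ef_lt hψ.1 (hΦ1 _ hv).1.1 h).ne'
    · exact h
    · exact absurd (hΦ2 _ hv) (ef_lt (hΦ1 _ hv).1.1 hψ.1 h).ne

end Sys

end Pool.Agent.TH525.PF
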