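import Pool.Agent.TH525.PF.Main

/-! # Parameters without zero exponents -/

set_option autoImplicit false

open Set Filter Topology MeasureTheory

namespace Pool.Agent.TH525.PF

open Pool.Agent.H728R2.OS Pool.Agent.H728R2.FA

/-- The fibre Lyapunov exponent of an invariant measure: the integral of the logarithm of the
derivative of the fibre maps. (`rep c ∈ [0, 1)` represents the point `c` of the circle.) -/
noncomputable def exponent {B : Type*} [MeasurableSpace B] (F : B → ℝ → ℝ)
    (ν : Measure (B × Circ)) : ℝ :=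
  ∫ p, Real.log (deriv (F p.1) (rep p.2)) ∂ν

section

variable {B : Type*} [MetricSpace B] [CompactSpace B] [MeasurableSpace B] [BorelSpace B]
  {m : Measure B} [IsProbabilityMeasure m]

omit [IsProbabilityMeasure m] in
theorem exists_sys' (T : B ≃ₜ B) {f : B × Circ → B × Circ} {F : B → ℝ → ℝ}
    (h : FibreLift T f F) : ∃ S : Sys B, (∀ x, S.T x = T x) ∧ S.F = F ∧
      ∀ (k : ℤ) x y, S.G x (y + k) = S.G x y := by
  obtain ⟨S, h1, h2⟩ := exists_sys T h
  refine ⟨S, h1, h2, fun k x y => ?_⟩
  exact G_int (F := S.F) (G := S.G) (by rw [h2]; exact h.degree) S.der k x y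

/-- **No zero exponents: finitely many attractors.** -/
theorem hyp_finite (T : B ≃ₜ B) (erg : Ergodic T m) (f : (B × Circ) ≃ₜ (B × Circ))
    {F : B → ℝ → ℝ} (hF : FibreLift T f F)
    (μ : Measure (B × Circ)) (hμ : μ ≪ m.prod volume) (hμ' : m.prod volume ≪ μ) (θ : ℝ)
    (hno : ∀ ν : Measure (B × Circ), IsProbabilityMeasure ν → Ergodic (rotated f θ) ν →
      ν.map Prod.fst = m → exponent F ν ≠ 0) :
    FiniteAttractors μ (rotated f θ) := by
  obtain ⟨S, hT, rfl, hper⟩ := exists_sys' T hF
  have hTT : (S.T : B → B) = T := funext hT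
  have ergS : Ergodic S.T m := by rw [hTT]; exact erg
  have mcoe : Measurable (fun t : ℝ => (t : UnitAddCircle)) := (AddCircle.continuous_mk' 1).measurable
  have hrot : ∀ (s : ℝ) (x : B) (y : ℝ), rotated f s (x, (y : UnitAddCircle)) =
      (T x, ((S.F x y + s : ℝ) : UnitAddCircle)) := by
    intro s x y
    show ((f (x, (y : UnitAddCircle))).1, (f (x, (y : UnitAddCircle))).2 + (s : UnitAddCircle)) = _
    rw [hF.lift]
    rfl
  have hfst : ∀ (s : ℝ) (p : B × Circ), (rotated f s p).1 = T p.1 := by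
    intro s p
    obtain ⟨t, ht⟩ : ∃ t : ℝ, (t : UnitAddCircle) = p.2 := QuotientAddGroup.mk_surjective p.2
    have : p = (p.1, (t : UnitAddCircle)) := by rw [ht]
    rw [this, hrot]
  obtain ⟨ν, hν1, hν2, hν3⟩ := exists_erg_lift (f := rotated f θ) (π := Prod.fst) (T := T) (m := m)
    (rotated f θ).continuous continuous_fst (hfst θ) erg (μ := m.prod (Measure.dirac (0 : Circ))) (by
      rw [Measure.map_fst_prod, measure_univ, one_smul])
  set τ : (B × Circ) ≃ᵐ (B × Circ) := (rotated f θ).toMeasurableEquiv with hτdef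
  have hτ : ∀ (x : B) (y : ℝ),
      τ (x, (y : UnitAddCircle)) = (S.T x, ((S.F x y + θ : ℝ) : UnitAddCircle)) := by
    intro x y
    rw [hT]
    exact hrot θ x y
  have erg' : Ergodic (S.ext θ τ).T ν := hν2
  set S' := (S.ext θ τ).add θ with hS'
  have hα : S'.Gr ν (fun p => rep p.2) := by
    refine ⟨rep_meas.comp measurable_snd, Eventually.of_forall fun p => ?_⟩
    show S.F p.1 (rep p.2) - S.nn θ τ p + θ = rep (τ p).2
    rw [Sys.nn]; ring
  have hlift : ∀ (p : B × Circ) (y : ℝ), rotated f θ (p.1, (y : UnitAddCircle)) =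
      (T p.1, (S'.F p y : UnitAddCircle)) := by
    intro p y
    rw [hrot]
    obtain ⟨k, hk⟩ := S.nn_int hτ p
    congr 1
    show ((S.F p.1 y + θ : ℝ) : UnitAddCircle) = ((S.F p.1 y - S.nn θ τ p + θ : ℝ) : UnitAddCircle)
    rw [hk, show S.F p.1 y - (k : ℝ) + θ = S.F p.1 y + θ - k by ring]
    rw [AddCircle.coe_sub _ (S.F p.1 y + θ)]
    have : (((k : ℤ) : ℝ) : UnitAddCircle) = 0 := by
      rw [AddCircle.coe_eq_zero_iff]
      exact ⟨k, by simp⟩
    rw [this, sub_zero]
  refine finiteAttractors_factor S' erg' Prod.fst measurable_fst hν3 T (hfst θ)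
    (rotated f θ) hlift ?_ ?_ hα μ hμ hμ'
  · intro p y
    show S.F p.1 (y + 1) - S.nn θ τ p + θ = S.F p.1 y - S.nn θ τ p + θ + 1
    rw [hF.degree]; ring
  · intro φ hφ h0
    -- the image measure
    set Φ : B × Circ → B × Circ := fun p => (p.1, (φ p : UnitAddCircle)) with hΦ
    have mΦ : Measurable Φ := measurable_fst.prodMk (mcoe.comp hφ.1)
    have hprob : IsProbabilityMeasure (ν.map Φ) := Measure.isProbabilityMeasure_map mΦ.aemeasurable
    have hsemi : ∀ᵐ p ∂ν, rotated f θ (Φ p) = Φ (τ p) := by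
      filter_upwards [hφ.2] with p hp
      rw [hΦ]
      show rotated f θ (p.1, (φ p : UnitAddCircle)) = ((τ p).1, (φ (τ p) : UnitAddCircle))
      rw [hlift, hp]
      exact Prod.ext (hfst θ p).symm rfl
    have hinv : MeasurePreserving (rotated f θ) (ν.map Φ) (ν.map Φ) := by
      refine ⟨(rotated f θ).continuous.measurable, ?_⟩
      rw [Measure.map_map (rotated f θ).continuous.measurable mΦ]
      have h1 : (rotated f θ : B × Circ → B × Circ) ∘ Φ =ᵐ[ν] Φ ∘ τ := hsemi
      rw [Measure.map_congr h1, ← Measure.map_map mΦ τ.measurable]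
      congr 1
      exact hν2.toMeasurePreserving.map_eq
    have hergΦ : Ergodic (rotated f θ) (ν.map Φ) := by
      refine ⟨hinv, ⟨fun A hA hfA => ?_⟩⟩
      have h1 : τ ⁻¹' (Φ ⁻¹' A) =ᵐ[ν] Φ ⁻¹' A := by
        filter_upwards [hsemi] with p hp
        apply propext
        show Φ (τ p) ∈ A ↔ Φ p ∈ A
        rw [← hp]
        have : rotated f θ (Φ p) ∈ A ↔ Φ p ∈ (rotated f θ : B × Circ → B × Circ) ⁻¹' A := Iff.rfl
        rw [this, hfA]
      have h2 := (show Ergodic τ ν from hν2).quasiErgodic.ae_empty_or_univ₀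
        (mΦ hA).nullMeasurableSet h1
      rw [eventuallyConst_set]
      rcases h2 with h2 | h2
      · right
        have h3 : ν (Φ ⁻¹' A) = 0 := ae_eq_empty.1 h2
        rw [ae_iff]
        have : {a | ¬ a ∉ A} = A := by ext a; simp
        show (ν.map Φ) {a | ¬ a ∉ A} = 0
        rw [this, Measure.map_apply mΦ hA, h3]
      · left
        have h3 : ν (Φ ⁻¹' A)ᶜ = 0 := ae_eq_univ.1 h2
        rw [ae_iff]
        show (ν.map Φ) Aᶜ = 0
        rw [Measure.map_apply mΦ hA.compl]
        exact h3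
    refine hno (ν.map Φ) hprob hergΦ ?_ ?_
    · rw [Measure.map_map measurable_fst mΦ]
      exact hν3
    · have mG : Measurable fun p : B × Circ => Real.log (deriv (S.F p.1) (rep p.2)) := by
        have : (fun p : B × Circ => Real.log (deriv (S.F p.1) (rep p.2))) =
            fun p => Real.log (S.G p.1 (rep p.2)) := funext fun p => by
          rw [(S.der p.1 (rep p.2)).deriv]
        rw [this]
        exact (S.mG.comp (measurable_fst.prodMk (rep_meas.comp measurable_snd))).log
      rw [exponent, integral_map mΦ.aemeasurable mG.aestronglyMeasurable]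
      have h3 : ∀ p : B × Circ, Real.log (deriv (S.F (Φ p).1) (rep (Φ p).2)) =
          Real.log (S'.G p (φ p)) := by
        intro p
        show Real.log (deriv (S.F p.1) (rep ((φ p : ℝ) : UnitAddCircle))) = Real.log (S.G p.1 (φ p))
        rw [(S.der p.1 _).deriv]
        have h4 : ((φ p - rep ((φ p : ℝ) : UnitAddCircle) : ℝ) : UnitAddCircle) = 0 := by
          rw [AddCircle.coe_sub, rep_coe, sub_self]
        rw [AddCircle.coe_eq_zero_iff] at h4
        obtain ⟨k, hk⟩ := h4
        have h5 : φ p = rep ((φ p : ℝ) : UnitAddCircle) + k := by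
          have : (k : ℝ) = φ p - rep ((φ p : ℝ) : UnitAddCircle) := by rw [← hk]; simp
          rw [this]; ring
        congr 1
        conv_rhs => rw [h5]
        exact (hper k p.1 _).symm
      simp_rw [h3]
      exact h0

/-- **Main theorem, general form.** -/
theorem main_gen (T : B ≃ₜ B) (erg : Ergodic T m) (f : (B × Circ) ≃ₜ (B × Circ))
    {F : B → ℝ → ℝ} (hF : FibreLift T f F)
    (μ : Measure (B × Circ)) (hμ : μ ≪ m.prod volume) (hμ' : m.prod volume ≪ μ) :
    ∀ᵐ θ : ℝ, FiniteAttractors μ (rotated f θ) ∨ (¬ ModeLocked m T F θ ∧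
      ∃ ν : Measure (B × Circ), IsProbabilityMeasure ν ∧ Ergodic (rotated f θ) ν ∧
        ν.map Prod.fst = m ∧ exponent F ν = 0) := by
  filter_upwards [main T erg f hF μ hμ hμ'] with θ hθ
  by_cases h1 : ModeLocked m T F θ
  · exact Or.inl (hθ h1)
  · by_cases h2 : ∃ ν : Measure (B × Circ), IsProbabilityMeasure ν ∧ Ergodic (rotated f θ) ν ∧
        ν.map Prod.fst = m ∧ exponent F ν = 0
    · exact Or.inr ⟨h1, h2⟩
    · left
      refine hyp_finite T erg f hF μ hμ hμ' θ fun ν a b c d => h2 ⟨ν, a, b, c, d⟩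

end

end Pool.Agent.TH525.PF
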