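import Pool.Agent.TH525.PF.Ext

/-! # Skew products with circle fibres: almost every mode-locked rotation has finitely many attractors -/

set_option autoImplicit false

open Set Filter Topology MeasureTheory

namespace Pool.Agent.TH525.PF

open Pool.Agent.H728R2.OS Pool.Agent.H728R2.FA

/-- `F` is a lift of the fibre maps of the skew product `f (x, y) = (T x, f_x y)`: each
`F x : ℝ → ℝ` is a lift of degree one of `f_x`, with a positive derivative which depends
continuously on `(x, y)`. In the variable `x` the lift is only required to be measurable. -/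
structure FibreLift {B : Type*} [TopologicalSpace B] [MeasurableSpace B] (T : B → B)
    (f : B × Circ → B × Circ) (F : B → ℝ → ℝ) : Prop where
  meas : Measurable (Function.uncurry F)
  lift : ∀ (x : B) (y : ℝ), f (x, (y : UnitAddCircle)) = (T x, (F x y : UnitAddCircle))
  degree : ∀ x y, F x (y + 1) = F x y + 1
  deriv : ∃ G : B → ℝ → ℝ, Continuous (Function.uncurry G) ∧
    ∀ x y, HasDerivAt (F x) (G x y) y ∧ 0 < G x y

/-- The orbit of `y ∈ ℝ` under the lifts `F x + θ`, `F (T x) + θ`, `F (T² x) + θ`, … of the fibre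
maps of `rotated f θ`. -/
def orb {B : Type*} (T : B → B) (F : B → ℝ → ℝ) (θ : ℝ) : ℕ → B → ℝ → ℝ
  | 0, _, y => y
  | n + 1, x, y => F (T^[n] x) (orb T F θ n x y) + θ

/-- The fibred rotation numbers of `rotated f a` and `rotated f b` (the limits of
`orb T F θ n x 0 / n`) are the same. -/
def SameRotation {B : Type*} [MeasurableSpace B] (m : Measure B) (T : B → B) (F : B → ℝ → ℝ)
    (a b : ℝ) : Prop :=
  ∀ᵐ x ∂m, Tendsto (fun n : ℕ => (orb T F b n x 0 - orb T F a n x 0) / n) atTop (𝓝 0)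

/-- `rotated f θ` is mode-locked: the fibred rotation number does not change at `θ`. -/
def ModeLocked {B : Type*} [MeasurableSpace B] (m : Measure B) (T : B → B) (F : B → ℝ → ℝ)
    (θ : ℝ) : Prop :=
  ∃ ε : ℝ, 0 < ε ∧ SameRotation m T F (θ - ε) (θ + ε)

section

variable {B : Type*} [MetricSpace B] [CompactSpace B] [MeasurableSpace B] [BorelSpace B]

omit [MetricSpace B] [CompactSpace B] [MeasurableSpace B] [BorelSpace B] in
theorem G_int {F G : B → ℝ → ℝ} (per : ∀ x y, F x (y + 1) = F x y + 1)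
    (hG : ∀ x y, HasDerivAt (F x) (G x y) y) (k : ℤ) (x : B) (y : ℝ) : G x (y + k) = G x y := by
  have h1 : ∀ y, G x (y + 1) = G x y := by
    intro y
    have e1 : HasDerivAt (fun t => F x (t + 1)) (G x (y + 1)) y := (hG x (y + 1)).comp_add_const y 1
    have e2 : HasDerivAt (fun t => F x (t + 1)) (G x y) y := by
      have : (fun t => F x (t + 1)) = fun t => F x t + 1 := funext fun t => per x t
      rw [this]
      exact (hG x y).add_const 1
    exact e1.unique e2
  exact (Function.Periodic.int_mul (f := G x) (c := 1) h1 k |>.comp id) y |>.trans rfl |> fun h => by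
    simpa using h

/-- The measurable system of a continuous skew product. -/
theorem exists_sys (T : B ≃ₜ B) {f : B × Circ → B × Circ} {F : B → ℝ → ℝ}
    (h : FibreLift T f F) : ∃ S : Sys B, (∀ x, S.T x = T x) ∧ S.F = F := by
  obtain ⟨G, hGc, hG⟩ := h.deriv
  have hGi := G_int h.degree fun x y => (hG x y).1
  rcases isEmpty_or_nonempty B with hB | hB
  · refine ⟨⟨T.toMeasurableEquiv, F, G, 1, h.meas, hGc.measurable, fun x => (hG x · |>.1), le_rfl,
      fun x => isEmptyElim x, fun x => isEmptyElim x, fun c _ => ⟨1, one_pos, fun x => isEmptyElim x⟩⟩,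
      fun x => rfl, rfl⟩
  have hK : IsCompact ((univ : Set B) ×ˢ Icc (-1 : ℝ) 2) := isCompact_univ.prod isCompact_Icc
  have hlog : ContinuousOn (fun p : B × ℝ => Real.log (Function.uncurry G p))
      ((univ : Set B) ×ˢ Icc (-1 : ℝ) 2) :=
    (hGc.log fun p => (hG p.1 p.2).2.ne').continuousOn
  obtain ⟨C, hC⟩ := hK.exists_bound_of_continuousOn hlog
  have hC0 : 0 ≤ C := by
    obtain ⟨x0⟩ := hB
    exact (norm_nonneg _).trans (hC (x0, 0) ⟨mem_univ _, by norm_num, by norm_num⟩)
  have hbd : ∀ x y, |Real.log (G x y)| ≤ C := by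
    intro x y
    have h1 := hC (x, y - ⌊y⌋) ⟨mem_univ _, by
      have := Int.floor_le y
      have := Int.lt_floor_add_one y
      constructor <;> linarith⟩
    have h2 := hGi ⌊y⌋ x (y - ⌊y⌋)
    rw [sub_add_cancel] at h2
    rw [h2]
    exact h1
  refine ⟨⟨T.toMeasurableEquiv, F, G, Real.exp C, h.meas, hGc.measurable, fun x y => (hG x y).1,
      Real.one_le_exp hC0, ?_, ?_, ?_⟩, fun x => rfl, rfl⟩
  · intro x y
    rw [← Real.exp_neg, ← Real.le_log_iff_exp_le (hG x y).2]
    exact (abs_le.1 (hbd x y)).1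
  · intro x y
    rw [← Real.log_le_iff_le_exp (hG x y).2]
    exact (abs_le.1 (hbd x y)).2
  · intro c hc
    have huc := hK.uniformContinuousOn_of_continuous hlog
    rw [Metric.uniformContinuousOn_iff] at huc
    obtain ⟨δ, hδ, hδ2⟩ := huc c hc
    refine ⟨min δ 1, lt_min hδ one_pos, fun x y y' hyy => ?_⟩
    have f1 := Int.floor_le y
    have f2 := Int.lt_floor_add_one y
    have f3 := abs_lt.1 (hyy.trans_le (min_le_right _ _))
    have h1 := hδ2 (x, y - ⌊y⌋) ⟨mem_univ _, by
      constructor <;> linarith⟩ (x, y' - ⌊y⌋) ⟨mem_univ _, by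
      constructor <;> linarith [f3.1, f3.2]⟩ (by
        rw [Prod.dist_eq, dist_self, max_eq_right dist_nonneg, Real.dist_eq]
        rw [show y - ↑⌊y⌋ - (y' - ↑⌊y⌋) = y - y' by ring]
        exact hyy.trans_le (min_le_left _ _))
    rw [Real.dist_eq] at h1
    have h2 := hGi ⌊y⌋ x (y - ⌊y⌋)
    have h3 := hGi ⌊y⌋ x (y' - ⌊y⌋)
    rw [sub_add_cancel] at h2 h3
    rw [h2, h3]
    exact h1.le

omit [CompactSpace B] [BorelSpace B] in
theorem orb_eq (S : Sys B) (T : B ≃ₜ B) (hT : ∀ x, S.T x = T x) (θ : ℝ) (n : ℕ) (x : B) (y : ℝ) :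
    orb T S.F θ n x y = (S.add θ).it n x y := by
  have hTn : (S.T : B → B) = T := funext hT
  induction n with
  | zero => rfl
  | succ n ih =>
    rw [orb, ih, Sys.it_succ, Sys.add_F, Sys.add_T, hTn]

variable {m : Measure B} [IsProbabilityMeasure m]

/-- **Main theorem, intervals.** -/
theorem main_interval (T : B ≃ₜ B) (erg : Ergodic T m) (f : (B × Circ) ≃ₜ (B × Circ))
    {F : B → ℝ → ℝ} (hF : FibreLift T f F)
    (μ : Measure (B × Circ)) (hμ : μ ≪ m.prod volume) (hμ' : m.prod volume ≪ μ)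
    {a b : ℝ} (hl : SameRotation m T F a b) :
    ∀ᵐ s : ℝ, a ≤ s → s ≤ b → FiniteAttractors μ (rotated f s) := by
  obtain ⟨S, hT, rfl⟩ := exists_sys T hF
  refine locked_ae S T hT erg f hF.lift hF.degree μ hμ hμ' ?_
  filter_upwards [hl] with x hx
  refine hx.congr fun n => ?_
  rw [orb_eq S T hT, orb_eq S T hT]
  rfl

/-- **Main theorem.** -/
theorem main (T : B ≃ₜ B) (erg : Ergodic T m) (f : (B × Circ) ≃ₜ (B × Circ))
    {F : B → ℝ → ℝ} (hF : FibreLift T f F)
    (μ : Measure (B × Circ)) (hμ : μ ≪ m.prod volume) (hμ' : m.prod volume ≪ μ) :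
    ∀ᵐ θ : ℝ, ModeLocked m T F θ → FiniteAttractors μ (rotated f θ) := by
  have h1 : ∀ q : ℚ × ℚ, ∀ᵐ θ : ℝ, SameRotation m T F q.1 q.2 → (q.1 : ℝ) ≤ θ → θ ≤ q.2 →
      FiniteAttractors μ (rotated f θ) := by
    intro q
    by_cases hq : SameRotation m T F q.1 q.2
    · filter_upwards [main_interval T erg f hF μ hμ hμ' hq] with θ hθ _ using hθ
    · exact Eventually.of_forall fun θ h => absurd h hq
  filter_upwards [ae_all_iff.2 h1] with θ hθ
  rintro ⟨ε, hε, hsame⟩
  obtain ⟨p, hp1, hp2⟩ := exists_rat_btwn (show θ - ε < θ by linarith)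
  obtain ⟨q, hq1, hq2⟩ := exists_rat_btwn (show θ < θ + ε by linarith)
  refine hθ (p, q) ?_ hp2.le hq1.le
  -- monotonicity
  obtain ⟨S, hT, rfl⟩ := exists_sys T hF
  have hmono : ∀ {s t : ℝ}, s ≤ t → ∀ n x, orb T S.F s n x 0 ≤ orb T S.F t n x 0 := by
    intro s t hst n x
    rw [orb_eq S T hT, orb_eq S T hT]
    exact S.gap0 hF.degree hst n x 0
  filter_upwards [hsame] with x hx
  refine squeeze_zero (fun n => ?_) (fun n => ?_) hx
  · exact div_nonneg (sub_nonneg.2 (hmono (by show (p : ℝ) ≤ q; linarith) n x)) (Nat.cast_nonneg n)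
  · refine div_le_div_of_nonneg_right ?_ (Nat.cast_nonneg n)
    exact sub_le_sub (hmono hq2.le n x) (hmono hp1.le n x)

end

end Pool.Agent.TH525.PF
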