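import Pool.Agent.TH525.PF.Cmp

/-! # Neutral graphs exist only for a null set of parameters -/

set_option autoImplicit false

open Set Filter Topology MeasureTheory

namespace Pool.Agent.TH525.PF

variable {X : Type*} [MeasurableSpace X] {m : Measure X} [IsProbabilityMeasure m]

theorem int_u {D : X → ℝ} {ε : ℝ} (mD : Measurable D) (hD : ∀ᵐ x ∂m, 0 < D x) (hε : 0 < ε) :
    Integrable (fun x => min (ε / D x) 1) m := by
  refine Integrable.of_bound ((measurable_const.div mD).min measurable_const).aestronglyMeasurable 1 ?_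
  filter_upwards [hD] with x hx
  have : 0 < ε / D x := div_pos hε hx
  rw [Real.norm_eq_abs, abs_of_nonneg (le_min this.le zero_le_one)]
  exact min_le_right _ _

theorem int_logq {q : X → ℝ} {L : ℝ} (hL : 1 ≤ L) (mq : Measurable q)
    (hq : ∀ᵐ x ∂m, L⁻¹ ≤ q x ∧ q x ≤ L) : Integrable (fun x => Real.log (q x)) m := by
  refine Integrable.of_bound mq.log.aestronglyMeasurable (Real.log L) ?_
  filter_upwards [hq] with x hx
  have hp : 0 < L⁻¹ := inv_pos.2 (by linarith)
  rw [Real.norm_eq_abs, abs_le, ← Real.log_inv]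
  exact ⟨Real.log_le_log hp hx.1, Real.log_le_log (hp.trans_le hx.1) hx.2⟩

theorem key_pos {T : X → X} (hT : MeasurePreserving T m m) {D q : X → ℝ} {L ε κ : ℝ} (hL : 1 ≤ L)
    (mD : Measurable D) (mq : Measurable q) (hD : ∀ᵐ x ∂m, 0 < D x)
    (hq : ∀ᵐ x ∂m, L⁻¹ ≤ q x ∧ q x ≤ L) (hε : 0 < ε)
    (H : ∀ᵐ x ∂m, D (T x) = q x * D x + ε) (hκ : -κ ≤ ∫ x, Real.log (q x) ∂m) :
    ∫ x, min (ε / D x) 1 ∂m ≤ (L + 1) * κ := by
  have i1 := int_u mD hD hε
  have i2 := int_logq hL mq hq
  have h1 := int_le_zero hT (g := fun x => Real.log (D x))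
    (h := fun x => Real.log (q x) + min (ε / D x) 1 / (L + 1)) mD.log (i2.add (i1.div_const _)) (by
      filter_upwards [hD, hq, H] with x hx hqx hH
      have hp : 0 < L⁻¹ := inv_pos.2 (by linarith)
      have q0 : 0 < q x := hp.trans_le hqx.1
      have e0 : 0 < ε / D x := div_pos hε hx
      set u := min (ε / D x) 1 with hu
      have u0 : 0 < u := lt_min e0 one_pos
      have u1 : u ≤ 1 := min_le_right _ _
      have e1 : Real.log (D (T x)) - Real.log (D x) = Real.log (q x + ε / D x) := by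
        rw [hH, ← Real.log_div (by positivity) hx.ne']
        congr 1
        field_simp
      have e2 : Real.log (q x + u) - Real.log (q x) = Real.log ((q x + u) / q x) := by
        rw [Real.log_div (by positivity) q0.ne']
      have e3 := Real.one_sub_inv_le_log_of_pos (show 0 < (q x + u) / q x by positivity)
      have e4 : 1 - ((q x + u) / q x)⁻¹ = u / (q x + u) := by field_simp; ring
      have e5 : u / (L + 1) ≤ u / (q x + u) := by
        apply div_le_div_of_nonneg_left u0.le (by positivity)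
        linarith [hqx.2]
      have e6 : Real.log (q x + u) ≤ Real.log (q x + ε / D x) :=
        Real.log_le_log (by positivity) (by have := min_le_left (ε / D x) 1; linarith)
      rw [e1]
      linarith)
  rw [integral_add i2 (i1.div_const _), integral_div] at h1
  have hL1 : 0 < L + 1 := by linarith
  have h2 : (∫ x, min (ε / D x) 1 ∂m) / (L + 1) ≤ κ := by linarith
  rw [div_le_iff₀ hL1] at h2
  linarith

theorem key_neg {T : X → X} (hT : MeasurePreserving T m m) {D q : X → ℝ} {L ε κ : ℝ} (hL : 1 ≤ L)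
    (mD : Measurable D) (mq : Measurable q) (hD : ∀ᵐ x ∂m, 0 < D x)
    (hq : ∀ᵐ x ∂m, L⁻¹ ≤ q x ∧ q x ≤ L) (hε : 0 < ε)
    (H : ∀ᵐ x ∂m, D (T x) = q x * D x - ε) (hκ : ∫ x, Real.log (q x) ∂m ≤ κ) :
    ∫ x, min (ε / D x) 1 ∂m ≤ L * κ := by
  have i1 := int_u mD hD hε
  have i2 := int_logq hL mq hq
  have hL0 : 0 < L := by linarith
  have hDT : ∀ᵐ x ∂m, 0 < D (T x) := hT.quasiMeasurePreserving.ae hD
  have h1 := zero_le_int hT (g := fun x => Real.log (D x))
    (h := fun x => Real.log (q x) - min (ε / D x) 1 / L) mD.log (i2.sub (i1.div_const _)) (by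
      filter_upwards [hD, hq, H, hDT] with x hx hqx hH hxT
      have hp : 0 < L⁻¹ := inv_pos.2 (by linarith)
      have q0 : 0 < q x := hp.trans_le hqx.1
      have e0 : 0 < ε / D x := div_pos hε hx
      set u := min (ε / D x) 1 with hu
      have u0 : 0 < u := lt_min e0 one_pos
      have e1 : Real.log (D (T x)) - Real.log (D x) = Real.log (q x - ε / D x) := by
        rw [← Real.log_div hxT.ne' hx.ne', hH]
        congr 1
        field_simp
      have e7 : 0 < q x - ε / D x := by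
        have : 0 < D (T x) / D x := div_pos hxT hx
        rw [hH] at this
        have e8 : (q x * D x - ε) / D x = q x - ε / D x := by field_simp
        rwa [e8] at this
      have e2 : Real.log (q x - ε / D x) - Real.log (q x) = Real.log ((q x - ε / D x) / q x) := by
        rw [Real.log_div e7.ne' q0.ne']
      have e3 := Real.log_le_sub_one_of_pos (show 0 < (q x - ε / D x) / q x by positivity)
      have e4 : (q x - ε / D x) / q x - 1 = - (ε / D x / q x) := by field_simp; ring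
      have e5 : u / L ≤ ε / D x / q x := by
        calc u / L ≤ ε / D x / L := by
              apply div_le_div_of_nonneg_right (min_le_left _ _) hL0.le
          _ ≤ ε / D x / q x := div_le_div_of_nonneg_left e0.le q0 hqx.2
      rw [e1]
      linarith)
  rw [integral_sub i2 (i1.div_const _), integral_div] at h1
  have h2 : (∫ x, min (ε / D x) 1 ∂m) / L ≤ κ := by linarith
  rw [div_le_iff₀ hL0] at h2
  linarith

namespace Sys

variable (S : Sys X)

/-- the difference quotient of the fibre maps -/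
noncomputable def quo (φ ψ : X → ℝ) (x : X) : ℝ := (S.F x (ψ x) - S.F x (φ x)) / (ψ x - φ x)

omit [IsProbabilityMeasure m] in
theorem quo_meas {φ ψ : X → ℝ} (hφ : Measurable φ) (hψ : Measurable ψ) : Measurable (S.quo φ ψ) :=
  ((S.measF hψ).sub (S.measF hφ)).div (hψ.sub hφ)

theorem quo_eq {φ ψ : X → ℝ} {x : X} (h : φ x ≠ ψ x) :
    ∃ ξ, |ξ - φ x| ≤ |ψ x - φ x| ∧ |ξ - ψ x| ≤ |ψ x - φ x| ∧ S.quo φ ψ x = S.G x ξ := by
  unfold quo
  rcases lt_or_gt_of_ne h with h | h
  · obtain ⟨ξ, h1, h2⟩ := S.slope x h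
    have h3 : 0 < ψ x - φ x := sub_pos.2 h
    refine ⟨ξ, ?_, ?_, ?_⟩
    · rw [abs_of_nonneg (by linarith [h1.1]), abs_of_pos h3]; linarith [h1.2]
    · rw [abs_of_nonpos (by linarith [h1.2]), abs_of_pos h3]; linarith [h1.1]
    · rw [h2, mul_div_cancel_right₀ _ h3.ne']
  · obtain ⟨ξ, h1, h2⟩ := S.slope x h
    have h3 : ψ x - φ x < 0 := sub_neg.2 h
    refine ⟨ξ, ?_, ?_, ?_⟩
    · rw [abs_of_nonpos (by linarith [h1.2]), abs_of_neg h3]; linarith [h1.1]
    · rw [abs_of_nonneg (by linarith [h1.1]), abs_of_neg h3]; linarith [h1.2]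
    · rw [show S.F x (ψ x) - S.F x (φ x) = S.G x ξ * (ψ x - φ x) by linarith,
        mul_div_cancel_right₀ _ h3.ne]

theorem quo_mul {φ ψ : X → ℝ} {x : X} (h : φ x ≠ ψ x) :
    S.quo φ ψ x * (ψ x - φ x) = S.F x (ψ x) - S.F x (φ x) := by
  unfold quo
  rw [div_mul_cancel₀]
  exact sub_ne_zero.2 h.symm

theorem quo_log {φ ψ : X → ℝ} {x : X} (h : φ x ≠ ψ x) {c ρ : ℝ} (hc : 0 ≤ c)
    (hρ : ∀ x y y', |y - y'| < ρ → |Real.log (S.G x y) - Real.log (S.G x y')| ≤ c) :
    |Real.log (S.quo φ ψ x) - Real.log (S.G x (φ x))| ≤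
      c + {x | ρ ≤ |ψ x - φ x|}.indicator (fun _ => 2 * Real.log S.L) x := by
  obtain ⟨ξ, h1, -, h3⟩ := S.quo_eq h
  rw [h3]
  by_cases hx : ρ ≤ |ψ x - φ x|
  · rw [indicator_of_mem (show x ∈ {x | ρ ≤ |ψ x - φ x|} from hx)]
    have a1 := S.abs_log x ξ
    have a2 := S.abs_log x (φ x)
    have := abs_sub (Real.log (S.G x ξ)) (Real.log (S.G x (φ x)))
    linarith
  · rw [indicator_of_notMem (show x ∉ {x | ρ ≤ |ψ x - φ x|} from hx), add_zero]
    exact hρ _ _ _ (h1.trans_lt (not_le.1 hx))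

/-- the estimate for pairs of graphs -/
theorem pair (erg : Ergodic S.T m) {φ φ' : X → ℝ} (hφ : S.Gr m φ) {σ : ℝ} (hσ : σ ≠ 0)
    (hφ' : (S.add σ).Gr m φ') (h0 : S.ex m φ = 0) {c ρ : ℝ} (hc : 0 ≤ c)
    (hρ : ∀ x y y', |y - y'| < ρ → |Real.log (S.G x y) - Real.log (S.G x y')| ≤ c) :
    ∫ x, min (|σ| / |φ' x - φ x|) 1 ∂m ≤
      (S.L + 1) * (c + m.real {x | ρ ≤ |φ' x - φ x|} * (2 * Real.log S.L)) := by
  have hφ0 : (S.add 0).Gr m φ := by
    refine ⟨hφ.1, ?_⟩
    filter_upwards [hφ.2] with x hx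
    simpa using hx
  have hsgn : (∀ᵐ x ∂m, φ x < φ' x) ∨ (∀ᵐ x ∂m, φ' x < φ x) := by
    rcases lt_or_gt_of_ne hσ with h | h
    · exact (S.tri2 erg h hφ' hφ0).symm
    · exact S.tri2 erg h hφ0 hφ'
  have hne : ∀ᵐ x ∂m, φ x ≠ φ' x := by
    rcases hsgn with h | h
    · filter_upwards [h] with x hx using hx.ne
    · filter_upwards [h] with x hx using hx.ne'
  set q := S.quo φ φ' with hqdef
  have mq : Measurable q := S.quo_meas hφ.1 hφ'.1
  have hq : ∀ᵐ x ∂m, S.L⁻¹ ≤ q x ∧ q x ≤ S.L := by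
    filter_upwards [hne] with x hx
    obtain ⟨ξ, -, -, h3⟩ := S.quo_eq hx
    rw [hqdef, h3]
    exact ⟨S.lo _ _, S.hi _ _⟩
  have iq := int_logq S.L1 mq hq
  have iG := S.int_log (m := m) hφ.1
  have mA : MeasurableSet {x | ρ ≤ |φ' x - φ x|} :=
    measurableSet_le measurable_const ((hφ'.1.sub hφ.1).abs)
  set κ := c + m.real {x | ρ ≤ |φ' x - φ x|} * (2 * Real.log S.L) with hκ
  have hκ0 : 0 ≤ κ := by
    have := S.logL
    have h1 : 0 ≤ m.real {x | ρ ≤ |φ' x - φ x|} := measureReal_nonneg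
    rw [hκ]
    positivity
  have hint : |∫ x, Real.log (q x) ∂m| ≤ κ := by
    have e1 : ∫ x, Real.log (q x) ∂m = ∫ x, (Real.log (q x) - Real.log (S.G x (φ x))) ∂m := by
      rw [integral_sub iq iG]
      have : ∫ x, Real.log (S.G x (φ x)) ∂m = 0 := h0
      rw [this, sub_zero]
    rw [e1]
    refine (abs_integral_le_integral_abs).trans ?_
    have e2 : ∫ x, |Real.log (q x) - Real.log (S.G x (φ x))| ∂m ≤
        ∫ x, (c + {x | ρ ≤ |φ' x - φ x|}.indicator (fun _ => 2 * Real.log S.L) x) ∂m := by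
      refine integral_mono_ae (iq.sub iG).abs ?_ ?_
      · exact (integrable_const _).add ((integrable_const _).indicator mA)
      · filter_upwards [hne] with x hx
        exact S.quo_log hx hc hρ
    refine e2.trans (le_of_eq ?_)
    rw [integral_add (integrable_const _) ((integrable_const _).indicator mA), integral_const,
      integral_indicator_const _ mA]
    simp [hκ]
  have mD : Measurable fun x => |φ' x - φ x| := (hφ'.1.sub hφ.1).abs
  have hD : ∀ᵐ x ∂m, 0 < |φ' x - φ x| := by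
    filter_upwards [hne] with x hx
    exact abs_pos.2 (sub_ne_zero.2 hx.symm)
  have hstep : ∀ᵐ x ∂m, φ' (S.T x) - φ (S.T x) = q x * (φ' x - φ x) + σ := by
    filter_upwards [hφ.2, hφ'.2, hne] with x h1 h2 h3
    simp only [add_F, add_T] at h2
    rw [hqdef, S.quo_mul h3, ← h1, ← h2]
    ring
  have hL : S.L * κ ≤ (S.L + 1) * κ := by nlinarith
  have habs := abs_le.1 hint
  have hT := erg.toMeasurePreserving
  rcases hsgn with hs | hs
  · have hsT : ∀ᵐ x ∂m, φ (S.T x) < φ' (S.T x) := hT.quasiMeasurePreserving.ae hs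
    rcases lt_or_gt_of_ne hσ with h | h
    · refine (key_neg hT S.L1 mD mq hD hq (abs_pos.2 hσ) ?_ habs.2).trans hL
      filter_upwards [hs, hsT, hstep] with x a b d
      rw [abs_of_pos (sub_pos.2 a), abs_of_pos (sub_pos.2 b), abs_of_neg h, d]
      ring
    · refine key_pos hT S.L1 mD mq hD hq (abs_pos.2 hσ) ?_ habs.1
      filter_upwards [hs, hsT, hstep] with x a b d
      rw [abs_of_pos (sub_pos.2 a), abs_of_pos (sub_pos.2 b), abs_of_pos h, d]
  · have hsT : ∀ᵐ x ∂m, φ' (S.T x) < φ (S.T x) := hT.quasiMeasurePreserving.ae hs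
    rcases lt_or_gt_of_ne hσ with h | h
    · refine key_pos hT S.L1 mD mq hD hq (abs_pos.2 hσ) ?_ habs.1
      filter_upwards [hs, hsT, hstep] with x a b d
      rw [abs_of_neg (sub_neg.2 a), abs_of_neg (sub_neg.2 b), abs_of_neg h, d]
      ring
    · refine (key_neg hT S.L1 mD mq hD hq (abs_pos.2 hσ) ?_ habs.2).trans hL
      filter_upwards [hs, hsT, hstep] with x a b d
      rw [abs_of_neg (sub_neg.2 a), abs_of_neg (sub_neg.2 b), abs_of_pos h, d]
      ring

end Sys

end Pool.Agent.TH525.PF
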