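import Pool.Agent.TH525.PF.Cob

/-! # Monotone fibre maps over an automorphism of a probability space -/

set_option autoImplicit false

open Set Filter Topology MeasureTheory

namespace Pool.Agent.TH525.PF

/-- Fibre maps `F x : ℝ → ℝ` with derivative `G x` over an automorphism `T`. -/
structure Sys (X : Type*) [MeasurableSpace X] where
  T : X ≃ᵐ X
  F : X → ℝ → ℝ
  G : X → ℝ → ℝ
  L : ℝ
  mF : Measurable (Function.uncurry F)
  mG : Measurable (Function.uncurry G)
  der : ∀ x y, HasDerivAt (F x) (G x y) y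
  L1 : 1 ≤ L
  lo : ∀ x y, L⁻¹ ≤ G x y
  hi : ∀ x y, G x y ≤ L
  mod : ∀ c : ℝ, 0 < c → ∃ ρ : ℝ, 0 < ρ ∧ ∀ x y y', |y - y'| < ρ →
    |Real.log (G x y) - Real.log (G x y')| ≤ c

namespace Sys

variable {X : Type*} [MeasurableSpace X] (S : Sys X) {m : Measure X}

theorem Lpos : 0 < S.L := lt_of_lt_of_le one_pos S.L1

theorem Gpos (x : X) (y : ℝ) : 0 < S.G x y := lt_of_lt_of_le (inv_pos.2 S.Lpos) (S.lo x y)

theorem abs_log (x : X) (y : ℝ) : |Real.log (S.G x y)| ≤ Real.log S.L := by
  rw [abs_le]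
  constructor
  · rw [← Real.log_inv]
    exact Real.log_le_log (inv_pos.2 S.Lpos) (S.lo x y)
  · exact Real.log_le_log (S.Gpos x y) (S.hi x y)

theorem logL : 0 ≤ Real.log S.L := Real.log_nonneg S.L1

/-- difference quotients -/
theorem slope (x : X) {y z : ℝ} (h : y < z) :
    ∃ ξ ∈ Ioo y z, S.F x z - S.F x y = S.G x ξ * (z - y) := by
  obtain ⟨ξ, h1, h2⟩ := exists_hasDerivAt_eq_slope (S.F x) (S.G x) h
    (fun t _ => (S.der x t).continuousAt.continuousWithinAt) (fun t _ => S.der x t)
  refine ⟨ξ, h1, ?_⟩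
  rw [h2, div_mul_cancel₀]
  exact (sub_pos.2 h).ne'

theorem strict (x : X) : StrictMono (S.F x) := by
  intro y z h
  obtain ⟨ξ, _, h2⟩ := S.slope x h
  have := mul_pos (S.Gpos x ξ) (sub_pos.2 h)
  linarith

theorem cont (x : X) : Continuous (S.F x) :=
  continuous_iff_continuousAt.2 fun y => (S.der x y).continuousAt

theorem diff_le (x : X) {y z : ℝ} (h : y ≤ z) :
    S.L⁻¹ * (z - y) ≤ S.F x z - S.F x y ∧ S.F x z - S.F x y ≤ S.L * (z - y) := by
  rcases h.eq_or_lt with rfl | h
  · simp
  · obtain ⟨ξ, _, h2⟩ := S.slope x h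
    rw [h2]
    exact ⟨mul_le_mul_of_nonneg_right (S.lo x ξ) (sub_pos.2 h).le,
      mul_le_mul_of_nonneg_right (S.hi x ξ) (sub_pos.2 h).le⟩

theorem surj (x : X) : Function.Surjective (S.F x) := by
  have hp : 0 < S.L⁻¹ := inv_pos.2 S.Lpos
  refine (S.cont x).surjective ?_ ?_
  · refine tendsto_atTop_mono' atTop (f₁ := fun z => S.L⁻¹ * z + S.F x 0) ?_ ?_
    · filter_upwards [eventually_ge_atTop 0] with z hz
      have := (S.diff_le x hz).1
      rw [sub_zero] at this
      linarith
    · exact tendsto_atTop_add_const_right _ _ (tendsto_id.const_mul_atTop hp)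
  · refine tendsto_atBot_mono' atBot (f₁ := fun z => S.L⁻¹ * z + S.F x 0) ?_ ?_
    · filter_upwards [eventually_le_atBot 0] with z hz
      have := (S.diff_le x hz).1
      rw [zero_sub] at this
      linarith
    · exact tendsto_atBot_add_const_right _ _ (tendsto_id.const_mul_atBot hp)

/-- The fibre map as an order isomorphism. -/
noncomputable def iso (x : X) : ℝ ≃o ℝ :=
  (S.strict x).orderIsoOfSurjective (S.F x) (S.surj x)

@[simp] theorem iso_apply (x : X) (y : ℝ) : S.iso x y = S.F x y := rfl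

/-- add a constant in the fibres -/
def add (s : ℝ) : Sys X where
  T := S.T
  F := fun x y => S.F x y + s
  G := S.G
  L := S.L
  mF := S.mF.add_const s
  mG := S.mG
  der := fun x y => (S.der x y).add_const s
  L1 := S.L1
  lo := S.lo
  hi := S.hi
  mod := S.mod

@[simp] theorem add_T (s : ℝ) : (S.add s).T = S.T := rfl
@[simp] theorem add_F (s : ℝ) (x : X) (y : ℝ) : (S.add s).F x y = S.F x y + s := rfl
@[simp] theorem add_G (s : ℝ) : (S.add s).G = S.G := rfl
@[simp] theorem add_L (s : ℝ) : (S.add s).L = S.L := rfl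

/-- reflection of the fibres -/
def neg : Sys X where
  T := S.T
  F := fun x y => - S.F x (-y)
  G := fun x y => S.G x (-y)
  L := S.L
  mF := (S.mF.comp (measurable_fst.prodMk measurable_snd.neg)).neg
  mG := S.mG.comp (measurable_fst.prodMk measurable_snd.neg)
  der := fun x y => by
    have h1 : HasDerivAt (fun t : ℝ => -t) (-1) y := (hasDerivAt_id y).neg
    have h2 := ((S.der x (-y)).comp y h1).neg
    have e : -(S.G x (-y) * -1) = S.G x (-y) := by ring
    rw [e] at h2
    exact h2
  L1 := S.L1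
  lo := fun x y => S.lo x _
  hi := fun x y => S.hi x _
  mod := fun c hc => by
    obtain ⟨ρ, h1, h2⟩ := S.mod c hc
    refine ⟨ρ, h1, fun x y y' h => h2 x _ _ ?_⟩
    rw [show -y - -y' = -(y - y') by ring, abs_neg]
    exact h

@[simp] theorem neg_T : S.neg.T = S.T := rfl
@[simp] theorem neg_F (x : X) (y : ℝ) : S.neg.F x y = - S.F x (-y) := rfl
@[simp] theorem neg_G (x : X) (y : ℝ) : S.neg.G x y = S.G x (-y) := rfl

theorem iso_symm_le (x : X) (y q : ℝ) : (S.iso x).symm y ≤ q ↔ y ≤ S.F x q := by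
  rw [OrderIso.symm_apply_le]
  rfl

theorem F_symm (x : X) (y : ℝ) : S.F x ((S.iso x).symm y) = y := (S.iso x).apply_symm_apply y

theorem symm_F (x : X) (y : ℝ) : (S.iso x).symm (S.F x y) = y := (S.iso x).symm_apply_apply y

theorem symm_lip (x : X) (y y' : ℝ) :
    |(S.iso x).symm y - (S.iso x).symm y'| ≤ S.L * |y - y'| := by
  wlog h : y' ≤ y generalizing y y'
  · rw [abs_sub_comm, abs_sub_comm y]
    exact this y' y (not_le.1 h).le
  have h0 : (S.iso x).symm y' ≤ (S.iso x).symm y := (S.iso x).symm.monotone h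
  have h1 := (S.diff_le x h0).1
  rw [S.F_symm, S.F_symm] at h1
  rw [abs_of_nonneg (sub_nonneg.2 h0), abs_of_nonneg (sub_nonneg.2 h)]
  have h2 := mul_le_mul_of_nonneg_left h1 S.Lpos.le
  rwa [← mul_assoc, mul_inv_cancel₀ S.Lpos.ne', one_mul] at h2

/-- The inverse system. -/
noncomputable def inv : Sys X where
  T := S.T.symm
  F := fun x y => (S.iso (S.T.symm x)).symm y
  G := fun x y => (S.G (S.T.symm x) ((S.iso (S.T.symm x)).symm y))⁻¹
  L := S.L
  mF := by
    refine measurable_of_Iic fun q => ?_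
    have : (Function.uncurry fun x y => (S.iso (S.T.symm x)).symm y) ⁻¹' Iic q =
        {p : X × ℝ | p.2 ≤ S.F (S.T.symm p.1) q} := by
      ext ⟨x, y⟩
      exact S.iso_symm_le _ _ _
    rw [this]
    exact measurableSet_le measurable_snd
      (S.mF.comp ((S.T.symm.measurable.comp measurable_fst).prodMk measurable_const))
  mG := by
    have h1 : Measurable (Function.uncurry fun x y => (S.iso (S.T.symm x)).symm y) := by
      refine measurable_of_Iic fun q => ?_
      have : (Function.uncurry fun x y => (S.iso (S.T.symm x)).symm y) ⁻¹' Iic q =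
          {p : X × ℝ | p.2 ≤ S.F (S.T.symm p.1) q} := by
        ext ⟨x, y⟩
        exact S.iso_symm_le _ _ _
      rw [this]
      exact measurableSet_le measurable_snd
        (S.mF.comp ((S.T.symm.measurable.comp measurable_fst).prodMk measurable_const))
    exact (S.mG.comp ((S.T.symm.measurable.comp measurable_fst).prodMk h1)).inv
  der := fun x y => by
    refine HasDerivAt.of_local_left_inverse ?_ (S.der _ _) (S.Gpos _ _).ne' ?_
    · have := (S.iso (S.T.symm x)).symm.continuous
      exact this.continuousAt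
    · exact Eventually.of_forall fun z => S.F_symm _ z
  L1 := S.L1
  lo := fun x y => by
    exact inv_anti₀ (S.Gpos _ _) (S.hi _ _)
  hi := fun x y => by
    have := inv_anti₀ (inv_pos.2 S.Lpos) (S.lo (S.T.symm x) ((S.iso (S.T.symm x)).symm y))
    rwa [inv_inv] at this
  mod := fun c hc => by
    obtain ⟨ρ, h1, h2⟩ := S.mod c hc
    refine ⟨ρ / S.L, div_pos h1 S.Lpos, fun x y y' h => ?_⟩
    rw [Real.log_inv, Real.log_inv, ← neg_sub', abs_neg]
    refine h2 _ _ _ ?_
    refine (S.symm_lip _ _ _).trans_lt ?_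
    rw [lt_div_iff₀ S.Lpos] at h
    linarith

@[simp] theorem inv_T : S.inv.T = S.T.symm := rfl
theorem inv_F (x : X) (y : ℝ) : S.inv.F x y = (S.iso (S.T.symm x)).symm y := rfl
theorem inv_G (x : X) (y : ℝ) :
    S.inv.G x y = (S.G (S.T.symm x) ((S.iso (S.T.symm x)).symm y))⁻¹ := rfl

/-- invariant graphs -/
def Gr (m : Measure X) (φ : X → ℝ) : Prop := Measurable φ ∧ ∀ᵐ x ∂m, S.F x (φ x) = φ (S.T x)

/-- the Lyapunov exponent of a graph -/
noncomputable def ex (m : Measure X) (φ : X → ℝ) : ℝ := ∫ x, Real.log (S.G x (φ x)) ∂m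

/-- orbits in the fibres -/
def it : ℕ → X → ℝ → ℝ
  | 0, _, y => y
  | n + 1, x, y => S.F (S.T^[n] x) (it n x y)

@[simp] theorem it_zero (x : X) (y : ℝ) : S.it 0 x y = y := rfl
theorem it_succ (n : ℕ) (x : X) (y : ℝ) : S.it (n + 1) x y = S.F (S.T^[n] x) (S.it n x y) := rfl

theorem it_succ' (n : ℕ) (x : X) (y : ℝ) : S.it (n + 1) x y = S.it n (S.T x) (S.F x y) := by
  induction n with
  | zero => rfl
  | succ n ih => rw [it_succ, ih, it_succ, Function.iterate_succ_apply]

theorem it_mono (n : ℕ) (x : X) : Monotone (S.it n x) := by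
  induction n with
  | zero => exact monotone_id
  | succ n ih => exact (S.strict _).monotone.comp ih

theorem it_meas (n : ℕ) {y : X → ℝ} (hy : Measurable y) : Measurable fun x => S.it n x (y x) := by
  induction n with
  | zero => exact hy
  | succ n ih => exact S.mF.comp ((S.T.measurable.iterate n).prodMk ih)

theorem neg_it (n : ℕ) (x : X) (y : ℝ) : S.neg.it n x y = - S.it n x (-y) := by
  induction n with
  | zero => simp
  | succ n ih => rw [it_succ, it_succ, ih, neg_F, neg_T, neg_neg]

theorem Gr.neg {φ : X → ℝ} (h : S.Gr m φ) : S.neg.Gr m (fun x => - φ x) := by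
  refine ⟨h.1.neg, ?_⟩
  filter_upwards [h.2] with x hx
  simp [hx]

theorem ex_neg (φ : X → ℝ) : S.neg.ex m (fun x => - φ x) = S.ex m φ := by
  simp [ex]

theorem measG {φ : X → ℝ} (h : Measurable φ) : Measurable fun x => S.G x (φ x) :=
  S.mG.comp (measurable_id.prodMk h)

theorem measF {φ : X → ℝ} (h : Measurable φ) : Measurable fun x => S.F x (φ x) :=
  S.mF.comp (measurable_id.prodMk h)

theorem int_log [IsProbabilityMeasure m] {φ : X → ℝ} (h : Measurable φ) :
    Integrable (fun x => Real.log (S.G x (φ x))) m :=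
  Integrable.of_bound (S.measG h).log.aestronglyMeasurable (Real.log S.L)
    (Eventually.of_forall fun x => by rw [Real.norm_eq_abs]; exact S.abs_log _ _)

end Sys

end Pool.Agent.TH525.PF
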