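import Pool.Agent.TH525.PF.Dyn
import Pool.Agent.H728R2.FA.Defs

/-! # Attractors of circle skew products carried by graphs -/

set_option autoImplicit false

open Set Filter Topology MeasureTheory

namespace Pool.Agent.TH525.PF

open Pool.Agent.H728R2.OS Pool.Agent.H728R2.FA

theorem omega_subset {X : Type*} [PseudoMetricSpace X] {f : X → X} {p q : X}
    (h : Tendsto (fun n => dist (f^[n] p) (f^[n] q)) atTop (𝓝 0)) :
    omegaLim f p ⊆ omegaLim f q := by
  intro x hx V hV N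
  obtain ⟨ε, hε, hball⟩ := Metric.mem_nhds_iff.1 hV
  obtain ⟨N', hN'⟩ := (Metric.tendsto_atTop.1 h) (ε / 2) (half_pos hε)
  obtain ⟨n, hn, hnb⟩ := hx (Metric.ball x (ε / 2)) (Metric.ball_mem_nhds x (half_pos hε)) (max N N')
  refine ⟨n, (le_max_left _ _).trans hn, hball ?_⟩
  have h1 := hN' n ((le_max_right _ _).trans hn)
  rw [Real.dist_eq, sub_zero, abs_of_nonneg dist_nonneg] at h1
  have h2 : dist (f^[n] p) x < ε / 2 := hnb
  have h3 := dist_triangle (f^[n] q) (f^[n] p) x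
  have h4 := dist_comm (f^[n] q) (f^[n] p)
  show dist (f^[n] q) x < ε
  linarith

theorem omega_eq {X : Type*} [PseudoMetricSpace X] {f : X → X} {p q : X}
    (h : Tendsto (fun n => dist (f^[n] p) (f^[n] q)) atTop (𝓝 0)) :
    omegaLim f p = omegaLim f q :=
  (omega_subset h).antisymm (omega_subset (by simpa only [dist_comm] using h))

theorem omega_image {X : Type*} [TopologicalSpace X] (f : X ≃ₜ X) (p : X) :
    f '' omegaLim f p = omegaLim f p := by
  apply Subset.antisymm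
  · rintro _ ⟨q, hq, rfl⟩ V hV N
    obtain ⟨n, hn, hnV⟩ := hq (f ⁻¹' V) (f.continuous.continuousAt hV) N
    refine ⟨n + 1, by omega, ?_⟩
    rw [Function.iterate_succ_apply']
    exact hnV
  · intro q hq
    refine ⟨f.symm q, ?_, f.apply_symm_apply q⟩
    intro V hV N
    have hV' : f.symm ⁻¹' V ∈ 𝓝 q := f.symm.continuous.continuousAt hV
    obtain ⟨n, hn, hnV⟩ := hq _ hV' (N + 1)
    obtain ⟨k, rfl⟩ : ∃ k, n = k + 1 := ⟨n - 1, by omega⟩
    refine ⟨k, by omega, ?_⟩
    rw [Function.iterate_succ_apply'] at hnV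
    simpa using hnV

section

variable {B : Type*} [MetricSpace B] [CompactSpace B] [MeasurableSpace B] [BorelSpace B]
  {m : Measure B} [IsProbabilityMeasure m]

/-- The closed set to which almost all points of an invariant section converge. -/
theorem section_attractor (T : B ≃ₜ B) (erg : Ergodic T m) (f : (B × Circ) ≃ₜ (B × Circ))
    (s : B → Circ) (ms : Measurable s)
    (hstep : ∀ᵐ x ∂m, ∀ n : ℕ, f^[n] (x, s x) = (T^[n] x, s (T^[n] x))) :
    ∃ Λ : Set (B × Circ), f '' Λ = Λ ∧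
      (∃ x ∈ Λ, Λ ⊆ closure (range fun n : ℕ => f^[n] x)) ∧
      ∀ᵐ x ∂m, omegaLim f (x, s x) = Λ := by
  classical
  have hcons : Conservative T m := erg.toMeasurePreserving.conservative
  set 𝓑 := TopologicalSpace.countableBasis (B × Circ) with h𝓑
  have hBc : 𝓑.Countable := TopologicalSpace.countable_countableBasis _
  have hBb : TopologicalSpace.IsTopologicalBasis 𝓑 := TopologicalSpace.isBasis_countableBasis _
  have mg : Measurable (fun x : B => ((x, s x) : B × Circ)) := measurable_id.prodMk ms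
  have mT : Measurable T := T.continuous.measurable
  let A : Set (B × Circ) → Set B := fun W => {x | ∃ᶠ n in atTop, ((T^[n] x, s (T^[n] x)) : B × Circ) ∈ W}
  have hA : ∀ W ∈ 𝓑, (A W =ᵐ[m] (∅ : Set B) ∨ A W =ᵐ[m] (univ : Set B)) := by
    intro W hW
    have hWo : IsOpen W := hBb.isOpen hW
    apply erg.toPreErgodic.ae_empty_or_univ
    · have : A W = limsup (fun n => {x | ((T^[n] x, s (T^[n] x)) : B × Circ) ∈ W}) atTop := by
        ext x
        simp only [A, mem_ofPred_eq, mem_limsup_iff_frequently_mem]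
      rw [this]
      refine MeasurableSet.measurableSet_limsup fun n => ?_
      exact (mg.comp (mT.iterate n)) hWo.measurableSet
    · ext x
      simp only [A, mem_preimage, mem_ofPred_eq]
      have h1 : ∀ n : ℕ, T^[n] (T x) = T^[n + 1] x := fun n => (Function.iterate_succ_apply T n x).symm
      simp only [h1]
      constructor
      · intro h
        rw [frequently_atTop] at h ⊢
        intro a
        obtain ⟨b, hb, hb2⟩ := h a
        exact ⟨b + 1, by omega, hb2⟩
      · intro h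
        rw [frequently_atTop] at h ⊢
        intro a
        obtain ⟨b, hb, hb2⟩ := h (a + 1)
        obtain ⟨k, rfl⟩ : ∃ k, b = k + 1 := ⟨b - 1, by omega⟩
        exact ⟨k, by omega, hb2⟩
  let Λ : Set (B × Circ) := {q | ∀ W ∈ 𝓑, q ∈ W → A W =ᵐ[m] (univ : Set B)}
  have hgen : ∀ᵐ x ∂m, ∀ W ∈ 𝓑, (x ∈ A W ↔ A W =ᵐ[m] (univ : Set B)) := by
    rw [ae_ball_iff hBc]
    intro W hW
    by_cases hu : A W =ᵐ[m] (univ : Set B)
    · have h1 : ∀ᵐ x ∂m, x ∈ A W := by
        have := ae_eq_univ.1 hu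
        rwa [ae_iff]
      filter_upwards [h1] with x hx
      exact iff_of_true hx hu
    · rcases hA W hW with h | h
      · have h1 : ∀ᵐ x ∂m, x ∉ A W := measure_eq_zero_iff_ae_notMem.1 (ae_eq_empty.1 h)
        filter_upwards [h1] with x hx
        exact iff_of_false hx hu
      · exact absurd h hu
  have hO : ∀ᵐ x ∂m, omegaLim f (x, s x) = Λ := by
    filter_upwards [hgen, hstep] with x h1 h2
    ext q
    constructor
    · intro hq W hW hqW
      rw [← h1 W hW]
      show ∃ᶠ n in atTop, ((T^[n] x, s (T^[n] x)) : B × Circ) ∈ W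
      rw [frequently_atTop]
      intro N
      obtain ⟨n, hn, hnW⟩ := hq W ((hBb.isOpen hW).mem_nhds hqW) N
      rw [h2 n] at hnW
      exact ⟨n, hn, hnW⟩
    · intro hq V hV N
      obtain ⟨W, hW, hqW, hWV⟩ := hBb.mem_nhds_iff.1 hV
      have h3 : x ∈ A W := (h1 W hW).2 (hq W hW hqW)
      have h4 : ∃ᶠ n in atTop, ((T^[n] x, s (T^[n] x)) : B × Circ) ∈ W := h3
      rw [frequently_atTop] at h4
      obtain ⟨n, hn, hnW⟩ := h4 N
      refine ⟨n, hn, hWV ?_⟩
      rw [h2 n]
      exact hnW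
  have hrec : ∀ᵐ x ∂m, ((x, s x) : B × Circ) ∈ omegaLim f (x, s x) := by
    have h1 : ∀ᵐ x ∂m, ∀ W ∈ 𝓑, ((x, s x) : B × Circ) ∈ W →
        ∃ᶠ n in atTop, ((T^[n] x, s (T^[n] x)) : B × Circ) ∈ W := by
      rw [ae_ball_iff hBc]
      intro W hW
      have hS : MeasurableSet {x : B | ((x, s x) : B × Circ) ∈ W} :=
        mg (hBb.isOpen hW).measurableSet
      exact hcons.ae_mem_imp_frequently_image_mem hS.nullMeasurableSet
    filter_upwards [h1, hstep] with x h1 h2 V hV N
    obtain ⟨W, hW, hqW, hWV⟩ := hBb.mem_nhds_iff.1 hV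
    obtain ⟨n, hn, hnW⟩ := (frequently_atTop.1 (h1 W hW hqW)) N
    refine ⟨n, hn, hWV ?_⟩
    rw [h2 n]
    exact hnW
  obtain ⟨x0, hx1, hx2⟩ := (hO.and hrec).exists
  refine ⟨Λ, ?_, ⟨(x0, s x0), ?_, ?_⟩, hO⟩
  · rw [← hx1]; exact omega_image f _
  · rwa [hx1] at hx2
  · rw [← hx1]
    intro q hq
    rw [mem_closure_iff_nhds]
    intro V hV
    obtain ⟨n, _, hn⟩ := hq V hV 0
    exact ⟨f^[n] (x0, s x0), hn, n, rfl⟩

omit [CompactSpace B] [BorelSpace B] in
/-- orbits of the skew product through the lift -/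
theorem iter_lift (S : Sys B) (T : B ≃ₜ B) (hT : ∀ x, S.T x = T x) (f : (B × Circ) ≃ₜ (B × Circ))
    (hf : ∀ (x : B) (y : ℝ), f (x, (y : UnitAddCircle)) = (T x, (S.F x y : UnitAddCircle)))
    (n : ℕ) (x : B) (y : ℝ) :
    f^[n] (x, (y : UnitAddCircle)) = (T^[n] x, (S.it n x y : UnitAddCircle)) := by
  have hTn : ∀ k : ℕ, S.T^[k] x = T^[k] x := by
    intro k
    induction k with
    | zero => rfl
    | succ k ih => rw [Function.iterate_succ_apply', ih, hT, Function.iterate_succ_apply']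
  induction n with
  | zero => rfl
  | succ n ih =>
    rw [Function.iterate_succ_apply', ih, hf, Function.iterate_succ_apply', Sys.it_succ, hTn]

theorem dist_coe_le (a b : ℝ) : dist (a : UnitAddCircle) (b : UnitAddCircle) ≤ |a - b| := by
  rw [dist_eq_norm, ← AddCircle.coe_sub, AddCircle.norm_eq]
  simp only [inv_one, one_mul, mul_one]
  have := round_le (a - b) 0
  simpa using this

/-- **Finitely many attractors.** -/
theorem finiteAttractors_of (S : Sys B) (T : B ≃ₜ B) (hT : ∀ x, S.T x = T x) (erg : Ergodic T m)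
    (f : (B × Circ) ≃ₜ (B × Circ))
    (hf : ∀ (x : B) (y : ℝ), f (x, (y : UnitAddCircle)) = (T x, (S.F x y : UnitAddCircle)))
    (per : ∀ x y, S.F x (y + 1) = S.F x y + 1)
    (hno : ∀ φ, S.Gr m φ → S.ex m φ ≠ 0) {α : B → ℝ} (hα : S.Gr m α)
    (μ : Measure (B × Circ)) (hμ : μ ≪ m.prod volume) (hμ' : m.prod volume ≪ μ) :
    FiniteAttractors μ f := by
  classical
  have hTT : (S.T : B → B) = T := funext hT
  have ergS : Ergodic S.T m := by rw [hTT]; exact erg
  obtain ⟨A, hA, hdyn⟩ := S.dyn ergS per hno hα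
  have mcoe : Measurable (fun t : ℝ => (t : UnitAddCircle)) := (AddCircle.continuous_mk' 1).measurable
  -- asymptotic orbits
  have hfst : ∀ (n : ℕ) (x : B) (y : ℝ),
      f^[n] (x, (y : UnitAddCircle)) = (T^[n] x, (S.it n x y : UnitAddCircle)) :=
    fun n x y => iter_lift S T hT f hf n x y
  have hstep : ∀ φ, S.Gr m φ → ∀ᵐ x ∂m, ∀ n : ℕ,
      f^[n] (x, (φ x : UnitAddCircle)) = (T^[n] x, (φ (T^[n] x) : UnitAddCircle)) := by
    intro φ hφ
    filter_upwards [hφ.iter S ergS] with x hx n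
    rw [hfst, hx n, hTT]
  have hasym : ∀ φ, S.Gr m φ → ∀ᵐ x ∂m, ∀ y : ℝ, S.Cv φ x y →
      omegaLim f (x, (y : UnitAddCircle)) = omegaLim f (x, (φ x : UnitAddCircle)) := by
    intro φ hφ
    filter_upwards [hstep φ hφ] with x hx y hy
    apply omega_eq
    refine squeeze_zero (fun _ => dist_nonneg) (fun n => ?_)
      (tendsto_norm_zero.comp hy : Tendsto (fun n => ‖S.it n x y - φ (S.T^[n] x)‖) atTop (𝓝 0))
    rw [hx n, hfst, Prod.dist_eq, dist_self, max_eq_right dist_nonneg, hTT]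
    exact dist_coe_le _ _
  -- the attractors
  have hatt : ∀ φ : B → ℝ, ∃ Λ : Set (B × Circ), S.Gr m φ → (f '' Λ = Λ ∧
      (∃ x ∈ Λ, Λ ⊆ closure (range fun n : ℕ => f^[n] x)) ∧
      ∀ᵐ x ∂m, omegaLim f (x, (φ x : UnitAddCircle)) = Λ) := by
    intro φ
    by_cases h : S.Gr m φ
    · obtain ⟨Λ, h1⟩ := section_attractor T erg f (fun x => (φ x : UnitAddCircle))
        (mcoe.comp h.1) (hstep φ h)
      exact ⟨Λ, fun _ => h1⟩
    · exact ⟨∅, fun h' => absurd h' h⟩
  choose Λ hΛ using hatt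
  set A' := A.filter fun φ => S.ex m φ < 0 with hA'
  set e := A'.equivFin with he
  refine ⟨A'.card, fun i => Λ (e.symm i), ?_, ?_⟩
  · intro i
    set φ : B → ℝ := (e.symm i : B → ℝ) with hφdef
    have hφA : φ ∈ A' := (e.symm i).2
    rw [hA', Finset.mem_filter] at hφA
    have hφ := hA φ hφA.1
    obtain ⟨h1, h2, h3⟩ := hΛ φ hφ
    refine ⟨h1, h2, ?_⟩
    rw [pos_iff_ne_zero]
    intro h0
    have h4 : ∀ᵐ p ∂(m.prod (volume : Measure Circ)), p ∉ {p | omegaLim f p ⊆ Λ φ} :=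
      measure_eq_zero_iff_ae_notMem.1 (hμ' h0)
    have h5 := Measure.ae_ae_of_ae_prod h4
    obtain ⟨x, hx1, hx2, hx3, hx4⟩ :=
      (h5.and ((S.local_att ergS hφ hφA.2).and ((hasym φ hφ).and h3))).exists
    obtain ⟨δ, hδ, hloc⟩ := hx2
    have h6 : Metric.ball ((φ x : ℝ) : UnitAddCircle) (min δ (1 / 2)) ⊆
        {y : Circ | (x, y) ∈ {p | omegaLim f p ⊆ Λ φ}} := by
      intro y hy
      obtain ⟨t, rfl⟩ : ∃ t : ℝ, (t : UnitAddCircle) = y := QuotientAddGroup.mk_surjective y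
      rw [Metric.mem_ball, dist_eq_norm, ← AddCircle.coe_sub] at hy
      rw [AddCircle.norm_eq] at hy
      simp only [inv_one, one_mul, mul_one] at hy
      have h7 : S.Cv φ x (t - round (t - φ x)) := by
        apply hloc
        have : t - ↑(round (t - φ x)) - φ x = t - φ x - round (t - φ x) := by ring
        rw [this]
        exact hy.trans_le (min_le_left _ _)
      have h8 := hx3 _ h7
      have h9 : ((t - ↑(round (t - φ x)) : ℝ) : UnitAddCircle) = (t : UnitAddCircle) := by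
        rw [AddCircle.coe_sub]
        have : (((round (t - φ x) : ℤ) : ℝ) : UnitAddCircle) = 0 := by
          rw [AddCircle.coe_eq_zero_iff]
          exact ⟨round (t - φ x), by simp⟩
        rw [this, sub_zero]
      rw [h9] at h8
      show omegaLim f (x, (t : UnitAddCircle)) ⊆ Λ φ
      rw [h8, hx4]
    have h10 : (volume : Measure Circ) (Metric.ball ((φ x : ℝ) : UnitAddCircle) (min δ (1 / 2))) = 0 := by
      refine measure_mono_null h6 ?_
      have := hx1
      rw [ae_iff] at this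
      simpa using this
    exact (Metric.isOpen_ball.measure_pos volume
      ⟨_, Metric.mem_ball_self (lt_min hδ (by norm_num))⟩).ne' h10
  · refine hμ ?_
    have hgraph : ∀ φ ∈ A, ∀ᵐ p ∂(m.prod (volume : Measure Circ)),
        p.2 ≠ ((φ p.1 : ℝ) : UnitAddCircle) := by
      intro φ hφ
      have mS : MeasurableSet {p : B × Circ | p.2 ≠ ((φ p.1 : ℝ) : UnitAddCircle)} :=
        (measurableSet_eq_fun measurable_snd
          (mcoe.comp ((hA φ hφ).1.comp measurable_fst))).compl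
      refine (Measure.ae_prod_mem_iff_ae_ae_mem mS).2 (Eventually.of_forall fun x => ?_)
      show ∀ᵐ y ∂(volume : Measure Circ), y ≠ ((φ x : ℝ) : UnitAddCircle)
      rw [ae_iff]
      have : {a : Circ | ¬ a ≠ ((φ x : ℝ) : UnitAddCircle)} = {((φ x : ℝ) : UnitAddCircle)} := by
        ext a; simp
      rw [this]
      have h5 := AddCircle.volume_closedBall (T := 1) (x := ((φ x : ℝ) : UnitAddCircle)) 0
      rw [Metric.closedBall_zero] at h5
      rw [h5]; simp
    have h1 : ∀ᵐ p ∂(m.prod (volume : Measure Circ)), ∀ φ ∈ A,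
        p.2 ≠ ((φ p.1 : ℝ) : UnitAddCircle) := (Filter.eventually_all_finset A).2 hgraph
    have h2 : ∀ᵐ x ∂m, ∀ y, α x ≤ y → y < α x + 1 →
        (∀ φ ∈ A, (y : UnitAddCircle) ≠ ((φ x : ℝ) : UnitAddCircle)) →
        ∃ i : Fin A'.card, omegaLim f (x, (y : UnitAddCircle)) ⊆ Λ (e.symm i) := by
      have a1 : ∀ᵐ x ∂m, ∀ φ ∈ A, (∀ y : ℝ, S.Cv φ x y →
          omegaLim f (x, (y : UnitAddCircle)) = omegaLim f (x, (φ x : UnitAddCircle))) ∧
          omegaLim f (x, (φ x : UnitAddCircle)) = Λ φ :=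
        (Filter.eventually_all_finset A).2 fun φ hφ =>
          (hasym φ (hA φ hφ)).and (hΛ φ (hA φ hφ)).2.2
      filter_upwards [hdyn, a1] with x b1 b2 y hy1 hy2 hy3
      rcases b1 y hy1 hy2 with ⟨ψ, hψ, hneg, hcv⟩ | ⟨ψ, hψ, hyψ⟩
      · have hψ' : ψ ∈ A' := Finset.mem_filter.2 ⟨hψ, hneg⟩
        refine ⟨e ⟨ψ, hψ'⟩, ?_⟩
        rw [e.symm_apply_apply]
        show omegaLim f (x, (y : UnitAddCircle)) ⊆ Λ ψ
        rw [(b2 ψ hψ).1 y hcv, (b2 ψ hψ).2]
      · exact absurd (by rw [hyψ]) (hy3 ψ hψ)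
    have h3 : ∀ᵐ p ∂(m.prod (volume : Measure Circ)), ∀ y, α p.1 ≤ y → y < α p.1 + 1 →
        (∀ φ ∈ A, (y : UnitAddCircle) ≠ ((φ p.1 : ℝ) : UnitAddCircle)) →
        ∃ i : Fin A'.card, omegaLim f (p.1, (y : UnitAddCircle)) ⊆ Λ (e.symm i) :=
      Measure.quasiMeasurePreserving_fst.ae h2
    have h4 : ∀ᵐ p ∂(m.prod (volume : Measure Circ)),
        ∃ i : Fin A'.card, omegaLim f p ⊆ Λ (e.symm i) := by
      filter_upwards [h1, h3] with p a b
      obtain ⟨t, ht⟩ : ∃ t : ℝ, (t : UnitAddCircle) = p.2 := QuotientAddGroup.mk_surjective p.2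
      have c1 : ((t - ⌊t - α p.1⌋ : ℝ) : UnitAddCircle) = p.2 := by
        rw [AddCircle.coe_sub]
        have : (((⌊t - α p.1⌋ : ℤ) : ℝ) : UnitAddCircle) = 0 := by
          rw [AddCircle.coe_eq_zero_iff]
          exact ⟨⌊t - α p.1⌋, by simp⟩
        rw [this, sub_zero, ht]
      have c2 := Int.floor_le (t - α p.1)
      have c3 := Int.lt_floor_add_one (t - α p.1)
      obtain ⟨i, hi⟩ := b (t - ⌊t - α p.1⌋) (by linarith) (by linarith)
        (by intro φ hφ; rw [c1]; exact a φ hφ)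
      refine ⟨i, ?_⟩
      rw [c1] at hi
      exact hi
    rw [ae_iff] at h4
    refine measure_mono_null ?_ h4
    intro p hp
    simpa using hp

end

end Pool.Agent.TH525.PF
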