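import Pool.Agent.TH525.PF.Sys

/-! # Bounded differences of the iterates and the wave operators between two parameters -/

set_option autoImplicit false

open Set Filter Topology MeasureTheory

namespace Pool.Agent.TH525.PF

namespace Sys

variable {X : Type*} [MeasurableSpace X] (S : Sys X) {m : Measure X}

theorem it_add (n k : ℕ) (x : X) (y : ℝ) :
    S.it (n + k) x y = S.it k (S.T^[n] x) (S.it n x y) := by
  induction k with
  | zero => rfl
  | succ k ih =>
    rw [← add_assoc, it_succ, ih, it_succ]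
    congr 1
    rw [← Function.iterate_add_apply, add_comm]

theorem F_int (per : ∀ x y, S.F x (y + 1) = S.F x y + 1) (k : ℤ) (x : X) (y : ℝ) :
    S.F x (y + k) = S.F x y + k := by
  induction k using Int.induction_on with
  | zero => simp
  | succ k ih =>
    push_cast at ih ⊢
    rw [← add_assoc, per, ih, add_assoc]
  | pred k ih =>
    push_cast at ih ⊢
    have := per x (y + (-(k : ℝ) - 1))
    rw [show y + (-(k : ℝ) - 1) + 1 = y + -(k : ℝ) by ring, ih] at this
    linarith

theorem it_int (per : ∀ x y, S.F x (y + 1) = S.F x y + 1) (k : ℤ) (n : ℕ) (x : X) (y : ℝ) :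
    S.it n x (y + k) = S.it n x y + k := by
  induction n with
  | zero => rfl
  | succ n ih => rw [it_succ, ih, S.F_int per, it_succ]

theorem per_add (per : ∀ x y, S.F x (y + 1) = S.F x y + 1) (s : ℝ) (x : X) (y : ℝ) :
    (S.add s).F x (y + 1) = (S.add s).F x y + 1 := by
  rw [add_F, add_F, per]; ring

/-- the order is preserved, with integer gaps -/
theorem gap (per : ∀ x y, S.F x (y + 1) = S.F x y + 1) {a b : ℝ} (hab : a ≤ b) (k : ℤ)
    (n : ℕ) (x : X) {w z : ℝ} (h : w + k ≤ z) :
    (S.add a).it n x w + k ≤ (S.add b).it n x z := by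
  induction n with
  | zero => exact h
  | succ n ih =>
    rw [it_succ, it_succ, add_F, add_F, add_T, add_T]
    have h1 := (S.strict (S.T^[n] x)).monotone ih
    rw [S.F_int per] at h1
    linarith

theorem gap0 (per : ∀ x y, S.F x (y + 1) = S.F x y + 1) {a b : ℝ} (hab : a ≤ b)
    (n : ℕ) (x : X) (w : ℝ) : (S.add a).it n x w ≤ (S.add b).it n x w := by
  have := S.gap per hab 0 n x (w := w) (z := w) (by simp)
  simpa using this

/-- the difference of the iterates of `0` -/
noncomputable def dif (a b : ℝ) (n : ℕ) (x : X) : ℝ := (S.add b).it n x 0 - (S.add a).it n x 0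

theorem dif_meas (a b : ℝ) (n : ℕ) : Measurable (S.dif a b n) :=
  ((S.add b).it_meas n measurable_const).sub ((S.add a).it_meas n measurable_const)

theorem dif_lower (per : ∀ x y, S.F x (y + 1) = S.F x y + 1) (a b : ℝ) (n : ℕ) (x : X) (w : ℝ) :
    S.dif a b n x - 1 ≤ (S.add b).it n x w - (S.add a).it n x w := by
  have h1 : (S.add b).it n x (0 + ⌊w⌋) ≤ (S.add b).it n x w :=
    (S.add b).it_mono n x (by rw [zero_add]; exact Int.floor_le w)
  have h2 : (S.add a).it n x w ≤ (S.add a).it n x (0 + ((⌊w⌋ + 1 : ℤ) : ℝ)) :=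
    (S.add a).it_mono n x (by rw [zero_add]; push_cast; exact (Int.lt_floor_add_one w).le)
  rw [(S.add b).it_int (S.per_add per b)] at h1
  rw [(S.add a).it_int (S.per_add per a)] at h2
  push_cast at h2
  rw [dif]
  linarith

theorem dif_upper (per : ∀ x y, S.F x (y + 1) = S.F x y + 1) (a b : ℝ) (n : ℕ) (x : X) (w : ℝ) :
    (S.add b).it n x w - (S.add a).it n x w ≤ S.dif a b n x + 1 := by
  have h1 : (S.add a).it n x (0 + ⌊w⌋) ≤ (S.add a).it n x w :=
    (S.add a).it_mono n x (by rw [zero_add]; exact Int.floor_le w)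
  have h2 : (S.add b).it n x w ≤ (S.add b).it n x (0 + ((⌊w⌋ + 1 : ℤ) : ℝ)) :=
    (S.add b).it_mono n x (by rw [zero_add]; push_cast; exact (Int.lt_floor_add_one w).le)
  rw [(S.add a).it_int (S.per_add per a)] at h1
  rw [(S.add b).it_int (S.per_add per b)] at h2
  push_cast at h2
  rw [dif]
  linarith

theorem dif_nonneg (per : ∀ x y, S.F x (y + 1) = S.F x y + 1) {a b : ℝ} (hab : a ≤ b)
    (n : ℕ) (x : X) : 0 ≤ S.dif a b n x := by
  have := S.gap0 per hab n x 0
  rw [dif]; linarith

theorem dif_le (per : ∀ x y, S.F x (y + 1) = S.F x y + 1) (a b : ℝ) (n : ℕ) (x : X) :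
    S.dif a b n x ≤ n * (⌈b - a⌉ : ℝ) := by
  have h : ∀ n : ℕ, (S.add b).it n x 0 ≤ (S.add a).it n x 0 + ((n * ⌈b - a⌉ : ℤ) : ℝ) := by
    intro n
    induction n with
    | zero => simp
    | succ n ih =>
      rw [it_succ, it_succ, add_F, add_F, add_T, add_T]
      have h1 := (S.strict (S.T^[n] x)).monotone ih
      rw [S.F_int per] at h1
      have h2 := Int.le_ceil (b - a)
      push_cast at h1 ⊢
      linarith
  have := h n
  push_cast at this
  rw [dif]; linarith

/-- the number of visits in `{dif ≥ 2}` bounds the difference from below -/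
theorem dif_count (per : ∀ x y, S.F x (y + 1) = S.F x y + 1) {a b : ℝ} (hab : a ≤ b)
    (n N : ℕ) (x : X) :
    ∑ i ∈ Finset.range N, {z | 2 ≤ S.dif a b n z}.indicator (fun _ => (1 : ℝ)) (S.T^[i * n] x) ≤
      S.dif a b (N * n) x := by
  classical
  have h : ∀ N : ℕ, ∃ k : ℤ, ∑ i ∈ Finset.range N,
      {z | 2 ≤ S.dif a b n z}.indicator (fun _ => (1 : ℝ)) (S.T^[i * n] x) = k ∧
      (S.add a).it (N * n) x 0 + k ≤ (S.add b).it (N * n) x 0 := by
    intro N
    induction N with
    | zero => exact ⟨0, by simp, by simp⟩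
    | succ N ih =>
      obtain ⟨k, hk1, hk2⟩ := ih
      rw [Nat.succ_mul, it_add, it_add, Finset.sum_range_succ, hk1, add_T, add_T]
      by_cases hx : S.T^[N * n] x ∈ {z | 2 ≤ S.dif a b n z}
      · refine ⟨k + 1, by rw [indicator_of_mem hx]; push_cast; ring, ?_⟩
        have h1 := (S.add b).it_mono n (S.T^[N * n] x) hk2
        rw [(S.add b).it_int (S.per_add per b)] at h1
        have h2 := S.dif_lower per a b n (S.T^[N * n] x) ((S.add a).it (N * n) x 0)
        have h3 : 2 ≤ S.dif a b n (S.T^[N * n] x) := hx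
        push_cast
        linarith
      · refine ⟨k, by rw [indicator_of_notMem hx, add_zero], ?_⟩
        exact S.gap per hab k n _ hk2
  obtain ⟨k, h1, h2⟩ := h N
  rw [h1, dif]
  linarith

/-- equal rotation numbers -/
def Locked (m : Measure X) (a b : ℝ) : Prop :=
  ∀ᵐ x ∂m, Tendsto (fun n : ℕ => S.dif a b n x / n) atTop (𝓝 0)

/-- **Bounded differences.** -/
theorem Locked.bdd [IsProbabilityMeasure m] (hT : MeasurePreserving S.T m m)
    (per : ∀ x y, S.F x (y + 1) = S.F x y + 1) {a b : ℝ} (hab : a ≤ b) (h : S.Locked m a b) :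
    ∀ᵐ x ∂m, ∀ n, S.dif a b n x < 2 := by
  rw [ae_all_iff]
  intro n
  rcases Nat.eq_zero_or_pos n with rfl | hn
  · refine Eventually.of_forall fun x => ?_
    simp [dif]
  set E : Set X := {z | 2 ≤ S.dif a b n z} with hE
  have mE : MeasurableSet E := measurableSet_le measurable_const (S.dif_meas a b n)
  have hC : 0 ≤ (⌈b - a⌉ : ℝ) := by
    exact_mod_cast Int.ceil_nonneg (sub_nonneg.2 hab)
  have hn' : (0 : ℝ) < n := by exact_mod_cast hn
  have h1 : Tendsto (fun N : ℕ => ∫ x, S.dif a b ((N + 1) * n) x / (((N + 1) * n : ℕ) : ℝ) ∂m)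
      atTop (𝓝 (∫ _, (0 : ℝ) ∂m)) := by
    refine tendsto_integral_of_dominated_convergence (fun _ => (⌈b - a⌉ : ℝ)) ?_ ?_ ?_ ?_
    · exact fun N => ((S.dif_meas a b _).div_const _).aestronglyMeasurable
    · exact integrable_const _
    · intro N
      refine Eventually.of_forall fun x => ?_
      have hp : (0 : ℝ) < (((N + 1) * n : ℕ) : ℝ) := by
        exact_mod_cast Nat.mul_pos (Nat.succ_pos N) hn
      rw [Real.norm_eq_abs, abs_of_nonneg (div_nonneg (S.dif_nonneg per hab _ _) hp.le),
        div_le_iff₀ hp]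
      have := S.dif_le per a b ((N + 1) * n) x
      linarith [mul_comm (⌈b - a⌉ : ℝ) (((N + 1) * n : ℕ) : ℝ)]
    · filter_upwards [h] with x hx
      refine hx.comp (tendsto_atTop_mono (fun N => ?_) tendsto_id)
      show N ≤ (N + 1) * n
      nlinarith
  rw [integral_zero] at h1
  have h2 : ∀ N : ℕ, m.real E / n ≤ ∫ x, S.dif a b ((N + 1) * n) x / (((N + 1) * n : ℕ) : ℝ) ∂m := by
    intro N
    have hp : (0 : ℝ) < (((N + 1) * n : ℕ) : ℝ) := by
      exact_mod_cast Nat.mul_pos (Nat.succ_pos N) hn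
    have hint : ∀ i : ℕ, Integrable (fun x => E.indicator (fun _ => (1 : ℝ)) (S.T^[i * n] x)) m := by
      intro i
      refine Integrable.of_bound (C := 1) ?_ ?_
      · exact ((measurable_const.indicator mE).comp (S.T.measurable.iterate _)).aestronglyMeasurable
      · refine Eventually.of_forall fun x => ?_
        by_cases hx : S.T^[i * n] x ∈ E
        · simp [indicator_of_mem hx]
        · simp [indicator_of_notMem hx]
    have h3 : ∫ x, ∑ i ∈ Finset.range (N + 1),
        E.indicator (fun _ => (1 : ℝ)) (S.T^[i * n] x) ∂m = ((N : ℝ) + 1) * m.real E := by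
      rw [integral_finsetSum _ fun i _ => hint i]
      have h4 : ∀ i ∈ Finset.range (N + 1),
          ∫ x, E.indicator (fun _ => (1 : ℝ)) (S.T^[i * n] x) ∂m = m.real E := by
        intro i _
        have hTi := hT.iterate (i * n)
        have h5 : ∫ x, E.indicator (fun _ => (1 : ℝ)) x ∂(m.map S.T^[i * n]) =
            ∫ x, E.indicator (fun _ => (1 : ℝ)) (S.T^[i * n] x) ∂m :=
          integral_map hTi.measurable.aemeasurable
            (measurable_const.indicator mE).aestronglyMeasurable
        rw [← h5, hTi.map_eq, integral_indicator_const _ mE]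
        simp
      rw [Finset.sum_congr rfl h4, Finset.sum_const, Finset.card_range, nsmul_eq_mul]
      push_cast; ring
    have h6 : m.real E / n = ∫ x, (∑ i ∈ Finset.range (N + 1),
        E.indicator (fun _ => (1 : ℝ)) (S.T^[i * n] x)) / (((N + 1) * n : ℕ) : ℝ) ∂m := by
      rw [integral_div, h3]
      push_cast
      field_simp
    rw [h6]
    refine integral_mono ((integrable_finsetSum _ fun i _ => hint i).div_const _) ?_ ?_
    · refine Integrable.div_const ?_ _
      refine Integrable.of_bound (C := (((N + 1) * n : ℕ) : ℝ) * ⌈b - a⌉) (S.dif_meas a b _).aestronglyMeasurable ?_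
      refine Eventually.of_forall fun x => ?_
      rw [Real.norm_eq_abs, abs_of_nonneg (S.dif_nonneg per hab _ _)]
      exact S.dif_le per a b _ x
    · intro x
      exact div_le_div_of_nonneg_right (S.dif_count per hab n (N + 1) x) hp.le
  have h7 : m.real E / n ≤ 0 := ge_of_tendsto' h1 h2
  have h8 : m.real E = 0 := by
    have h9 : 0 ≤ m.real E := measureReal_nonneg
    have h10 : m.real E ≤ 0 := by
      by_contra hcon
      exact absurd (div_pos (not_le.1 hcon) hn') (not_lt.2 h7)
    linarith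
  have h9 : m E = 0 := by
    rwa [measureReal_eq_zero_iff] at h8
  rw [ae_iff]
  refine measure_mono_null ?_ h9
  intro x hx
  exact not_lt.1 hx

/-- the backward orbit is mapped forward onto the point -/
theorem it_inv (n : ℕ) (x : X) (y : ℝ) : S.it n (S.T.symm^[n] x) (S.inv.it n x y) = y := by
  induction n with
  | zero => rfl
  | succ n ih =>
    rw [it_succ', Function.iterate_succ_apply']
    have h1 : S.T (S.T.symm (S.T.symm^[n] x)) = S.T.symm^[n] x := S.T.apply_symm_apply _
    rw [h1, it_succ, inv_T, inv_F, F_symm]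
    exact ih

/-- approximate wave operators -/
noncomputable def wv (a s : ℝ) (n : ℕ) (x : X) (y : ℝ) : ℝ :=
  (S.add s).it n (S.T.symm^[n] x) ((S.add a).inv.it n x y)

theorem wv_zero (a s : ℝ) (x : X) (y : ℝ) : S.wv a s 0 x y = y := rfl

theorem wv_succ (a s : ℝ) (n : ℕ) (x : X) (y : ℝ) :
    S.wv a s (n + 1) x y =
      (S.add s).it n (S.T.symm^[n] x) ((S.add a).inv.it n x y + (s - a)) := by
  rw [wv, it_succ', Function.iterate_succ_apply']
  have h1 : (S.add s).T (S.T.symm (S.T.symm^[n] x)) = S.T.symm^[n] x := S.T.apply_symm_apply _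
  rw [h1]
  congr 1
  have h2 := (S.add a).F_symm (S.T.symm (S.T.symm^[n] x)) ((S.add a).inv.it n x y)
  rw [it_succ, inv_T, inv_F, add_T, add_F]
  rw [add_F] at h2
  linarith

theorem wv_mono {a s : ℝ} (has : a ≤ s) (x : X) (y : ℝ) : Monotone fun n => S.wv a s n x y := by
  refine monotone_nat_of_le_succ fun n => ?_
  rw [wv_succ]
  exact (S.add s).it_mono n _ (by linarith)

theorem wv_step (a s : ℝ) (n : ℕ) (x : X) (y : ℝ) :
    S.wv a s (n + 1) (S.T x) (S.F x y + a) = S.F x (S.wv a s n x y) + s := by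
  have h1 : (S.add a).inv.it (n + 1) (S.T x) (S.F x y + a) = (S.add a).inv.it n x y := by
    rw [it_succ', inv_T, inv_F, add_T, S.T.symm_apply_apply]
    congr 1
    exact (S.add a).symm_F x y
  have h2 : S.T.symm^[n + 1] (S.T x) = S.T.symm^[n] x := by
    rw [Function.iterate_succ_apply, S.T.symm_apply_apply]
  rw [wv, h1, h2, it_succ, add_F, add_T]
  have h3 : S.T^[n] (S.T.symm^[n] x) = x :=
    (Function.LeftInverse.iterate (fun z => S.T.apply_symm_apply z) n) x
  rw [h3]
  rfl

theorem inv_per (per : ∀ x y, S.F x (y + 1) = S.F x y + 1) (x : X) (y : ℝ) :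
    S.inv.F x (y + 1) = S.inv.F x y + 1 := by
  rw [inv_F, inv_F]
  apply (S.strict (S.T.symm x)).injective
  rw [F_symm, per, F_symm]

theorem wv_int (per : ∀ x y, S.F x (y + 1) = S.F x y + 1) (a s : ℝ) (n : ℕ) (x : X) (y : ℝ)
    (k : ℤ) : S.wv a s n x (y + k) = S.wv a s n x y + k := by
  rw [wv, (S.add a).inv.it_int ((S.add a).inv_per (S.per_add per a)),
    (S.add s).it_int (S.per_add per s)]
  rfl

theorem wv_le (per : ∀ x y, S.F x (y + 1) = S.F x y + 1) {a b s : ℝ} (hsb : s ≤ b)
    (n : ℕ) (x : X) (y : ℝ) : S.wv a s n x y ≤ y + (S.dif a b n (S.T.symm^[n] x) + 1) := by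
  have h1 := S.gap0 per hsb n (S.T.symm^[n] x) ((S.add a).inv.it n x y)
  have h2 := S.dif_upper per a b n (S.T.symm^[n] x) ((S.add a).inv.it n x y)
  have h3 := (S.add a).it_inv n x y
  rw [add_T] at h3
  rw [h3] at h2
  rw [wv]
  linarith

/-- the wave operator -/
noncomputable def wave (a s : ℝ) (x : X) (y : ℝ) : ℝ := ⨆ n, S.wv a s n x y

theorem wv_meas (a s : ℝ) (n : ℕ) : Measurable (Function.uncurry (S.wv a s n)) := by
  have h0 : ∀ (R : Sys X) (k : ℕ), Measurable (Function.uncurry (R.it k)) := by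
    intro R k
    induction k with
    | zero => exact measurable_snd
    | succ k ih =>
      exact R.mF.comp (((R.T.measurable.iterate k).comp measurable_fst).prodMk ih)
  exact (h0 (S.add s) n).comp (((S.T.symm.measurable.iterate n).comp measurable_fst).prodMk
    (h0 (S.add a).inv n))

theorem wave_meas (a s : ℝ) : Measurable (Function.uncurry (S.wave a s)) := by
  have : Function.uncurry (S.wave a s) = fun p => ⨆ n, Function.uncurry (S.wv a s n) p := rfl
  rw [this]
  exact Measurable.iSup fun n => S.wv_meas a s n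

/-- **Wave operators.** -/
theorem wave_spec [IsProbabilityMeasure m] (erg : Ergodic S.T m)
    (per : ∀ x y, S.F x (y + 1) = S.F x y + 1) {a b s : ℝ} (has : a ≤ s) (hsb : s ≤ b)
    (h : S.Locked m a b) :
    ∀ᵐ x ∂m, ∀ y : ℝ, S.F x (S.wave a s x y) + s = S.wave a s (S.T x) (S.F x y + a) ∧
      ∀ k : ℤ, S.wave a s x (y + k) = S.wave a s x y + k := by
  have hb := h.bdd S erg.toMeasurePreserving per (has.trans hsb)
  have hsymm : MeasurePreserving S.T.symm m m := erg.toMeasurePreserving.symm S.T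
  have hb2 : ∀ᵐ x ∂m, ∀ n, S.dif a b n (S.T.symm^[n] x) < 2 := by
    rw [ae_all_iff]
    intro n
    filter_upwards [(hsymm.iterate n).quasiMeasurePreserving.ae hb] with x hx
    exact hx n
  have hlim : ∀ x, (∀ n, S.dif a b n (S.T.symm^[n] x) < 2) → ∀ y,
      Tendsto (fun n => S.wv a s n x y) atTop (𝓝 (S.wave a s x y)) := by
    intro x hx y
    refine tendsto_atTop_ciSup (S.wv_mono has x y) ⟨y + 3, ?_⟩
    rintro _ ⟨n, rfl⟩
    have := S.wv_le per hsb n x y (a := a)
    have := hx n
    show S.wv a s n x y ≤ y + 3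
    linarith
  filter_upwards [hb2, erg.toMeasurePreserving.quasiMeasurePreserving.ae hb2] with x h1 h2 y
  refine ⟨?_, ?_⟩
  · have l1 := (hlim (S.T x) h2 (S.F x y + a)).comp (tendsto_add_atTop_nat 1)
    have l2 : Tendsto (fun n => S.F x (S.wv a s n x y) + s) atTop
        (𝓝 (S.F x (S.wave a s x y) + s)) :=
      (((S.cont x).tendsto _).comp (hlim x h1 y)).add_const s
    refine tendsto_nhds_unique l2 (l1.congr fun n => ?_)
    exact S.wv_step a s n x y
  · intro k
    have l1 := hlim x h1 (y + k)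
    have l2 := (hlim x h1 y).add_const (k : ℝ)
    refine tendsto_nhds_unique l1 (l2.congr fun n => ?_)
    exact (S.wv_int per a s n x y k).symm

end Sys

end Pool.Agent.TH525.PF
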